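import Mathlib

/-!
# Semilinear isometries of a vector space with multiplication by a number field
-/

set_option autoImplicit false

namespace Pool.Agent.Zk8.KT

open Matrix Module

/-- Semilinear isometry. -/
structure Dat (Ω : Type) [Field Ω] [CharZero Ω] (E : Type) [Field E] [NumberField E] (m : ℕ) where
  act : E →ₐ[ℚ] Matrix (Fin m) (Fin m) Ω
  n : ℕ
  npos : 0 < n
  tr_act : ∀ e, (act e).trace = n * algebraMap ℚ Ω (Algebra.trace ℚ E e)
  ψ : Matrix (Fin m) (Fin m) Ω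
  symm : ψᵀ = ψ
  nondeg : IsUnit ψ
  conj : E ≃ₐ[ℚ] E
  adj : ∀ e, ψ * act e = (act (conj e))ᵀ * ψ
  A : Matrix (Fin m) (Fin m) Ω
  a : E ≃ₐ[ℚ] E
  semil : ∀ e, A * act e = act (a e) * A
  iso : Aᵀ * ψ * A = ψ

namespace Dat

variable {Ω : Type} [Field Ω] [CharZero Ω] {E : Type} [Field E] [NumberField E] {m : ℕ}
  (D : Dat Ω E m)

/-- The form. -/
def B (x y : Fin m → Ω) : Ω := x ⬝ᵥ (D.ψ *ᵥ y)

lemma B_add_left (x y z : Fin m → Ω) : D.B (x + y) z = D.B x z + D.B y z := by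
  simp [B, add_dotProduct]

lemma B_add_right (x y z : Fin m → Ω) : D.B x (y + z) = D.B x y + D.B x z := by
  simp [B, mulVec_add, dotProduct_add]

lemma B_smul_left (c : Ω) (x y : Fin m → Ω) : D.B (c • x) y = c * D.B x y := by
  simp [B, smul_dotProduct]

lemma B_smul_right (c : Ω) (x y : Fin m → Ω) : D.B x (c • y) = c * D.B x y := by
  simp [B, mulVec_smul, dotProduct_smul]

lemma B_zero_left (y : Fin m → Ω) : D.B 0 y = 0 := by simp [B]

lemma B_zero_right (y : Fin m → Ω) : D.B y 0 = 0 := by simp [B]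

lemma B_comm (x y : Fin m → Ω) : D.B x y = D.B y x := by
  rw [B, B, dotProduct_mulVec, dotProduct_comm, ← mulVec_transpose, D.symm]

lemma B_sum_right {ι : Type} (s : Finset ι) (x : Fin m → Ω) (f : ι → Fin m → Ω) :
    D.B x (∑ i ∈ s, f i) = ∑ i ∈ s, D.B x (f i) := by
  classical
  induction s using Finset.induction_on with
  | empty => simp [B_zero_right]
  | insert a s ha ih => rw [Finset.sum_insert ha, Finset.sum_insert ha, B_add_right, ih]

lemma B_act (e : E) (x y : Fin m → Ω) : D.B (D.act e *ᵥ x) y = D.B x (D.act (D.conj e) *ᵥ y) := by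
  have h := congrArg transpose (D.adj e)
  rw [transpose_mul, transpose_mul, transpose_transpose, D.symm] at h
  rw [B, B, mulVec_mulVec, ← h, ← mulVec_mulVec, dotProduct_comm, dotProduct_mulVec,
    ← mulVec_transpose, dotProduct_comm]

lemma B_A (x y : Fin m → Ω) : D.B (D.A *ᵥ x) (D.A *ᵥ y) = D.B x y := by
  have h : D.B x y = x ⬝ᵥ ((D.Aᵀ * D.ψ * D.A) *ᵥ y) := by rw [D.iso, B]
  rw [h, B, ← mulVec_mulVec, ← mulVec_mulVec, dotProduct_mulVec x, ← mulVec_transpose,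
    transpose_transpose]

lemma nonzero_of {x : Fin m → Ω} (hx : x ≠ 0) : ∃ y, D.B x y ≠ 0 := by
  by_contra h
  push Not at h
  apply hx
  have h1 : ∀ z, x ⬝ᵥ z = 0 := by
    intro z
    obtain ⟨u, hu⟩ := D.nondeg
    have h2 := h ((↑u⁻¹ : Matrix (Fin m) (Fin m) Ω) *ᵥ z)
    rw [B, mulVec_mulVec, ← hu, Units.mul_inv, one_mulVec] at h2
    exact h2
  exact dotProduct_eq_zero x h1

include D in
lemma m_pos : 0 < m := by
  by_contra h
  have hm : m = 0 := by omega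
  subst hm
  have h1 := D.tr_act 1
  rw [Matrix.trace_eq_zero_of_isEmpty, ← map_one (algebraMap ℚ E), Algebra.trace_algebraMap] at h1
  have h2 : (0 : Ω) = ((D.n * finrank ℚ E : ℕ) : Ω) := by
    rw [h1]; push_cast; simp
  have h3 : D.n * finrank ℚ E = 0 := by exact_mod_cast h2.symm
  have h4 := D.npos
  have h5 : 0 < finrank ℚ E := finrank_pos
  rcases Nat.mul_eq_zero.1 h3 with h | h <;> omega

lemma act_inj : Function.Injective D.act := by
  have : NeZero m := ⟨D.m_pos.ne'⟩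
  exact D.act.toRingHom.injective

lemma conj_conj (e : E) : D.conj (D.conj e) = e := by
  have h := congrArg transpose (D.adj e)
  rw [transpose_mul, transpose_mul, transpose_transpose, D.symm] at h
  have h2 := D.adj (D.conj e)
  rw [h2] at h
  obtain ⟨u, hu⟩ := D.nondeg
  have h3 : (D.act e)ᵀ = (D.act (D.conj (D.conj e)))ᵀ := by
    rw [← hu] at h
    exact u.mul_left_inj.1 h
  have h4 := Matrix.transpose_injective h3
  exact (D.act_inj h4).symm

/-- the eigenspaces -/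
def T (σ : E →ₐ[ℚ] Ω) : Submodule Ω (Fin m → Ω) where
  carrier := {x | ∀ e, D.act e *ᵥ x = σ e • x}
  add_mem' := by
    intro x y hx hy e
    rw [mulVec_add, hx e, hy e, smul_add]
  zero_mem' := by intro e; simp
  smul_mem' := by
    intro c x hx e
    rw [mulVec_smul, hx e, smul_comm]

lemma mem_T {σ : E →ₐ[ℚ] Ω} {x : Fin m → Ω} : x ∈ D.T σ ↔ ∀ e, D.act e *ᵥ x = σ e • x := Iff.rfl

lemma pair {σ τ : E →ₐ[ℚ] Ω} {x y : Fin m → Ω} (hx : x ∈ D.T σ) (hy : y ∈ D.T τ)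
    (h : D.B x y ≠ 0) (e : E) : σ e = τ (D.conj e) := by
  have h1 := D.B_act e x y
  rw [hx e, hy, B_smul_left, B_smul_right] at h1
  exact mul_right_cancel₀ h h1

lemma A_T {σ : E →ₐ[ℚ] Ω} {x : Fin m → Ω} (hx : x ∈ D.T σ) :
    D.A *ᵥ x ∈ D.T (σ.comp (D.a⁻¹ : E ≃ₐ[ℚ] E).toAlgHom) := by
  intro e
  have h := D.semil ((D.a⁻¹ : E ≃ₐ[ℚ] E) e)
  have h1 : D.a ((D.a⁻¹ : E ≃ₐ[ℚ] E) e) = e := by
    rw [← AlgEquiv.mul_apply, mul_inv_cancel, AlgEquiv.one_apply]
  rw [h1] at h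
  rw [mulVec_mulVec, ← h, ← mulVec_mulVec, hx, mulVec_smul]
  rfl

lemma pow_T {σ : E →ₐ[ℚ] Ω} {x : Fin m → Ω} (hx : x ∈ D.T σ) (k : ℕ) :
    (D.A ^ k) *ᵥ x ∈ D.T (σ.comp ((D.a⁻¹ : E ≃ₐ[ℚ] E) ^ k).toAlgHom) := by
  induction k with
  | zero =>
    rw [pow_zero D.A, one_mulVec]
    exact hx
  | succ k ih =>
    rw [pow_succ' D.A, ← mulVec_mulVec]
    have h := D.A_T ih
    have e : (σ.comp ((D.a⁻¹ : E ≃ₐ[ℚ] E) ^ k).toAlgHom).comp (D.a⁻¹ : E ≃ₐ[ℚ] E).toAlgHom =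
        σ.comp ((D.a⁻¹ : E ≃ₐ[ℚ] E) ^ (k + 1)).toAlgHom := by
      rw [pow_succ]
      rfl
    rw [e] at h
    exact h

lemma B_pow (k : ℕ) (x y : Fin m → Ω) : D.B (D.A ^ k *ᵥ x) (D.A ^ k *ᵥ y) = D.B x y := by
  induction k with
  | zero => simp
  | succ k ih => rw [pow_succ', ← mulVec_mulVec, ← mulVec_mulVec, B_A, ih]

lemma A_inj {x : Fin m → Ω} (hx : x ≠ 0) (k : ℕ) : D.A ^ k *ᵥ x ≠ 0 := by
  intro h
  obtain ⟨y, hy⟩ := D.nonzero_of hx
  apply hy
  rw [← D.B_pow k, h, B_zero_left]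

/-- The projector. -/
noncomputable def pr (σ : E →ₐ[ℚ] Ω) : Matrix (Fin m) (Fin m) Ω :=
  ∑ i, σ ((finBasis ℚ E).traceDual i) • D.act (finBasis ℚ E i)

lemma repr_b (x : E) (j : Fin (finrank ℚ E)) : (finBasis ℚ E).repr x j =
    Algebra.trace ℚ E (x * (finBasis ℚ E).traceDual j) := by
  have h := (finBasis ℚ E).traceDual.traceDual_repr_apply x j
  rw [Module.Basis.traceDual_traceDual] at h
  exact h

lemma act_pr (σ : E →ₐ[ℚ] Ω) (e : E) : D.act e * D.pr σ = σ e • D.pr σ := by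
  rw [pr, Finset.mul_sum, Finset.smul_sum]
  have h1 : ∀ i, D.act e * (σ ((finBasis ℚ E).traceDual i) • D.act (finBasis ℚ E i)) =
      ∑ j, (σ ((finBasis ℚ E).traceDual i) * algebraMap ℚ Ω
        (Algebra.trace ℚ E (e * finBasis ℚ E i * (finBasis ℚ E).traceDual j))) •
          D.act (finBasis ℚ E j) := by
    intro i
    rw [mul_smul_comm, ← map_mul]
    conv_lhs => rw [← (finBasis ℚ E).sum_repr (e * finBasis ℚ E i)]
    rw [map_sum, Finset.smul_sum]
    refine Finset.sum_congr rfl fun j _ => ?_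
    rw [map_smul, repr_b, mul_smul, algebraMap_smul]
  rw [Finset.sum_congr rfl fun i _ => h1 i, Finset.sum_comm]
  refine Finset.sum_congr rfl fun j _ => ?_
  rw [← Finset.sum_smul, ← mul_smul, ← map_mul]
  congr 1
  conv_rhs => rw [← (finBasis ℚ E).traceDual.sum_repr (e * (finBasis ℚ E).traceDual j)]
  rw [map_sum]
  refine Finset.sum_congr rfl fun i _ => ?_
  rw [Module.Basis.traceDual_repr_apply, Algebra.traceForm_apply, Algebra.smul_def, map_mul σ,
    AlgHom.commutes, mul_comm, mul_right_comm e]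

variable [IsAlgClosed Ω]

lemma sum_pr : ∑ σ : E →ₐ[ℚ] Ω, D.pr σ = 1 := by
  simp_rw [pr]
  rw [Finset.sum_comm]
  have h1 : ∀ i, ∑ σ : E →ₐ[ℚ] Ω, σ ((finBasis ℚ E).traceDual i) • D.act (finBasis ℚ E i) =
      D.act ((Algebra.trace ℚ E ((finBasis ℚ E).traceDual i)) • finBasis ℚ E i) := by
    intro i
    rw [← Finset.sum_smul, ← trace_eq_sum_embeddings (K := ℚ) Ω, map_smul, algebraMap_smul]
  rw [Finset.sum_congr rfl fun i _ => h1 i, ← map_sum]
  have h2 : ∑ i, Algebra.trace ℚ E ((finBasis ℚ E).traceDual i) • finBasis ℚ E i = 1 := by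
    conv_rhs => rw [← (finBasis ℚ E).sum_repr 1]
    refine Finset.sum_congr rfl fun i _ => ?_
    rw [repr_b, one_mul]
  rw [h2, map_one]

omit [IsAlgClosed Ω] in
lemma pr_mem (σ : E →ₐ[ℚ] Ω) (x : Fin m → Ω) : D.pr σ *ᵥ x ∈ D.T σ := by
  intro e
  rw [mulVec_mulVec, act_pr, smul_mulVec]

lemma pr_T_ne {σ τ : E →ₐ[ℚ] Ω} (h : τ ≠ σ) {x : Fin m → Ω} (hx : x ∈ D.T σ) :
    D.pr τ *ᵥ x = 0 := by
  have h1 : D.pr τ *ᵥ x = (∑ i, τ ((finBasis ℚ E).traceDual i) * σ (finBasis ℚ E i)) • x := by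
    rw [pr, Matrix.sum_mulVec, Finset.sum_smul]
    refine Finset.sum_congr rfl fun i _ => ?_
    rw [smul_mulVec, hx, smul_smul]
  have h2 := D.pr_mem τ x
  obtain ⟨e, he⟩ : ∃ e, τ e ≠ σ e := by
    by_contra hc
    push Not at hc
    exact h (AlgHom.ext hc)
  have h3 := h2 e
  rw [h1] at h3 ⊢
  rw [mulVec_smul, hx, smul_comm] at h3
  by_contra hne
  apply he
  have h4 : (σ e - τ e) • ((∑ i, τ ((finBasis ℚ E).traceDual i) * σ (finBasis ℚ E i)) • x) = 0 := by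
    rw [sub_smul, h3, sub_self]
  rcases smul_eq_zero.1 h4 with h5 | h5
  · exact (sub_eq_zero.1 h5).symm
  · exact absurd h5 hne

lemma pr_T {σ : E →ₐ[ℚ] Ω} {x : Fin m → Ω} (hx : x ∈ D.T σ) : D.pr σ *ᵥ x = x := by
  have h := congrArg (fun M => M *ᵥ x) D.sum_pr
  simp only [Matrix.sum_mulVec, one_mulVec] at h
  rw [Finset.sum_eq_single σ (fun τ _ hτ => D.pr_T_ne hτ hx)
    (fun h => absurd (Finset.mem_univ _) h)] at h
  exact h

omit [IsAlgClosed Ω] in
lemma trace_pr (σ : E →ₐ[ℚ] Ω) : (D.pr σ).trace = D.n := by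
  rw [pr, Matrix.trace_sum]
  have h1 : ∀ i, (σ ((finBasis ℚ E).traceDual i) • D.act (finBasis ℚ E i)).trace =
      D.n * σ ((Algebra.trace ℚ E (finBasis ℚ E i)) • (finBasis ℚ E).traceDual i) := by
    intro i
    rw [Matrix.trace_smul, D.tr_act, smul_eq_mul, Algebra.smul_def, map_mul, AlgHom.commutes]
    ring
  rw [Finset.sum_congr rfl fun i _ => h1 i, ← Finset.mul_sum, ← map_sum]
  have h2 : ∑ i, Algebra.trace ℚ E (finBasis ℚ E i) • (finBasis ℚ E).traceDual i = 1 := by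
    conv_rhs => rw [← (finBasis ℚ E).traceDual.sum_repr 1]
    refine Finset.sum_congr rfl fun i _ => ?_
    rw [Module.Basis.traceDual_repr_apply, Algebra.traceForm_apply, one_mul]
  rw [h2, map_one, mul_one]

lemma finrank_T (σ : E →ₐ[ℚ] Ω) : finrank Ω (D.T σ) = D.n := by
  have h : LinearMap.IsProj (D.T σ) (Matrix.toLin' (D.pr σ)) := by
    constructor
    · intro x
      rw [Matrix.toLin'_apply]
      exact D.pr_mem σ x
    · intro x hx
      rw [Matrix.toLin'_apply]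
      exact D.pr_T hx
  have h1 := h.trace
  rw [Matrix.trace_toLin'_eq, trace_pr] at h1
  exact_mod_cast h1.symm

/-- A nonzero vector pairs nontrivially with the opposite eigenspace. -/
lemma exists_pair {σ : E →ₐ[ℚ] Ω} {x : Fin m → Ω} (hx : x ∈ D.T σ) (h0 : x ≠ 0) :
    ∃ y ∈ D.T (σ.comp D.conj.toAlgHom), D.B x y ≠ 0 := by
  obtain ⟨z, hz⟩ := D.nonzero_of h0
  have h := congrArg (fun M => M *ᵥ z) D.sum_pr
  simp only [Matrix.sum_mulVec, one_mulVec] at h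
  rw [← h, B_sum_right] at hz
  obtain ⟨τ, -, hτ⟩ := Finset.exists_ne_zero_of_sum_ne_zero hz
  refine ⟨D.pr τ *ᵥ z, ?_, hτ⟩
  have h1 := D.pair hx (D.pr_mem τ z) hτ
  have h2 : τ = σ.comp D.conj.toAlgHom := by
    ext e
    have := h1 (D.conj e)
    rw [conj_conj] at this
    exact this.symm
  rw [← h2]
  exact D.pr_mem τ z

end Dat

end Pool.Agent.Zk8.KT
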