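import Pool.Agent.Zk8.KT.Alg

/-!
# Perturbation of a semilinear isometry by a hyperbolic rotation
-/

set_option autoImplicit false

namespace Pool.Agent.Zk8.KT

open Matrix Module

namespace Dat

variable {Ω : Type} [Field Ω] [CharZero Ω] {E : Type} [Field E] [NumberField E] {m : ℕ}
  (D : Dat Ω E m)

/-- `z ↦ x ⟨z, y⟩`. -/
def P (x y : Fin m → Ω) : Matrix (Fin m) (Fin m) Ω := vecMulVec x (D.ψ *ᵥ y)

lemma P_mulVec (x y z : Fin m → Ω) : D.P x y *ᵥ z = D.B z y • x := by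
  ext i
  simp only [P, mulVec, vecMulVec_apply, dotProduct, B, Pi.smul_apply, smul_eq_mul]
  rw [Finset.sum_mul]
  refine Finset.sum_congr rfl fun j _ => ?_
  ring

lemma trace_P (x y : Fin m → Ω) (M : Matrix (Fin m) (Fin m) Ω) :
    (M * D.P x y).trace = D.B (M *ᵥ x) y := by
  rw [P, mul_vecMulVec, trace_vecMulVec, B]

/-- `x ↦ t⁻¹ x`, `y ↦ t y`. -/
def h (x y : Fin m → Ω) (t : Ω) : Matrix (Fin m) (Fin m) Ω :=
  1 + (t⁻¹ - 1) • D.P x y + (t - 1) • D.P y x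

lemma h_mulVec (x y : Fin m → Ω) (t : Ω) (z : Fin m → Ω) :
    D.h x y t *ᵥ z = z + ((t⁻¹ - 1) * D.B z y) • x + ((t - 1) * D.B z x) • y := by
  rw [h, add_mulVec, add_mulVec, one_mulVec, smul_mulVec, smul_mulVec, P_mulVec, P_mulVec,
    smul_smul, smul_smul]

omit [CharZero Ω] in
lemma ext_mulVec {M N : Matrix (Fin m) (Fin m) Ω} (h : ∀ z, M *ᵥ z = N *ᵥ z) : M = N := by
  apply Matrix.toLin'.injective
  ext1
  ext1
  simp [h]

lemma h_mul {x y : Fin m → Ω} (hx : D.B x x = 0) (hy : D.B y y = 0) (hxy : D.B x y = 1) {s : Ω}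
    (hs : s ≠ 0) : D.h x y s * D.h x y s = D.h x y (s * s) := by
  have hyx : D.B y x = 1 := by rw [B_comm, hxy]
  apply ext_mulVec
  intro z
  rw [← mulVec_mulVec, h_mulVec, h_mulVec, h_mulVec]
  simp only [B_add_left, B_smul_left, hx, hy, hxy, hyx]
  ext i
  simp only [Pi.add_apply, Pi.smul_apply, smul_eq_mul]
  field_simp
  ring

lemma h_iso {x y : Fin m → Ω} (hx : D.B x x = 0) (hy : D.B y y = 0) (hxy : D.B x y = 1) {t : Ω}
    (ht : t ≠ 0) : (D.h x y t)ᵀ * D.ψ * D.h x y t = D.ψ := by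
  have hyx : D.B y x = 1 := by rw [B_comm, hxy]
  have key : ∀ z w, D.B (D.h x y t *ᵥ z) (D.h x y t *ᵥ w) = D.B z w := by
    intro z w
    rw [h_mulVec, h_mulVec]
    simp only [B_add_left, B_smul_left, B_add_right, B_smul_right, hx, hy, hxy, hyx]
    rw [D.B_comm x w, D.B_comm y w]
    field_simp
    ring
  apply ext_mulVec
  intro w
  have h0 : ∀ z, z ⬝ᵥ (((D.h x y t)ᵀ * D.ψ * D.h x y t) *ᵥ w - D.ψ *ᵥ w) = 0 := by
    intro z
    rw [dotProduct_sub, ← mulVec_mulVec, ← mulVec_mulVec, dotProduct_mulVec z, ← mulVec_transpose,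
      transpose_transpose]
    exact sub_eq_zero.2 (key z w)
  rw [← sub_eq_zero]
  apply dotProduct_eq_zero
  intro z
  rw [dotProduct_comm]
  exact h0 z

lemma act_P {σ τ : E →ₐ[ℚ] Ω} {x y : Fin m → Ω} (hx : x ∈ D.T σ) (hy : y ∈ D.T τ)
    (h : ∀ e, σ e = τ (D.conj e)) (e : E) : D.P x y * D.act e = D.act e * D.P x y := by
  apply ext_mulVec
  intro z
  rw [← mulVec_mulVec, ← mulVec_mulVec, P_mulVec, P_mulVec, mulVec_smul, hx e, B_act, hy,
    B_smul_right, h e, mul_smul, smul_comm]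

/-- the conditions on the pair `x, y`. -/
structure Good (σ : E →ₐ[ℚ] Ω) (x y : Fin m → Ω) : Prop where
  hx : x ∈ D.T σ
  hy : y ∈ D.T (σ.comp D.conj.toAlgHom)
  xx : D.B x x = 0
  yy : D.B y y = 0
  xy : D.B x y = 1
  mid : ∀ k, 0 < k → k < orderOf D.a → D.B (D.A ^ k *ᵥ x) x = 0
  last : D.B (D.A ^ orderOf D.a *ᵥ x) y ≠ 0

variable {D}

lemma Good.mid_xy {σ : E →ₐ[ℚ] Ω} {x y : Fin m → Ω} (g : D.Good σ x y) {k : ℕ} (h0 : 0 < k)
    (hk : k < orderOf D.a) : D.B (D.A ^ k *ᵥ x) y = 0 := by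
  by_contra hne
  have h1 := D.pair (D.pow_T g.hx k) g.hy hne
  have h2 : (D.a⁻¹ : E ≃ₐ[ℚ] E) ^ k = 1 := by
    ext e
    have h3 := h1 e
    change σ ((D.a⁻¹ ^ k : E ≃ₐ[ℚ] E) e) = σ (D.conj (D.conj e)) at h3
    rw [D.conj_conj] at h3
    exact σ.toRingHom.injective h3
  rw [inv_pow, inv_eq_one] at h2
  exact absurd (orderOf_dvd_of_pow_eq_one h2) (Nat.not_dvd_of_pos_of_lt h0 hk)

lemma Good.mid_yx {σ : E →ₐ[ℚ] Ω} {x y : Fin m → Ω} (g : D.Good σ x y) {k : ℕ} (h0 : 0 < k)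
    (hk : k < orderOf D.a) : D.B (D.A ^ k *ᵥ y) x = 0 := by
  by_contra hne
  have h1 := D.pair (D.pow_T g.hy k) g.hx hne
  have h2 : (D.a⁻¹ : E ≃ₐ[ℚ] E) ^ k = 1 := by
    ext e
    have h3 := h1 e
    change σ (D.conj ((D.a⁻¹ ^ k : E ≃ₐ[ℚ] E) e)) = σ (D.conj e) at h3
    exact D.conj.injective (σ.toRingHom.injective h3)
  rw [inv_pow, inv_eq_one] at h2
  exact absurd (orderOf_dvd_of_pow_eq_one h2) (Nat.not_dvd_of_pos_of_lt h0 hk)

/-- `h` commutes with the multiplications. -/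
lemma Good.comm {σ : E →ₐ[ℚ] Ω} {x y : Fin m → Ω} (g : D.Good σ x y) (t : Ω) (e : E) :
    D.h x y t * D.act e = D.act e * D.h x y t := by
  have h1 := D.act_P g.hx g.hy (fun e => by
    change σ e = σ (D.conj (D.conj e))
    rw [D.conj_conj]) e
  have h2 := D.act_P g.hy g.hx (fun e => rfl) e
  rw [h, add_mul, add_mul, mul_add, mul_add, one_mul, mul_one, smul_mul_assoc, smul_mul_assoc,
    mul_smul_comm, mul_smul_comm, h1, h2]

lemma Good.step_x {σ : E →ₐ[ℚ] Ω} {x y : Fin m → Ω} (g : D.Good σ x y) (t : Ω) {k : ℕ} (h0 : 0 < k)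
    (hk : k < orderOf D.a) : (D.A * D.h x y t) *ᵥ (D.A ^ k *ᵥ x) = D.A ^ (k + 1) *ᵥ x := by
  rw [← mulVec_mulVec, h_mulVec, g.mid_xy h0 hk, g.mid k h0 hk, mul_zero, mul_zero, zero_smul,
    zero_smul, add_zero, add_zero, mulVec_mulVec, ← pow_succ']

lemma Good.step_y {σ : E →ₐ[ℚ] Ω} {x y : Fin m → Ω} (g : D.Good σ x y) (t : Ω) {k : ℕ} (h0 : 0 < k)
    (hk : k < orderOf D.a) : (D.A * D.h x y t) *ᵥ (D.A ^ k *ᵥ y) = D.A ^ (k + 1) *ᵥ y +
      ((t⁻¹ - 1) * D.B (D.A ^ k *ᵥ y) y) • (D.A *ᵥ x) := by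
  rw [← mulVec_mulVec, h_mulVec, g.mid_yx h0 hk, mul_zero, zero_smul, add_zero, mulVec_add,
    mulVec_mulVec, ← pow_succ', mulVec_smul]

lemma Good.iter_x {σ : E →ₐ[ℚ] Ω} {x y : Fin m → Ω} (g : D.Good σ x y) (t : Ω) {k i : ℕ} (h0 : 0 < k)
    (hk : k + i ≤ orderOf D.a) :
    (D.A * D.h x y t) ^ i *ᵥ (D.A ^ k *ᵥ x) = D.A ^ (k + i) *ᵥ x := by
  induction i with
  | zero => simp
  | succ i ih =>
    rw [pow_succ', ← mulVec_mulVec, ih (by omega), g.step_x t (by omega) (by omega), add_assoc]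

/-- the span of `A x, ..., A ^ i x` -/
def spn (D : Dat Ω E m) (x : Fin m → Ω) (i : ℕ) : Submodule Ω (Fin m → Ω) :=
  Submodule.span Ω {z | ∃ j, 1 ≤ j ∧ j ≤ i ∧ z = D.A ^ j *ᵥ x}

lemma Good.iter_y {σ : E →ₐ[ℚ] Ω} {x y : Fin m → Ω} (g : D.Good σ x y) (t : Ω) {i : ℕ}
    (hi : i < orderOf D.a) :
    ∃ u ∈ spn D x i, (D.A * D.h x y t) ^ i *ᵥ (D.A *ᵥ y) = D.A ^ (i + 1) *ᵥ y + u := by
  induction i with
  | zero => exact ⟨0, Submodule.zero_mem _, by simp⟩
  | succ i ih =>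
    obtain ⟨u, hu, h⟩ := ih (by omega)
    rw [pow_succ', ← mulVec_mulVec, h, mulVec_add, g.step_y t (by omega) hi]
    refine ⟨((t⁻¹ - 1) * D.B (D.A ^ (i + 1) *ᵥ y) y) • (D.A *ᵥ x) + (D.A * D.h x y t) *ᵥ u, ?_, ?_⟩
    · apply Submodule.add_mem
      · apply Submodule.smul_mem
        apply Submodule.subset_span
        exact ⟨1, le_refl _, by omega, by rw [pow_one]⟩
      · clear h
        rw [spn] at hu
        induction hu using Submodule.span_induction with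
        | mem z hz =>
          obtain ⟨j, h1, h2, rfl⟩ := hz
          rw [g.step_x t (by omega) (by omega)]
          exact Submodule.subset_span ⟨j + 1, by omega, by omega, rfl⟩
        | zero => rw [mulVec_zero]; exact Submodule.zero_mem _
        | add a b _ _ ha hb => rw [mulVec_add]; exact Submodule.add_mem _ ha hb
        | smul c a _ ha => rw [mulVec_smul]; exact Submodule.smul_mem _ _ ha
    · rw [add_assoc]

lemma Good.spn_zero {σ : E →ₐ[ℚ] Ω} {x y : Fin m → Ω} (g : D.Good σ x y) {i : ℕ}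
    (hi : i < orderOf D.a) {u : Fin m → Ω} (hu : u ∈ spn D x i) :
    D.B (D.A ^ (orderOf D.a - 1 - i) *ᵥ u) x = 0 := by
  rw [spn] at hu
  induction hu using Submodule.span_induction with
  | mem z hz =>
    obtain ⟨j, h1, h2, rfl⟩ := hz
    rw [mulVec_mulVec, ← pow_add]
    exact g.mid _ (by omega) (by omega)
  | zero => rw [mulVec_zero, B_zero_left]
  | add a b _ _ ha hb => rw [mulVec_add, B_add_left, ha, hb, add_zero]
  | smul c a _ ha => rw [mulVec_smul, B_smul_left, ha, mul_zero]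

omit [CharZero Ω] in
lemma pow_tele (M N : Matrix (Fin m) (Fin m) Ω) (f : ℕ) :
    (M + N) ^ f = M ^ f + ∑ i ∈ Finset.range f, (M + N) ^ i * N * M ^ (f - 1 - i) := by
  induction f with
  | zero => simp
  | succ f ih =>
    rw [Finset.sum_range_succ, show f + 1 - 1 - f = 0 by omega, pow_zero, mul_one, pow_succ (M + N),
      mul_add, ← add_assoc]
    congr 1
    conv_lhs => rw [ih]
    rw [add_mul, ← pow_succ, Finset.sum_mul]
    congr 1
    refine Finset.sum_congr rfl fun i hi => ?_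
    rw [Finset.mem_range] at hi
    rw [mul_assoc _ _ M, ← pow_succ, show f - 1 - i + 1 = f + 1 - 1 - i by omega]

/-- **the trace formula** -/
theorem Good.trace {σ : E →ₐ[ℚ] Ω} {x y : Fin m → Ω} (g : D.Good σ x y) (t : Ω) :
    ((D.A * D.h x y t) ^ orderOf D.a).trace = (D.A ^ orderOf D.a).trace + orderOf D.a *
      ((t⁻¹ - 1) * D.B (D.A ^ orderOf D.a *ᵥ x) y +
        (t - 1) * D.B (D.A ^ orderOf D.a *ᵥ y) x) := by
  set f := orderOf D.a with hf
  have e : D.A * D.h x y t = D.A + ((t⁻¹ - 1) • (D.A * D.P x y) + (t - 1) • (D.A * D.P y x)) := by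
    rw [h, mul_add, mul_add, mul_one, mul_smul_comm, mul_smul_comm, add_assoc]
  have key := congrArg Matrix.trace (pow_tele D.A
    ((t⁻¹ - 1) • (D.A * D.P x y) + (t - 1) • (D.A * D.P y x)) f)
  rw [← e] at key
  rw [key, Matrix.trace_add, Matrix.trace_sum]
  congr 1
  have h1 : ∀ i ∈ Finset.range f, ((D.A * D.h x y t) ^ i *
      ((t⁻¹ - 1) • (D.A * D.P x y) + (t - 1) • (D.A * D.P y x)) * D.A ^ (f - 1 - i)).trace =
      (t⁻¹ - 1) * D.B (D.A ^ f *ᵥ x) y + (t - 1) * D.B (D.A ^ f *ᵥ y) x := by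
    intro i hi
    rw [Finset.mem_range] at hi
    rw [Matrix.trace_mul_comm, ← mul_assoc, mul_add, Matrix.trace_add, mul_smul_comm, mul_smul_comm,
      Matrix.trace_smul, Matrix.trace_smul, ← mul_assoc, ← mul_assoc, trace_P, trace_P, smul_eq_mul,
      smul_eq_mul]
    congr 2
    · rw [← mulVec_mulVec, ← mulVec_mulVec]
      have h2 := g.iter_x t (k := 1) (i := i) one_pos (by omega)
      rw [pow_one] at h2
      rw [h2, mulVec_mulVec, ← pow_add, show f - 1 - i + (1 + i) = f by omega]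
    · rw [← mulVec_mulVec, ← mulVec_mulVec]
      obtain ⟨u, hu, h2⟩ := g.iter_y t hi
      rw [h2, mulVec_add, B_add_left, g.spn_zero hi hu, add_zero, mulVec_mulVec, ← pow_add,
        show f - 1 - i + (i + 1) = f by omega]
  rw [Finset.sum_congr rfl h1, Finset.sum_const, Finset.card_range, nsmul_eq_mul]

/-- the trace is not constant -/
theorem Good.nonconst [IsAlgClosed Ω] {σ : E →ₐ[ℚ] Ω} {x y : Fin m → Ω} (g : D.Good σ x y)
    (hf : 0 < orderOf D.a) : ∃ s : Ω, s ≠ 0 ∧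
      ((D.A * (D.h x y s * D.h x y s)) ^ orderOf D.a).trace ≠ (D.A ^ orderOf D.a).trace := by
  by_contra hcon
  push Not at hcon
  have h1 : ∀ t : Ω, t ≠ 0 → (t⁻¹ - 1) * D.B (D.A ^ orderOf D.a *ᵥ x) y +
      (t - 1) * D.B (D.A ^ orderOf D.a *ᵥ y) x = 0 := by
    intro t ht
    obtain ⟨s, hs⟩ := IsAlgClosed.exists_pow_nat_eq t (n := 2) two_pos
    have hs0 : s ≠ 0 := by
      rintro rfl
      rw [zero_pow two_ne_zero] at hs
      exact ht hs.symm
    have h2 := hcon s hs0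
    rw [D.h_mul g.xx g.yy g.xy hs0, ← pow_two, hs, g.trace] at h2
    have h3 := left_eq_add.1 h2.symm
    rcases mul_eq_zero.1 h3 with h4 | h4
    · exact absurd h4 (by exact_mod_cast hf.ne')
    · exact h4
  have h2 := h1 (-1) (by norm_num)
  have h3 := h1 2 (by norm_num)
  apply g.last
  norm_num at h2 h3
  linear_combination (-(1 : Ω) / 3) * h2 - (2 / 3 : Ω) * h3

end Dat

end Pool.Agent.Zk8.KT
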