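import Pool.Agent.Zk8.KT.Alg2

/-!
# Existence of good pairs of vectors
-/

set_option autoImplicit false

namespace Pool.Agent.Zk8.KT

open Matrix Module

namespace Dat

variable {Ω : Type} [Field Ω] [CharZero Ω] [IsAlgClosed Ω] {E : Type} [Field E] [NumberField E]
  {m : ℕ} {D : Dat Ω E m}

/-- a quadratic form on a space of dimension at least two has a zero -/
lemma iso_of_two (W : Submodule Ω (Fin m → Ω)) (h2 : 2 ≤ finrank Ω W)
    (M : Matrix (Fin m) (Fin m) Ω) : ∃ x ∈ W, x ≠ 0 ∧ D.B (M *ᵥ x) x = 0 := by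
  obtain ⟨f, hf⟩ := exists_linearIndependent_of_le_finrank h2
  have hli := hf.map' W.subtype (Submodule.ker_subtype W)
  set u : Fin m → Ω := (f 0 : Fin m → Ω) with hu
  set v : Fin m → Ω := (f 1 : Fin m → Ω) with hv
  have hind : ∀ a b : Ω, a • u + b • v = 0 → a = 0 ∧ b = 0 := by
    intro a b hab
    have h := Fintype.linearIndependent_iff.1 hli ![a, b] (by
      rw [Fin.sum_univ_two]
      simpa using hab)
    exact ⟨by simpa using h 0, by simpa using h 1⟩
  by_cases h0 : D.B (M *ᵥ u) u = 0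
  · refine ⟨u, (f 0).2, ?_, h0⟩
    intro hz
    have := (hind 1 0 (by rw [hz]; simp)).1
    exact one_ne_zero this
  · set a := D.B (M *ᵥ u) u
    set b := D.B (M *ᵥ u) v + D.B (M *ᵥ v) u
    set c := D.B (M *ᵥ v) v
    obtain ⟨s, hs⟩ := IsAlgClosed.exists_root
      (Polynomial.C a * Polynomial.X ^ 2 + Polynomial.C b * Polynomial.X + Polynomial.C c) (by
        rw [Polynomial.degree_quadratic h0]
        norm_num)
    refine ⟨s • u + v, W.add_mem (W.smul_mem s (f 0).2) (f 1).2, ?_, ?_⟩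
    · intro hz
      have := (hind s 1 (by rw [one_smul]; exact hz)).2
      exact one_ne_zero this
    · rw [mulVec_add, mulVec_smul, B_add_left, B_add_right, B_add_right, B_smul_left, B_smul_left,
        B_smul_right, B_smul_right]
      rw [Polynomial.IsRoot.def] at hs
      simp only [Polynomial.eval_add, Polynomial.eval_mul, Polynomial.eval_C, Polynomial.eval_pow,
        Polynomial.eval_X] at hs
      rw [← hs]
      ring

/-- two nonzero vectors of an eigenspace: a vector of the opposite one which pairs with both -/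
lemma exists_both {σ : E →ₐ[ℚ] Ω} {x z : Fin m → Ω} (hx : x ∈ D.T σ) (hx0 : x ≠ 0)
    (hz : z ∈ D.T σ) (hz0 : z ≠ 0) :
    ∃ y ∈ D.T (σ.comp D.conj.toAlgHom), D.B x y = 1 ∧ D.B z y ≠ 0 := by
  obtain ⟨y1, h1, h1'⟩ := D.exists_pair hx hx0
  obtain ⟨y2, h2, h2'⟩ := D.exists_pair hz hz0
  obtain ⟨y, hy, ha, hb⟩ : ∃ y ∈ D.T (σ.comp D.conj.toAlgHom), D.B x y ≠ 0 ∧ D.B z y ≠ 0 := by
    by_cases ha : D.B z y1 = 0
    · by_cases hb : D.B x y2 = 0
      · refine ⟨y1 + y2, Submodule.add_mem _ h1 h2, ?_, ?_⟩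
        · rw [B_add_right, hb, add_zero]; exact h1'
        · rw [B_add_right, ha, zero_add]; exact h2'
      · exact ⟨y2, h2, hb, h2'⟩
    · exact ⟨y1, h1, h1', ha⟩
  refine ⟨(D.B x y)⁻¹ • y, Submodule.smul_mem _ _ hy, ?_, ?_⟩
  · rw [B_smul_right, inv_mul_cancel₀ ha]
  · rw [B_smul_right]
    exact mul_ne_zero (inv_ne_zero ha) hb

omit [IsAlgClosed Ω] in
lemma self_zero (hc : D.conj ≠ 1) {σ : E →ₐ[ℚ] Ω} {x : Fin m → Ω} (hx : x ∈ D.T σ) :
    D.B x x = 0 := by
  by_contra h
  apply hc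
  ext e
  have h1 := D.pair hx hx h e
  exact (σ.toRingHom.injective h1).symm

omit [IsAlgClosed Ω] in
lemma T_one {σ : E →ₐ[ℚ] Ω} {x : Fin m → Ω} (hx : x ∈ D.T σ) :
    D.A ^ orderOf D.a *ᵥ x ∈ D.T σ := by
  have h := D.pow_T hx (orderOf D.a)
  rw [inv_pow, pow_orderOf_eq_one, inv_one] at h
  exact h

omit [IsAlgClosed Ω] in
lemma mid_auto {σ : E →ₐ[ℚ] Ω} {x : Fin m → Ω} (hx : x ∈ D.T σ) {k : ℕ}
    (h : D.B (D.A ^ k *ᵥ x) x ≠ 0) : D.a ^ k = D.conj := by
  have h1 := D.pair (D.pow_T hx k) hx h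
  have h2 : (D.a⁻¹ : E ≃ₐ[ℚ] E) ^ k = D.conj := by
    ext e
    exact σ.toRingHom.injective (h1 e)
  have h3 : D.conj * D.conj = 1 := by
    ext e
    exact D.conj_conj e
  have h4 : D.conj⁻¹ = D.conj := inv_eq_of_mul_eq_one_right h3
  rw [← h4, ← h2, inv_pow, inv_inv]

/-- **CM case** -/
lemma good_cm (hc : D.conj ≠ 1) (h : D.n ≠ 1 ∨ D.conj ∉ Subgroup.zpowers D.a)
    (σ : E →ₐ[ℚ] Ω) : ∃ x y, D.Good σ x y := by
  obtain ⟨x, hx, hx0, hmid⟩ : ∃ x ∈ D.T σ, x ≠ 0 ∧
      ∀ k, 0 < k → k < orderOf D.a → D.B (D.A ^ k *ᵥ x) x = 0 := by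
    by_cases hz : ∃ k, 0 < k ∧ k < orderOf D.a ∧ D.a ^ k = D.conj
    · obtain ⟨k0, h0, hk0, hk⟩ := hz
      have hn : 2 ≤ D.n := by
        rcases h with h | h
        · have := D.npos; omega
        · exact absurd (hk ▸ Subgroup.npow_mem_zpowers D.a k0) h
      obtain ⟨x, hx, hx0, hxx⟩ := iso_of_two (D := D) (D.T σ) (by rw [D.finrank_T]; exact hn)
        (D.A ^ k0)
      refine ⟨x, hx, hx0, fun k h1 h2 => ?_⟩
      by_contra hne
      have h3 := mid_auto hx hne
      have h4 : k = k0 := by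
        rw [← hk] at h3
        exact pow_injOn_Iio_orderOf h2 hk0 h3
      rw [h4] at hne
      exact hne hxx
    · have hn := D.npos
      obtain ⟨f, hf⟩ := exists_linearIndependent_of_le_finrank (R := Ω) (M := D.T σ) (n := 1)
        (by rw [D.finrank_T]; exact hn)
      refine ⟨f 0, (f 0).2, ?_, fun k h1 h2 => ?_⟩
      · intro hz
        exact hf.ne_zero 0 (Subtype.ext hz)
      · by_contra hne
        exact hz ⟨k, h1, h2, mid_auto (f 0).2 hne⟩
  obtain ⟨y, hy, hxy, hl⟩ := exists_both hx hx0 (T_one hx) (D.A_inj hx0 _)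
  refine ⟨x, y, hx, hy, self_zero hc hx, self_zero hc hy, hxy, hmid, hl⟩

/-- **totally real case** -/
lemma good_real (hc : D.conj = 1) (hn : 3 ≤ D.n) (σ : E →ₐ[ℚ] Ω) : ∃ x y, D.Good σ x y := by
  have hσ : σ.comp D.conj.toAlgHom = σ := by rw [hc]; rfl
  obtain ⟨x, hx, hx0, hxx⟩ := iso_of_two (D := D) (D.T σ) (by rw [D.finrank_T]; omega) 1
  rw [one_mulVec] at hxx
  have hmid : ∀ k, 0 < k → k < orderOf D.a → D.B (D.A ^ k *ᵥ x) x = 0 := by
    intro k h1 h2
    by_contra hne
    have h3 := mid_auto hx hne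
    rw [hc] at h3
    exact absurd (orderOf_dvd_of_pow_eq_one h3) (Nat.not_dvd_of_pos_of_lt h1 h2)
  obtain ⟨y1, hy1, h1⟩ := D.exists_pair hx hx0
  rw [hσ] at hy1
  -- an isotropic partner
  obtain ⟨y0, hy0, hxy0, hyy0⟩ : ∃ y ∈ D.T σ, D.B x y = 1 ∧ D.B y y = 0 := by
    obtain ⟨y2, hy2, h2⟩ : ∃ y ∈ D.T σ, D.B x y = 1 :=
      ⟨(D.B x y1)⁻¹ • y1, Submodule.smul_mem _ _ hy1, by rw [B_smul_right, inv_mul_cancel₀ h1]⟩
    have h2' : D.B y2 x = 1 := by rw [B_comm, h2]
    refine ⟨y2 + (-(D.B y2 y2) / 2) • x, Submodule.add_mem _ hy2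
      (Submodule.smul_mem _ _ hx), ?_, ?_⟩
    · rw [B_add_right, B_smul_right, hxx, mul_zero, add_zero, h2]
    · rw [B_add_right, B_add_left, B_add_left, B_smul_right, B_smul_right, B_smul_left, B_smul_left,
        hxx, h2, h2']
      ring
  have hy0x : D.B y0 x = 1 := by rw [B_comm, hxy0]
  set S := D.A ^ orderOf D.a *ᵥ x with hS
  have hST : S ∈ D.T σ := T_one hx
  have hS0 : S ≠ 0 := D.A_inj hx0 _
  -- the projection to the orthogonal complement of the plane
  let pj : (Fin m → Ω) → (Fin m → Ω) := fun z => z - (D.B z y0) • x - (D.B z x) • y0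
  have hneg : ∀ z w, D.B (-z) w = - D.B z w := by
    intro z w
    have := D.B_smul_left (-1) z w
    simpa using this
  have hneg' : ∀ z w, D.B z (-w) = - D.B z w := by
    intro z w
    have := D.B_smul_right (-1) z w
    simpa using this
  have pj_T : ∀ z ∈ D.T σ, pj z ∈ D.T σ := fun z hz =>
    Submodule.sub_mem _ (Submodule.sub_mem _ hz (Submodule.smul_mem _ _ hx))
      (Submodule.smul_mem _ _ hy0)
  have pj_x : ∀ z, D.B (pj z) x = 0 := by
    intro z
    simp only [pj, sub_eq_add_neg, B_add_left, hneg, B_smul_left, hxx, hy0x]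
    ring
  have pj_y : ∀ z, D.B (pj z) y0 = 0 := by
    intro z
    simp only [pj, sub_eq_add_neg, B_add_left, hneg, B_smul_left, hyy0, hxy0]
    ring
  by_contra hcon
  push Not at hcon
  -- for every w in the complement
  have main : ∀ w ∈ D.T σ, D.B w x = 0 → D.B w y0 = 0 →
      D.B S y0 + D.B S w - D.B w w / 2 * D.B S x = 0 := by
    intro w hw h1 h2
    have h1' : D.B x w = 0 := by rw [B_comm, h1]
    have h2' : D.B y0 w = 0 := by rw [B_comm, h2]
    by_contra hne
    apply hcon x (y0 + w + (-(D.B w w) / 2) • x)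
    refine ⟨hx, ?_, hxx, ?_, ?_, hmid, ?_⟩
    · rw [hσ]
      exact Submodule.add_mem _ (Submodule.add_mem _ hy0 hw) (Submodule.smul_mem _ _ hx)
    · simp only [B_add_left, B_add_right, B_smul_left, B_smul_right, hxx, hyy0, hxy0, hy0x, h1, h2,
        h1', h2']
      ring
    · simp only [B_add_right, B_smul_right, hxx, hxy0, h1']
      ring
    · intro h
      apply hne
      simp only [B_add_right, B_smul_right] at h
      rw [← h]
      ring
  have hA : D.B S y0 = 0 := by
    have := main 0 (Submodule.zero_mem _) (D.B_zero_left _) (D.B_zero_left _)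
    rw [B_zero_right, B_zero_left] at this
    linear_combination this
  have hB : ∀ w ∈ D.T σ, D.B w x = 0 → D.B w y0 = 0 → D.B S w = 0 ∧ D.B w w * D.B S x = 0 := by
    intro w hw h1 h2
    have e1 := main w hw h1 h2
    have e2 := main (-w) (Submodule.neg_mem _ hw) (by rw [hneg, h1, neg_zero])
      (by rw [hneg, h2, neg_zero])
    rw [hneg', hneg, hneg', neg_neg] at e2
    rw [hA] at e1 e2
    constructor
    · linear_combination (e1 - e2) / 2
    · linear_combination -(e1 + e2)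
  -- an anisotropic vector
  obtain ⟨w, hw, hw1, hw2, hww⟩ : ∃ w ∈ D.T σ, D.B w x = 0 ∧ D.B w y0 = 0 ∧ D.B w w ≠ 0 := by
    obtain ⟨z, hz, hz0⟩ : ∃ z ∈ D.T σ, pj z ≠ 0 := by
      by_contra hall
      push Not at hall
      have hle : D.T σ ≤ Submodule.span Ω {x, y0} := by
        intro z hz
        have h := hall z hz
        have e : z = (D.B z y0) • x + (D.B z x) • y0 := by
          have h' : z - (D.B z y0) • x - (D.B z x) • y0 = 0 := h
          rw [sub_sub, sub_eq_zero] at h'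
          exact h'
        rw [e]
        exact Submodule.add_mem _ (Submodule.smul_mem _ _ (Submodule.subset_span (by simp)))
          (Submodule.smul_mem _ _ (Submodule.subset_span (by simp)))
      have h3 := Submodule.finrank_mono hle
      rw [D.finrank_T] at h3
      have h4 : finrank Ω (Submodule.span Ω {x, y0}) ≤ 2 := by
        classical
        have h5 := finrank_span_finset_le_card (R := Ω) ({x, y0} : Finset (Fin m → Ω))
        rw [Finset.coe_pair] at h5
        exact h5.trans Finset.card_le_two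
      omega
    obtain ⟨u, hu, hpu⟩ := D.exists_pair (pj_T z hz) hz0
    rw [hσ] at hu
    have hzu : D.B (pj z) (pj u) = D.B (pj z) u := by
      have e : pj u = u + (-(D.B u y0)) • x + (-(D.B u x)) • y0 := by
        simp only [pj, neg_smul, sub_eq_add_neg]
      rw [e]
      simp only [B_add_right, B_smul_right, pj_x, pj_y]
      ring
    by_cases ha : D.B (pj z) (pj z) = 0
    · by_cases hb : D.B (pj u) (pj u) = 0
      · refine ⟨pj z + pj u, Submodule.add_mem _ (pj_T z hz) (pj_T u hu), ?_, ?_, ?_⟩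
        · rw [B_add_left, pj_x, pj_x, add_zero]
        · rw [B_add_left, pj_y, pj_y, add_zero]
        · rw [B_add_left, B_add_right, B_add_right, ha, hb, D.B_comm (pj u) (pj z), hzu]
          intro h
          apply hpu
          linear_combination h / 2
      · exact ⟨pj u, pj_T u hu, pj_x u, pj_y u, hb⟩
    · exact ⟨pj z, pj_T z hz, pj_x z, pj_y z, ha⟩
  have hSx : D.B S x = 0 := (mul_eq_zero.1 (hB w hw hw1 hw2).2).resolve_left hww
  -- S is orthogonal to everything in T
  obtain ⟨u, hu, hpu⟩ := D.exists_pair hST hS0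
  rw [hσ] at hu
  apply hpu
  have e : u = pj u + (D.B u y0) • x + (D.B u x) • y0 := by
    simp only [pj]
    abel
  rw [e]
  simp only [B_add_right, B_smul_right, hSx, hA, (hB _ (pj_T u hu) (pj_x u) (pj_y u)).1]
  ring

/-- **The trace of the `f`-th power is not constant**, `f` the order of the automorphism of `E`. -/
theorem exists_ne (hr : D.conj = 1 → 3 ≤ D.n)
    (h : ¬ (D.n = 1 ∧ D.conj ∈ Subgroup.zpowers D.a)) :
    ∃ M : Matrix (Fin m) (Fin m) Ω, (∀ e, M * D.act e = D.act e * M) ∧ Mᵀ * D.ψ * M = D.ψ ∧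
      ((D.A * (M * M)) ^ orderOf D.a).trace ≠ (D.A ^ orderOf D.a).trace := by
  have σ : E →ₐ[ℚ] Ω := IsAlgClosed.lift
  obtain ⟨x, y, g⟩ : ∃ x y, D.Good σ x y := by
    by_cases hc : D.conj = 1
    · exact good_real hc (hr hc) σ
    · refine good_cm hc ?_ σ
      by_contra hcon
      push Not at hcon
      exact h hcon
  have hf : 0 < orderOf D.a := orderOf_pos_iff.2 (isOfFinOrder_of_finite _)
  obtain ⟨s, hs, hne⟩ := g.nonconst hf
  exact ⟨D.h x y s, g.comm s, D.h_iso g.xx g.yy g.xy hs, hne⟩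

/-- **The exceptional case**: if `E` is a CM field, `dim_E T = 1` and complex conjugation is a power of
the automorphism of `E` of order `f`, then the `f`-th power of the semilinear isometry is `1`. -/
theorem pow_eq_one (hn : D.n = 1) (hc : D.conj ≠ 1) (h : D.conj ∈ Subgroup.zpowers D.a) :
    D.A ^ orderOf D.a = 1 := by
  have hfin : IsOfFinOrder D.a := isOfFinOrder_of_finite _
  obtain ⟨k0, hk0⟩ := (hfin.mem_powers_iff_mem_zpowers).2 h
  simp only at hk0
  set k := k0 % orderOf D.a with hk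
  have hak : D.a ^ k = D.conj := by rw [hk, pow_mod_orderOf, hk0]
  have h3 : D.conj * D.conj = 1 := by
    ext e
    exact D.conj_conj e
  have hk1 : 0 < k := by
    rcases Nat.eq_zero_or_pos k with h0 | h0
    · rw [h0, pow_zero] at hak
      exact absurd hak.symm hc
    · exact h0
  have hk2 : k < orderOf D.a := Nat.mod_lt _ hfin.orderOf_pos
  have hk3 : k + k = orderOf D.a := by
    have h4 : D.a ^ (k + k) = 1 := by rw [pow_add, hak, h3]
    obtain ⟨c, hc⟩ := orderOf_dvd_of_pow_eq_one h4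
    have hc0 : 0 < c := by
      rcases Nat.eq_zero_or_pos c with h0 | h0
      · rw [h0] at hc; omega
      · exact h0
    have hc1 : c < 2 := by
      by_contra h5
      have h6 : orderOf D.a * 2 ≤ orderOf D.a * c := Nat.mul_le_mul_left _ (by omega)
      omega
    have : c = 1 := by omega
    rw [this, mul_one] at hc
    exact hc
  -- on the eigenspaces
  have key : ∀ (σ : E →ₐ[ℚ] Ω) (x : Fin m → Ω), x ∈ D.T σ → D.A ^ orderOf D.a *ᵥ x = x := by
    intro σ x hx
    by_cases hx0 : x = 0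
    · rw [hx0, mulVec_zero]
    -- the eigenspaces are lines
    have hline : ∀ (τ : E →ₐ[ℚ] Ω) (z w : Fin m → Ω), z ∈ D.T τ → z ≠ 0 → w ∈ D.T τ →
        ∃ c : Ω, w = c • z := by
      intro τ z w hz hz0 hw
      have h1 : finrank Ω (D.T τ) = 1 := by rw [D.finrank_T, hn]
      obtain ⟨c, hc⟩ := exists_smul_eq_of_finrank_eq_one h1
        (x := (⟨z, hz⟩ : D.T τ)) (fun h => hz0 (congrArg Subtype.val h)) ⟨w, hw⟩
      exact ⟨c, (congrArg Subtype.val hc).symm⟩
    obtain ⟨c, hc'⟩ := hline σ x _ hx hx0 (T_one hx)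
    -- `A ^ k x` is in the opposite eigenspace
    have hJ : D.A ^ k *ᵥ x ∈ D.T (σ.comp D.conj.toAlgHom) := by
      have h1 := D.pow_T hx k
      have h2 : (D.a⁻¹ : E ≃ₐ[ℚ] E) ^ k = D.conj := by
        rw [inv_pow, hak]
        exact inv_eq_of_mul_eq_one_right h3
      rw [h2] at h1
      exact h1
    have hJ0 := D.A_inj hx0 k
    obtain ⟨y, hy, hxy⟩ := D.exists_pair hx hx0
    obtain ⟨b, hb⟩ := hline _ _ y hJ hJ0 hy
    have hne : D.B x (D.A ^ k *ᵥ x) ≠ 0 := by
      intro h0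
      apply hxy
      rw [hb, B_smul_right, h0, mul_zero]
    have h5 := D.B_pow k x (D.A ^ k *ᵥ x)
    rw [mulVec_mulVec, ← pow_add, hk3, hc', B_smul_right, D.B_comm (D.A ^ k *ᵥ x) x] at h5
    have h6 : c = 1 := by
      have h7 : (c - 1) * D.B x (D.A ^ k *ᵥ x) = 0 := by rw [sub_mul, h5, one_mul, sub_self]
      exact sub_eq_zero.1 ((mul_eq_zero.1 h7).resolve_right hne)
    rw [hc', h6, one_smul]
  apply ext_mulVec
  intro z
  have h := congrArg (fun M => M *ᵥ z) D.sum_pr
  simp only [Matrix.sum_mulVec, one_mulVec] at h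
  rw [one_mulVec]
  conv_lhs => rw [← h]
  conv_rhs => rw [← h]
  rw [Matrix.mulVec_sum]
  exact Finset.sum_congr rfl fun σ _ => key σ _ (D.pr_mem σ z)

end Dat

end Pool.Agent.Zk8.KT
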