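import Pool.Agent.Zk8.KT.Hgt

/-!
# The distribution of the heights
-/

set_option autoImplicit false
set_option linter.all false

namespace Pool.Agent.Zk8.KT

open Module NumberField IsDedekindDomain Topology Filter
open Pool.Agent.W401.Cheb Pool.Agent.N184.HK Pool.Agent.W528.Ord

variable {K : Type} [Field K] [NumberField K]

lemma dens_sandwich {P Q E : HeightOneSpectrum (𝓞 K) → Prop} {c : ℝ}
    (hQ : Tendsto (dens Q) atTop (𝓝 c)) (hE : Tendsto (dens E) atTop (𝓝 0))
    (h1 : ∀ v, P v → Q v ∨ E v) (h2 : ∀ v, Q v → P v ∨ E v) : Tendsto (dens P) atTop (𝓝 c) := by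
  have hlo : Tendsto (fun N => dens Q N - dens E N) atTop (𝓝 c) := by
    simpa using hQ.sub hE
  have hup : Tendsto (fun N => dens Q N + dens E N) atTop (𝓝 c) := by
    simpa using hQ.add hE
  refine tendsto_of_tendsto_of_tendsto_of_le_of_le hlo hup (fun N => ?_) (fun N => ?_)
  · have := (dens_mono h2 N).trans (dens_or P E N)
    simp only
    linarith
  · exact (dens_mono h1 N).trans (dens_or Q E N)

lemma dens_zero_or {P Q : HeightOneSpectrum (𝓞 K) → Prop} (hP : Tendsto (dens P) atTop (𝓝 0))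
    (hQ : Tendsto (dens Q) atTop (𝓝 0)) : Tendsto (dens fun v => P v ∨ Q v) atTop (𝓝 0) := by
  have h : Tendsto (fun N => dens P N + dens Q N) atTop (𝓝 0) := by
    simpa using hP.add hQ
  exact squeeze_zero (fun N => dens_nonneg _ _) (fun N => dens_or P Q N) h

lemma dens_zero_exists {ι : Type} [Finite ι] (P : ι → HeightOneSpectrum (𝓞 K) → Prop)
    (hP : ∀ i, Tendsto (dens (P i)) atTop (𝓝 0)) :
    Tendsto (dens fun v => ∃ i, P i v) atTop (𝓝 0) := by
  classical
  haveI := Fintype.ofFinite ι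
  have key : ∀ s : Finset ι, Tendsto (dens fun v => ∃ i ∈ s, P i v) atTop (𝓝 0) := by
    intro s
    induction s using Finset.induction_on with
    | empty =>
      have e : (dens fun v : HeightOneSpectrum (𝓞 K) => ∃ i ∈ (∅ : Finset ι), P i v) = fun _ => 0 := by
        funext N
        unfold dens
        have : Nat.card {v : HeightOneSpectrum (𝓞 K) // Ideal.absNorm v.asIdeal ≤ N ∧
            ∃ i ∈ (∅ : Finset ι), P i v} = 0 := by
          rw [Nat.card_eq_zero]
          left
          constructor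
          rintro ⟨v, -, i, hi, -⟩
          simp at hi
        rw [this]
        simp
      rw [e]
      exact tendsto_const_nhds
    | insert a s ha ih =>
      have h := dens_zero_or (hP a) ih
      refine squeeze_zero (fun N => dens_nonneg _ _) (fun N => dens_mono ?_ N) h
      rintro v ⟨i, hi, hv⟩
      rw [Finset.mem_insert] at hi
      rcases hi with rfl | hi
      · exact Or.inl hv
      · exact Or.inr ⟨i, hi, hv⟩
  refine squeeze_zero (fun N => dens_nonneg _ _) (fun N => dens_mono ?_ N) (key Finset.univ)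
  rintro v ⟨i, hi⟩
  exact ⟨i, Finset.mem_univ i, hi⟩

section one

variable {ℓ : ℕ} [Fact ℓ.Prime] {X : Hyperkaehler K ℓ} (D : Transcendental X)

/-- the exceptional places -/
def Ex (v : HeightOneSpectrum (𝓞 K)) : Prop :=
  (∃ σ : GK K, (¬ exc D (D.c σ) ∧ ((D.τ σ) ^ orderOf (D.c σ)).trace ∈ badTr D) ∧ IsFrob v σ) ∨
    (¬ (Ideal.absNorm v.asIdeal).Prime ∨ v ∈ X.bad)

lemma dens_Ex : Tendsto (dens (Ex D)) atTop (𝓝 0) :=
  dens_zero_or (dens_bad D _ (badTr_finite D))
    (dens_zero_or dens_not_prime (dens_finite (fun v => v ∈ X.bad) X.finite))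

lemma of_not_Ex {v : HeightOneSpectrum (𝓞 K)} (h : ¬ Ex D v) :
    ∃ (_ : (Ideal.absNorm v.asIdeal).Prime) (hv : v ∉ X.bad), ∀ σ, IsFrob v σ →
      height X v hv = D.generic (D.c σ) := by
  rw [Ex, not_or, not_or, not_not] at h
  refine ⟨h.2.1, h.2.2, fun σ hσ => ?_⟩
  by_contra hne
  exact h.1 ⟨σ, height_bad h.2.2 D hσ h.2.1 hne, hσ⟩

lemma generic_eq_one_iff (a : D.E ≃ₐ[ℚ] D.E) : D.generic a = 1 ↔ a = 1 := by
  by_cases h : exc D a
  · rw [generic_of_exc D h]
    constructor
    · intro h1; exact absurd h1 (by norm_num)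
    · rintro rfl
      obtain ⟨h1, h2⟩ := h
      rw [Subgroup.zpowers_one_eq_bot, Subgroup.mem_bot] at h2
      have := D.real h2
      omega
  · rw [generic_of_not_exc D h, orderOf_eq_one_iff]

end one

section family

variable {ι : Type} {ℓ : ι → ℕ} [∀ i, Fact (ℓ i).Prime] {X : ∀ i, Hyperkaehler K (ℓ i)}
  (D : ∀ i, Transcendental (X i))

/-- The action of the Galois group on the endomorphism fields: its kernel is the Galois group of the
compositum `L` of the fields of definition of the endomorphisms, its image is `Gal(L / K)`. -/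
noncomputable def joint : GK K →* ∀ i, ((D i).E ≃ₐ[ℚ] (D i).E) :=
  Pi.monoidHom fun i => (D i).c

variable [Finite ι]

lemma joint_open : IsOpen ((joint D).ker : Set (GK K)) := by
  have e : ((joint D).ker : Set (GK K)) = ⋂ i, ((D i).c.ker : Set (GK K)) := by
    ext g
    simp only [SetLike.mem_coe, MonoidHom.mem_ker, Set.mem_iInter]
    exact funext_iff
  rw [e]
  exact isOpen_iInter_of_finite fun i => ker_open (D i)

/-- Chebotarev for the extension `L / K` -/
theorem dens_joint (S : Set (∀ i, ((D i).E ≃ₐ[ℚ] (D i).E))) (hS : ∀ a ∈ S, ∀ b, b * a * b⁻¹ ∈ S) :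
    Tendsto (dens fun v : HeightOneSpectrum (𝓞 K) => ∃ σ : GK K, joint D σ ∈ S ∧ IsFrob v σ) atTop
      (𝓝 ((Nat.card {g : (joint D).range // (g : ∀ i, ((D i).E ≃ₐ[ℚ] (D i).E)) ∈ S} : ℝ) /
        (Nat.card (joint D).range : ℝ))) := by
  classical
  have h := chebK K (joint D).ker (joint_open D) {σ | joint D σ ∈ S} ?_ ?_
  · have e1 : Nat.card (GK K ⧸ (joint D).ker) = Nat.card (joint D).range :=
      Nat.card_congr (QuotientGroup.quotientKerEquivRange (joint D)).toEquiv
    have e2 : ((QuotientGroup.mk : GK K → GK K ⧸ (joint D).ker) '' {σ | joint D σ ∈ S}).ncard =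
        Nat.card {g : (joint D).range // (g : ∀ i, ((D i).E ≃ₐ[ℚ] (D i).E)) ∈ S} := by
      rw [← Nat.card_coe_set_eq]
      refine Nat.card_congr ((QuotientGroup.quotientKerEquivRange (joint D)).toEquiv.subtypeEquiv ?_)
      intro q
      obtain ⟨g, rfl⟩ := QuotientGroup.mk_surjective q
      constructor
      · rintro ⟨x, hx, hxg⟩
        have h1 := congrArg (QuotientGroup.quotientKerEquivRange (joint D)) hxg
        have h2 : joint D x = joint D g := congrArg Subtype.val h1
        change joint D g ∈ S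
        rw [← h2]
        exact hx
      · intro hg
        exact ⟨g, hg, rfl⟩
    rw [e1, e2] at h
    exact h
  · intro σ hσ τ
    change joint D (τ * σ * τ⁻¹) ∈ S
    rw [map_mul, map_mul, map_inv]
    exact hS _ hσ _
  · intro σ hσ u hu
    change joint D (σ * u) ∈ S
    rw [map_mul, MonoidHom.mem_ker.1 hu, mul_one]
    exact hσ

lemma dens_ExF : Tendsto (dens fun v => ∃ i, Ex (D i) v) atTop (𝓝 0) :=
  dens_zero_exists _ fun i => dens_Ex (D i)

/-- almost all heights are generic -/
theorem dens_exception : Tendsto (dens fun v => ∃ (i : ι) (hv : v ∉ (X i).bad) (σ : GK K),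
    IsFrob v σ ∧ height (X i) v hv ≠ (D i).generic ((D i).c σ)) atTop (𝓝 0) := by
  refine squeeze_zero (fun N => dens_nonneg _ _) (fun N => dens_mono ?_ N) (dens_ExF D)
  rintro v ⟨i, hv, σ, hσ, hne⟩
  by_contra hE
  push Not at hE
  obtain ⟨_, hv', h⟩ := of_not_Ex (D i) (hE i)
  exact hne (h σ hσ)

/-- the density of every family of heights -/
theorem dens_height (h : ι → ℕ) :
    Tendsto (dens fun v => ∀ i, ∃ hv : v ∉ (X i).bad, height (X i) v hv = h i) atTop
    (𝓝 ((Nat.card {g : (joint D).range // ∀ i, (D i).generic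
      ((g : ∀ i, ((D i).E ≃ₐ[ℚ] (D i).E)) i) = h i} : ℝ) / (Nat.card (joint D).range : ℝ))) := by
  have h1 := dens_joint D {a | ∀ i, (D i).generic (a i) = h i} (by
    intro a ha b i
    change (D i).generic (b i * a i * (b i)⁻¹) = h i
    rw [generic_conj]
    exact ha i)
  refine dens_sandwich h1 (dens_ExF D) ?_ ?_
  · intro v hh
    by_cases hE : ∃ i, Ex (D i) v
    · exact Or.inr hE
    · push Not at hE
      obtain ⟨σ, hσ⟩ := exists_isFrob v
      refine Or.inl ⟨σ, fun i => ?_, hσ⟩
      obtain ⟨hv, hi⟩ := hh i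
      obtain ⟨_, hv', hgen⟩ := of_not_Ex (D i) (hE i)
      exact (hgen σ hσ).symm.trans hi
  · rintro v ⟨σ, hg, hσ⟩
    by_cases hE : ∃ i, Ex (D i) v
    · exact Or.inr hE
    · push Not at hE
      refine Or.inl fun i => ?_
      obtain ⟨_, hv', hgen⟩ := of_not_Ex (D i) (hE i)
      exact ⟨hv', (hgen σ hσ).trans (hg i)⟩

/-- the density of the ordinary places -/
theorem dens_ordinary : Tendsto (dens fun v => ∀ i, ∃ hv : v ∉ (X i).bad,
    ∀ k ≤ (X i).d, (X i).OrdinaryIn v hv k) atTop (𝓝 (1 / (Nat.card (joint D).range : ℝ))) := by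
  have h1 := dens_height D fun _ => 1
  have e : Nat.card {g : (joint D).range // ∀ i, (D i).generic
      ((g : ∀ i, ((D i).E ≃ₐ[ℚ] (D i).E)) i) = 1} = 1 := by
    rw [Nat.card_eq_one_iff_unique]
    constructor
    · constructor
      rintro ⟨⟨x, hx⟩, h1⟩ ⟨⟨y, hy⟩, h2⟩
      have h3 : x = y := by
        funext i
        exact ((generic_eq_one_iff (D i) _).1 (h1 i)).trans ((generic_eq_one_iff (D i) _).1 (h2 i)).symm
      subst h3
      rfl
    · exact ⟨⟨1, fun i => (generic_eq_one_iff (D i) _).2 rfl⟩⟩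
  rw [e, Nat.cast_one] at h1
  refine dens_sandwich h1 (dens_ExF D) ?_ ?_
  · intro v ho
    by_cases hE : ∃ i, Ex (D i) v
    · exact Or.inr hE
    · push Not at hE
      refine Or.inl fun i => ?_
      obtain ⟨hv, hi⟩ := ho i
      obtain ⟨hp, _, _⟩ := of_not_Ex (D i) (hE i)
      exact ⟨hv, (ordinary_iff_height hv hp).1 ((ordinary_iff (X i) hv).2 hi)⟩
  · intro v hh
    by_cases hE : ∃ i, Ex (D i) v
    · exact Or.inr hE
    · push Not at hE
      refine Or.inl fun i => ?_
      obtain ⟨hv, hi⟩ := hh i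
      obtain ⟨hp, _, _⟩ := of_not_Ex (D i) (hE i)
      exact ⟨hv, (ordinary_iff (X i) hv).1 ((ordinary_iff_height hv hp).2 hi)⟩

end family

end Pool.Agent.Zk8.KT
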