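import Pool.Agent.Zk8.KT.Stmt
import Pool.Agent.Zk8.KT.Final

/-!
# The statement and the proof
-/

set_option autoImplicit false
set_option linter.all false

namespace Pool.Agent.Zk8.KT

open Module NumberField IsDedekindDomain Topology Filter
open Pool.Agent.W401.Cheb Pool.Agent.N184.HK Pool.Agent.W528.Ord

section

variable {ℓ : ℕ} [Fact ℓ.Prime] {m : ℕ} (F : EndField ℓ m)

/-- the action as a homomorphism of rings -/
noncomputable def EndField.actHom : F.E →+* Matrix (Fin m) (Fin m) ℚ_[ℓ] where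
  toFun := F.act
  map_one' := F.act_one
  map_mul' := F.act_mul
  map_add' := F.act_add
  map_zero' := by
    have h := F.act_add 0 0
    rw [add_zero] at h
    exact left_eq_add.1 h

/-- automorphisms of the field are linear over the rational numbers -/
noncomputable def EndField.toGal : F.Aut ≃* (F.E ≃ₐ[ℚ] F.E) where
  toFun g := AlgEquiv.ofRingEquiv (f := (show F.E ≃+* F.E from g)) fun r => by
    exact map_ratCast (show F.E ≃+* F.E from g) r
  invFun g := (g : F.E ≃+* F.E)
  left_inv g := rfl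
  right_inv g := rfl
  map_mul' g h := rfl

lemma EndField.toGal_apply (g : F.Aut) (e : F.E) : F.toGal g e = F.ap g e := rfl

end

section

variable {K : Type} [Field K] [NumberField K] {ℓ : ℕ} [Fact ℓ.Prime] {X : Hyperkaehler K ℓ}
  (D : Transc X)

lemma Transc.mat_mul (σ σ' : GK K) : mat X.R D.basis (σ * σ') = mat X.R D.basis σ * mat X.R D.basis σ' := by
  rw [mat, mat, mat, map_mul, LinearMap.toMatrix_mul]

lemma Transc.mat_one : mat X.R D.basis 1 = 1 := by
  rw [mat, map_one, LinearMap.toMatrix_one]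

lemma intMap_inj {n : ℕ} {A B : Matrix (Fin n) (Fin n) ℤ}
    (h : A.map (Int.cast : ℤ → ℚ_[ℓ]) = B.map (Int.cast : ℤ → ℚ_[ℓ])) : A = B :=
  Matrix.map_injective Int.cast_injective h

/-- the matrices of the algebraic classes -/
noncomputable def Transc.NSHom : GK K →* Matrix (Fin D.ρ) (Fin D.ρ) ℤ where
  toFun := D.NS
  map_one' := by
    apply intMap_inj (ℓ := ℓ)
    have h := D.decomp 1
    rw [D.mat_one, ← Matrix.fromBlocks_one] at h
    rw [← (Matrix.fromBlocks_inj.1 h).1, Matrix.map_one _ Int.cast_zero Int.cast_one]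
  map_mul' σ σ' := by
    apply intMap_inj (ℓ := ℓ)
    have h := D.decomp (σ * σ')
    rw [D.mat_mul, D.decomp, D.decomp, Matrix.fromBlocks_multiply] at h
    have h2 := (Matrix.fromBlocks_inj.1 h).1
    rw [← h2, Matrix.zero_mul, add_zero]
    exact (Matrix.map_mul (f := Int.castRingHom ℚ_[ℓ]) (L := D.NS σ) (M := D.NS σ')).symm

/-- the matrices of the transcendental part -/
noncomputable def Transc.tauHom : GK K →* Matrix (Fin D.m) (Fin D.m) ℚ_[ℓ] where
  toFun := D.τ
  map_one' := by
    have h := D.decomp 1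
    rw [D.mat_one, ← Matrix.fromBlocks_one] at h
    exact ((Matrix.fromBlocks_inj.1 h).2.2.2).symm
  map_mul' σ σ' := by
    have h := D.decomp (σ * σ')
    rw [D.mat_mul, D.decomp, D.decomp, Matrix.fromBlocks_multiply] at h
    have h2 := (Matrix.fromBlocks_inj.1 h).2.2.2
    rw [← h2, Matrix.zero_mul, zero_add]

lemma Transc.act_injective (hm : 0 < D.m) : Function.Injective D.F.act := by
  haveI : Nonempty (Fin D.m) := ⟨⟨0, hm⟩⟩
  exact D.F.actHom.injective

lemma Transc.m_pos : 0 < D.m := by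
  have h := D.F.tr_act 1
  rw [D.F.act_one, Matrix.trace_one, Fintype.card_fin] at h
  have h5 := Algebra.trace_algebraMap (R := ℚ) (S := D.F.E) 1
  rw [map_one, nsmul_eq_mul, mul_one] at h5
  rw [h5] at h
  have h6 : D.m = D.F.n * Module.finrank ℚ D.F.E := by
    have h7 : ((D.m : ℕ) : ℚ_[ℓ]) = ((D.F.n * Module.finrank ℚ D.F.E : ℕ) : ℚ_[ℓ]) := by
      rw [h]
      push_cast
      rfl
    exact_mod_cast h7
  have h8 : 0 < D.F.n * Module.finrank ℚ D.F.E := Nat.mul_pos D.F.npos Module.finrank_pos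
  omega

/-- the action on the endomorphism field -/
noncomputable def Transc.cHom : GK K →* D.F.Aut where
  toFun := D.c
  map_one' := by
    apply D.F.toGal.injective
    apply AlgEquiv.ext
    intro e
    rw [EndField.toGal_apply, map_one]
    apply D.act_injective D.m_pos
    have h := D.semil 1 e
    rw [show D.τ 1 = 1 from D.tauHom.map_one, one_mul, mul_one] at h
    exact h.symm
  map_mul' σ σ' := by
    apply D.F.toGal.injective
    apply AlgEquiv.ext
    intro e
    rw [map_mul, AlgEquiv.mul_apply, EndField.toGal_apply, EndField.toGal_apply,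
      EndField.toGal_apply]
    apply D.act_injective D.m_pos
    have h := D.semil (σ * σ') e
    have h1 : D.τ (σ * σ') = D.τ σ * D.τ σ' := D.tauHom.map_mul σ σ'
    rw [h1, mul_assoc, D.semil σ' e, ← mul_assoc, D.semil σ, mul_assoc, ← h1] at h
    have h2 := congrArg (fun M => M * D.τ (σ * σ')⁻¹) h
    have h3 : D.τ (σ * σ') * D.τ (σ * σ')⁻¹ = 1 := by
      have := D.tauHom.map_mul (σ * σ') (σ * σ')⁻¹
      rw [mul_inv_cancel, map_one] at this
      exact this.symm
    simp only [mul_assoc, h3, mul_one] at h2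
    exact h2.symm

/-- the structure used in the proof -/
noncomputable def Transc.old : Transcendental X where
  ρ := D.ρ
  m := D.m
  basis := D.basis
  NS := D.NSHom
  finite := D.finite
  τ := D.tauHom
  cont := D.cont
  decomp := D.decomp
  E := D.F.E
  n := D.F.n
  npos := D.F.npos
  act := D.F.actHom.toRatAlgHom
  tr_act := by
    intro e
    have h := D.F.tr_act e
    change (D.F.act e).trace = _
    rw [h, eq_ratCast]
    push_cast
    rfl
  conj := D.F.toGal D.F.cc
  complex := D.F.complex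
  real := by
    intro h
    exact D.F.real fun e => DFunLike.congr_fun h e
  ψ := D.F.ψ
  symm := D.F.symm
  nondeg := D.F.nondeg
  adj := D.F.adj
  iso := D.iso
  c := D.F.toGal.toMonoidHom.comp D.cHom
  semil := D.semil
  mt := by
    intro U hU P hP M h1 h2
    refine D.mt U hU P (fun u hu => ?_) M h1 h2
    rw [MvPolynomial.aeval_eq_eval]
    exact hP u hu

lemma mem_zpowers_map {G H : Type} [Group G] [Group H] (f : G ≃* H) (x g : G) :
    f x ∈ Subgroup.zpowers (f g) ↔ x ∈ Subgroup.zpowers g := by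
  constructor
  · intro h
    obtain ⟨k, hk⟩ := Subgroup.mem_zpowers_iff.1 h
    refine Subgroup.mem_zpowers_iff.2 ⟨k, f.injective ?_⟩
    rw [map_zpow, hk]
  · intro h
    obtain ⟨k, rfl⟩ := Subgroup.mem_zpowers_iff.1 h
    exact Subgroup.mem_zpowers_iff.2 ⟨k, by rw [map_zpow]⟩

lemma Transc.generic_old (g : D.F.Aut) : D.old.generic (D.F.toGal g) = D.generic g := by
  classical
  have h1 : D.old.conj ∈ Subgroup.zpowers (D.F.toGal g) ↔ D.F.cc ∈ Subgroup.zpowers g :=
    mem_zpowers_map D.F.toGal D.F.cc g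
  have h2 : orderOf (D.F.toGal g) = orderOf g := MulEquiv.orderOf_eq D.F.toGal g
  by_cases h : D.F.n = 1 ∧ D.F.cc ∈ Subgroup.zpowers g
  · refine (generic_of_exc D.old (a := D.F.toGal g) ⟨h.1, h1.2 h.2⟩).trans ?_
    unfold Transc.generic
    rw [if_pos h]
  · refine (generic_of_not_exc D.old (a := D.F.toGal g) fun h' => h ⟨h'.1, h1.1 h'.2⟩).trans ?_
    unfold Transc.generic
    rw [if_neg h]
    exact h2

end

section family

variable {K : Type} [Field K] [NumberField K] {ι : Type} {ℓ : ι → ℕ} [∀ i, Fact (ℓ i).Prime]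
  {X : ∀ i, Hyperkaehler K (ℓ i)} (D : ∀ i, Transc (X i))

/-- the isomorphism of the automorphism groups -/
noncomputable def toGalO {ℓ : ℕ} [Fact ℓ.Prime] {X : Hyperkaehler K ℓ} (D : Transc X) :
    D.F.Aut ≃* (D.old.E ≃ₐ[ℚ] D.old.E) := D.F.toGal

/-- the isomorphism of the products -/
noncomputable def toGals : (∀ i, (D i).F.Aut) ≃* ∀ i, ((D i).old.E ≃ₐ[ℚ] (D i).old.E) :=
  MulEquiv.piCongrRight fun i => toGalO (D i)

lemma image_eq : (toGals D) '' (image D) =
    ((joint fun i => (D i).old).range : Set (∀ i, ((D i).old.E ≃ₐ[ℚ] (D i).old.E))) := by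
  ext g
  constructor
  · rintro ⟨x, ⟨σ, rfl⟩, rfl⟩
    exact ⟨σ, rfl⟩
  · rintro ⟨σ, rfl⟩
    exact ⟨_, ⟨σ, rfl⟩, rfl⟩

lemma ncard_image : (image D).ncard = Nat.card (joint fun i => (D i).old).range := by
  rw [← Set.ncard_image_of_injective _ (toGals D).injective, image_eq]
  rfl

lemma ncard_with (h : ι → ℕ) : (withHeights D h).ncard =
    Nat.card {g : (joint fun i => (D i).old).range // ∀ i, ((D i).old).generic
      ((g : ∀ i, ((D i).old.E ≃ₐ[ℚ] (D i).old.E)) i) = h i} := by
  have key : ∀ (x : ∀ i, (D i).F.Aut) (i : ι), (D i).old.generic (toGals D x i) = (D i).generic (x i) :=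
    fun x i => (D i).generic_old (x i)
  rw [← Nat.card_coe_set_eq]
  refine Nat.card_congr
    { toFun := fun x => ⟨⟨toGals D x.1, ?_⟩, fun i => ?_⟩
      invFun := fun y => ⟨(toGals D).symm y.1.1, ?_, fun i => ?_⟩
      left_inv := fun x => ?_
      right_inv := fun y => ?_ }
  · have h1 : toGals D x.1 ∈ (toGals D) '' (image D) := ⟨x.1, x.2.1, rfl⟩
    rw [image_eq] at h1
    exact h1
  · exact (key x.1 i).trans (x.2.2 i)
  · have h1 : y.1.1 ∈ (toGals D) '' (image D) := by
      rw [image_eq]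
      exact y.1.2
    obtain ⟨x, hx, hxy⟩ := h1
    rw [← hxy, MulEquiv.symm_apply_apply]
    exact hx
  · rw [← key, MulEquiv.apply_symm_apply]
    exact y.2 i
  · apply Subtype.ext
    exact (toGals D).symm_apply_apply _
  · apply Subtype.ext
    apply Subtype.ext
    exact (toGals D).apply_symm_apply _

variable [Finite ι]

theorem main_height (h : ι → ℕ) : Tendsto (ratio fun v : HeightOneSpectrum (𝓞 K) =>
    ∀ i, ∃ hv : v ∉ (X i).bad, ht (X i) v hv = h i) atTop
    (𝓝 (((withHeights D h).ncard : ℝ) / ((image D).ncard : ℝ))) := by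
  rw [ncard_with, ncard_image]
  exact ratio_tendsto _ _ (dens_height (fun i => (D i).old) h)

theorem main_ordinary : Tendsto (ratio fun v : HeightOneSpectrum (𝓞 K) =>
    ∀ i, ∃ hv : v ∉ (X i).bad, ∀ k ≤ (X i).d, (X i).OrdinaryIn v hv k) atTop
    (𝓝 (1 / ((image D).ncard : ℝ))) := by
  rw [ncard_image]
  exact ratio_tendsto _ _ (dens_ordinary (fun i => (D i).old))

theorem main_exception : Tendsto (ratio fun v : HeightOneSpectrum (𝓞 K) =>
    ∃ (i : ι) (hv : v ∉ (X i).bad) (σ : GK K),
      IsFrob v σ ∧ ht (X i) v hv ≠ (D i).generic ((D i).c σ)) atTop (𝓝 0) := by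
  have h := ratio_tendsto _ _ (dens_exception (fun i => (D i).old))
  refine h.congr fun N => ?_
  congr 1
  funext v
  apply propext
  refine exists_congr fun i => exists_congr fun hv => exists_congr fun σ => and_congr_right fun _ => ?_
  rw [← (D i).generic_old]
  rfl

theorem main_degree_one {ℓ : ℕ} [Fact ℓ.Prime] {X : Hyperkaehler K ℓ} (D : Transc X)
    (v : HeightOneSpectrum (𝓞 K)) (hv : v ∉ X.bad) (hp : (Ideal.absNorm v.asIdeal).Prime)
    (σ : GK K) (hσ : IsFrob v σ) :
    (ht X v hv = 0 ∨ orderOf (D.c σ) ≤ ht X v hv) ∧ (D.generic (D.c σ) = 0 → ht X v hv = 0) := by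
  constructor
  · have h1 := height_ge hv D.old hσ hp
    have h2 : orderOf (D.F.toGal (D.c σ)) = orderOf (D.c σ) := MulEquiv.orderOf_eq D.F.toGal _
    rw [← h2]
    exact h1
  · intro h
    rw [← D.generic_old] at h
    exact height_exc hv D.old hσ h

end family

end Pool.Agent.Zk8.KT
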