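import Pool.Agent.N184.HK.Num

/-!
# The transcendental part of the second cohomology of a hyperkähler variety

`X` is a projective hyperkähler variety over a number field `K`, for example a K3 surface.
-/

set_option autoImplicit false

namespace Pool.Agent.Zk8.KT

open Module NumberField IsDedekindDomain
open Pool.Agent.W401.Cheb Pool.Agent.N184.HK

/-- The height of the reduction `X_v`: the number of the slopes of `H²` which are smaller than `1`,
`0` if there are none (infinite height, supersingular reduction). For a K3 surface this is the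
height of the formal Brauer group. -/
def height {K : Type} [Field K] [NumberField K] {ℓ : ℕ} [Fact ℓ.Prime] (X : Hyperkaehler K ℓ)
    (v : HeightOneSpectrum (𝓞 K)) (h : v ∉ X.bad) : ℕ :=
  (Finset.univ.filter fun j => (X.place v h).ns 2 j < 1).card

/-- The monodromy of the representation `τ` is large: the Zariski closure of the image of an open
subgroup contains the squares of all `E`-linear isometries, that is, every polynomial `P` in the matrix
entries which vanishes on the image of an open subgroup vanishes at all these squares. -/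
def LargeMonodromy {K : Type} [Field K] [NumberField K] {ℓ : ℕ} [Fact ℓ.Prime] {m : ℕ} {E : Type}
    [Field E] [NumberField E] (τ : GK K →* Matrix (Fin m) (Fin m) ℚ_[ℓ])
    (act : E →ₐ[ℚ] Matrix (Fin m) (Fin m) ℚ_[ℓ]) (ψ : Matrix (Fin m) (Fin m) ℚ_[ℓ]) : Prop :=
  ∀ U : Subgroup (GK K), IsOpen (U : Set (GK K)) → ∀ P : MvPolynomial (Fin m × Fin m) ℚ_[ℓ],
    (∀ u ∈ U, MvPolynomial.eval (fun x => τ u x.1 x.2) P = 0) →
    ∀ M : Matrix (Fin m) (Fin m) (AlgebraicClosure ℚ_[ℓ]),
      (∀ e, M * (act e).map (algebraMap ℚ_[ℓ] (AlgebraicClosure ℚ_[ℓ])) =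
        (act e).map (algebraMap ℚ_[ℓ] (AlgebraicClosure ℚ_[ℓ])) * M) →
      M.transpose * ψ.map (algebraMap ℚ_[ℓ] (AlgebraicClosure ℚ_[ℓ])) * M =
        ψ.map (algebraMap ℚ_[ℓ] (AlgebraicClosure ℚ_[ℓ])) →
      MvPolynomial.aeval (fun x => (M * M) x.1 x.2) P = 0

/-- The structure of `H²(X)(1)`. It is the direct sum of `NS(X_K̄) ⊗ ℚ_ℓ`, on which the Galois group
acts through a finite group of integral matrices `NS σ`, and of the transcendental part `T` (the
matrices `τ σ`). `E` is the endomorphism field of the transcendental Hodge structure, which acts on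
`T` (`act`) with `n = dim_E T`; it is a totally real field or a CM field, `conj` is the complex
conjugation, and `n ≥ 3` if `E` is totally real (Zarhin). `ψ` is the Beauville-Bogomolov form on `T`,
`conj` its adjunction on `E`. The endomorphisms are defined over `K̄`, and `c` is the action of the
Galois group on `E`: the kernel of `c` is the Galois group of a finite Galois extension `K_E / K`,
the field of definition of the endomorphisms, and the image of `c` is `Gal(K_E / K)`.
`mt`: the Mumford-Tate conjecture for `H²(X)` (Tankeev, André), together with Zarhin's computation of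
the Hodge group as the unitary or special orthogonal group of `T` over `E`. -/
structure Transcendental {K : Type} [Field K] [NumberField K] {ℓ : ℕ} [Fact ℓ.Prime]
    (X : Hyperkaehler K ℓ) where
  ρ : ℕ
  m : ℕ
  basis : Basis (Fin ρ ⊕ Fin m) ℚ_[ℓ] X.R.V
  NS : GK K →* Matrix (Fin ρ) (Fin ρ) ℤ
  finite : (Set.range NS).Finite
  τ : GK K →* Matrix (Fin m) (Fin m) ℚ_[ℓ]
  cont : ∀ i j, Continuous fun σ => τ σ i j
  decomp : ∀ σ, LinearMap.toMatrix basis basis (X.R.r σ) =
    Matrix.fromBlocks ((NS σ).map (Int.castRingHom ℚ_[ℓ])) 0 0 (τ σ)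
  E : Type
  [field : Field E]
  [nf : NumberField E]
  n : ℕ
  npos : 0 < n
  act : E →ₐ[ℚ] Matrix (Fin m) (Fin m) ℚ_[ℓ]
  tr_act : ∀ e, (act e).trace = n * algebraMap ℚ ℚ_[ℓ] (Algebra.trace ℚ E e)
  conj : E ≃ₐ[ℚ] E
  complex : ∀ (φ : E →+* ℂ) (e : E), φ (conj e) = starRingEnd ℂ (φ e)
  real : conj = 1 → 3 ≤ n
  ψ : Matrix (Fin m) (Fin m) ℚ_[ℓ]
  symm : ψ.transpose = ψ
  nondeg : IsUnit ψ
  adj : ∀ e, ψ * act e = (act (conj e)).transpose * ψ
  iso : ∀ σ, (τ σ).transpose * ψ * τ σ = ψ
  c : GK K →* (E ≃ₐ[ℚ] E)
  semil : ∀ σ e, τ σ * act e = act (c σ e) * τ σ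
  mt : LargeMonodromy τ act ψ

attribute [instance] Transcendental.field Transcendental.nf

/-- The generic height for an element `g` of `Gal(K_E / K)`: the order of `g`, with the exception that
it is `0` (supersingular) if `dim_E T = 1` (complex multiplication) and the complex conjugation is a
power of `g`. -/
noncomputable def Transcendental.generic {K : Type} [Field K] [NumberField K] {ℓ : ℕ} [Fact ℓ.Prime]
    {X : Hyperkaehler K ℓ} (D : Transcendental X) (g : D.E ≃ₐ[ℚ] D.E) : ℕ :=
  open scoped Classical in
  if D.n = 1 ∧ D.conj ∈ Subgroup.zpowers g then 0 else orderOf g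

end Pool.Agent.Zk8.KT
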