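import Pool.Agent.Zk8.KT.Gal

/-!
# Densities
-/

set_option autoImplicit false
set_option linter.all false

namespace Pool.Agent.Zk8.KT

open Module NumberField IsDedekindDomain Matrix MeasureTheory Topology Filter
open Pool.Agent.W401.Cheb Pool.Agent.N184.HK Pool.Agent.W528.Ord

variable {K : Type} [Field K] [NumberField K] {ℓ : ℕ} [Fact ℓ.Prime] {X : Hyperkaehler K ℓ}
  (D : Transcendental X)

lemma tau_inv_left (g : GK K) : D.τ g⁻¹ * D.τ g = 1 := by
  rw [← map_mul, inv_mul_cancel, map_one]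

lemma tau_inv_right (g : GK K) : D.τ g * D.τ g⁻¹ = 1 := by
  rw [← map_mul, mul_inv_cancel, map_one]

lemma c_eq_one_iff (g : GK K) : D.c g = 1 ↔ ∀ e, D.τ g * D.act e = D.act e * D.τ g := by
  constructor
  · intro h e
    have := D.semil g e
    rw [h] at this
    exact this
  · intro h
    apply AlgEquiv.ext
    intro e
    apply act_inj D
    have h1 := D.semil g e
    rw [h e] at h1
    have h2 := congrArg (fun M => M * D.τ g⁻¹) h1
    simp only [mul_assoc, tau_inv_right, mul_one] at h2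
    exact h2.symm

lemma ker_closed : IsClosed ((D.c.ker : Subgroup (GK K)) : Set (GK K)) := by
  have e : ((D.c.ker : Subgroup (GK K)) : Set (GK K)) =
      ⋂ e : D.E, ⋂ i, ⋂ j, {g | (D.τ g * D.act e) i j = (D.act e * D.τ g) i j} := by
    ext g
    simp only [SetLike.mem_coe, MonoidHom.mem_ker, Set.mem_iInter]
    rw [c_eq_one_iff]
    constructor
    · intro h e i j
      exact congrFun (congrFun (h e) i) j
    · intro h e
      ext i j
      exact h e i j
  rw [e]
  refine isClosed_iInter fun e => isClosed_iInter fun i => isClosed_iInter fun j => ?_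
  refine isClosed_eq ?_ ?_
  · simp only [Matrix.mul_apply]
    exact continuous_finsetSum _ fun k _ => (D.cont i k).mul continuous_const
  · simp only [Matrix.mul_apply]
    exact continuous_finsetSum _ fun k _ => continuous_const.mul (D.cont k j)

instance : D.c.ker.FiniteIndex := by
  have : Finite D.c.range := inferInstance
  exact Subgroup.finiteIndex_ker D.c

lemma ker_open : IsOpen ((D.c.ker : Subgroup (GK K)) : Set (GK K)) :=
  Subgroup.isOpen_of_isClosed_of_finiteIndex _ (ker_closed D)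

lemma fiber_open (a : D.E ≃ₐ[ℚ] D.E) : IsOpen {g | D.c g = a} := by
  by_cases h : ∃ g, D.c g = a
  · obtain ⟨g, rfl⟩ := h
    have e : {x | D.c x = D.c g} = (fun x => g⁻¹ * x) ⁻¹' (D.c.ker : Set (GK K)) := by
      ext x
      simp only [Set.mem_setOf_eq, Set.mem_preimage, SetLike.mem_coe, MonoidHom.mem_ker, map_mul,
        map_inv]
      rw [inv_mul_eq_one, eq_comm]
    rw [e]
    exact (ker_open D).preimage (continuous_mul_left _)
  · have e : {x | D.c x = a} = ∅ := by
      ext x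
      simp only [Set.mem_setOf_eq, Set.mem_empty_iff_false, iff_false]
      exact fun hx => h ⟨x, hx⟩
    rw [e]
    exact isOpen_empty

lemma c_loc : IsLocallyConstant D.c :=
  IsLocallyConstant.iff_isOpen_fiber.2 fun a => fiber_open D a

/-- coordinates -/
noncomputable def cd (g : GK K) : (Fin D.m × Fin D.m) ⊕ (D.E ≃ₐ[ℚ] D.E) → ℚ_[ℓ]
  | Sum.inl x => D.τ g x.1 x.2
  | Sum.inr a => open scoped Classical in if D.c g = a then 1 else 0

/-- polynomial functions -/
noncomputable def FB : Subalgebra ℚ_[ℓ] (GK K → ℚ_[ℓ]) :=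
  (MvPolynomial.aeval (fun (i : (Fin D.m × Fin D.m) ⊕ (D.E ≃ₐ[ℚ] D.E)) (g : GK K) =>
    cd D g i)).range

theorem mem_FB (F : GK K → ℚ_[ℓ]) : F ∈ FB D ↔
    ∃ P : MvPolynomial ((Fin D.m × Fin D.m) ⊕ (D.E ≃ₐ[ℚ] D.E)) ℚ_[ℓ],
      ∀ g, F g = MvPolynomial.eval (cd D g) P := by
  have key : ∀ (P : MvPolynomial ((Fin D.m × Fin D.m) ⊕ (D.E ≃ₐ[ℚ] D.E)) ℚ_[ℓ]) (g : GK K),
      (MvPolynomial.aeval (fun (i : (Fin D.m × Fin D.m) ⊕ (D.E ≃ₐ[ℚ] D.E)) (g : GK K) =>
        cd D g i) P) g = MvPolynomial.eval (cd D g) P := by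
    intro P g
    have h : (Pi.evalAlgHom ℚ_[ℓ] (fun _ : GK K => ℚ_[ℓ]) g).comp
        (MvPolynomial.aeval (fun (i : (Fin D.m × Fin D.m) ⊕ (D.E ≃ₐ[ℚ] D.E)) (g : GK K) =>
          cd D g i)) = MvPolynomial.aeval (cd D g) := by
      apply MvPolynomial.algHom_ext
      intro i
      simp
    have h2 := DFunLike.congr_fun h P
    rw [AlgHom.comp_apply] at h2
    exact h2
  constructor
  · rintro ⟨P, rfl⟩
    exact ⟨P, fun g => key P g⟩
  · rintro ⟨P, hP⟩
    refine ⟨P, ?_⟩
    funext g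
    rw [hP g]
    exact key P g

theorem noethB : IsNoetherianRing (FB D) := by
  let f : MvPolynomial ((Fin D.m × Fin D.m) ⊕ (D.E ≃ₐ[ℚ] D.E)) ℚ_[ℓ] →ₐ[ℚ_[ℓ]] (GK K → ℚ_[ℓ]) :=
    MvPolynomial.aeval (fun (i : (Fin D.m × Fin D.m) ⊕ (D.E ≃ₐ[ℚ] D.E)) (g : GK K) => cd D g i)
  have hs : Function.Surjective f.rangeRestrict := AlgHom.rangeRestrict_surjective _
  exact isNoetherianRing_of_surjective _ _ f.rangeRestrict.toRingHom hs

theorem coord_mem (i : (Fin D.m × Fin D.m) ⊕ (D.E ≃ₐ[ℚ] D.E)) :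
    (fun g => cd D g i) ∈ FB D := by
  rw [mem_FB]
  exact ⟨MvPolynomial.X i, fun g => by rw [MvPolynomial.eval_X]⟩

theorem transB (g : GK K) (F : GK K → ℚ_[ℓ]) (hF : F ∈ FB D) : (fun x => F (g * x)) ∈ FB D := by
  classical
  rw [mem_FB] at hF
  obtain ⟨P, hP⟩ := hF
  have h : (fun x => F (g * x)) = fun x => MvPolynomial.eval (cd D (g * x)) P := by
    funext x; exact hP _
  rw [h]
  clear h hP
  induction P using MvPolynomial.induction_on with
  | C a =>
    have : (fun x => MvPolynomial.eval (cd D (g * x)) (MvPolynomial.C a)) =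
        algebraMap ℚ_[ℓ] (GK K → ℚ_[ℓ]) a := by
      funext x
      rw [MvPolynomial.eval_C]
      rfl
    rw [this]
    exact (FB D).algebraMap_mem a
  | add p q hp hq =>
    have : (fun x => MvPolynomial.eval (cd D (g * x)) (p + q)) =
        (fun x => MvPolynomial.eval (cd D (g * x)) p) +
        (fun x => MvPolynomial.eval (cd D (g * x)) q) := by
      funext x
      rw [map_add]
      rfl
    rw [this]
    exact (FB D).add_mem hp hq
  | mul_X p i hp =>
    have : (fun x => MvPolynomial.eval (cd D (g * x)) (p * MvPolynomial.X i)) =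
        (fun x => MvPolynomial.eval (cd D (g * x)) p) * (fun x => cd D (g * x) i) := by
      funext x
      rw [map_mul, MvPolynomial.eval_X]
      rfl
    rw [this]
    apply (FB D).mul_mem hp
    rcases i with ⟨i, j⟩ | a
    · have e : (fun x => cd D (g * x) (Sum.inl (i, j))) =
          ∑ k : Fin D.m, (D.τ g i k) • (fun x => cd D x (Sum.inl (k, j))) := by
        funext x
        rw [Finset.sum_apply]
        change D.τ (g * x) i j = _
        rw [map_mul, Matrix.mul_apply]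
        rfl
      rw [e]
      exact (FB D).sum_mem fun k _ => (FB D).smul_mem (coord_mem D _) _
    · have e : (fun x => cd D (g * x) (Sum.inr a)) =
          fun x => cd D x (Sum.inr ((D.c g)⁻¹ * a)) := by
        funext x
        change (if D.c (g * x) = a then (1 : ℚ_[ℓ]) else 0) =
          if D.c x = (D.c g)⁻¹ * a then 1 else 0
        rw [map_mul]
        congr 1
        rw [eq_inv_mul_iff_mul_eq]
      rw [e]
      exact coord_mem D _

theorem contB (F : GK K → ℚ_[ℓ]) (hF : F ∈ FB D) : Continuous F := by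
  classical
  rw [mem_FB] at hF
  obtain ⟨P, hP⟩ := hF
  have h : F = fun x => MvPolynomial.eval (cd D x) P := by
    funext x; exact hP _
  rw [h]
  clear h hP
  induction P using MvPolynomial.induction_on with
  | C a => simp only [MvPolynomial.eval_C]; exact continuous_const
  | add p q hp hq => simp only [map_add]; exact hp.add hq
  | mul_X p i hp =>
    simp only [map_mul, MvPolynomial.eval_X]
    apply hp.mul
    rcases i with ⟨i, j⟩ | a
    · exact D.cont i j
    · exact ((c_loc D).comp (fun b => if b = a then (1 : ℚ_[ℓ]) else 0)).continuous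

theorem tr_memB (f : ℕ) : (fun g => ((D.τ g) ^ f).trace) ∈ FB D := by
  let M' : Matrix (Fin D.m) (Fin D.m) (FB D) := fun i j => ⟨_, coord_mem D (Sum.inl (i, j))⟩
  have h2 : (fun g => ((D.τ g) ^ f).trace) = (((M' ^ f).trace : FB D) : GK K → ℚ_[ℓ]) := by
    funext g
    let ev : FB D →+* ℚ_[ℓ] := (Pi.evalRingHom (fun _ : GK K => ℚ_[ℓ]) g).comp (FB D).val.toRingHom
    have h3 : M'.map ev = D.τ g := rfl
    have h4 : ev (M' ^ f).trace = ((M' ^ f).map ev).trace := by
      simp [Matrix.trace]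
    rw [Matrix.map_pow, h3] at h4
    exact h4.symm
  rw [h2]
  exact ((M' ^ f).trace : FB D).2

/-- the set of all `g` with `c g = a` and a given trace of the power is a null set -/
theorem null_fiber [MeasurableSpace (GK K)] [BorelSpace (GK K)] (μ : Measure (GK K))
    [IsProbabilityMeasure μ] [μ.IsMulLeftInvariant] (a : D.E ≃ₐ[ℚ] D.E)
    (ha : ¬ (D.n = 1 ∧ D.conj ∈ Subgroup.zpowers a)) (k : ℚ_[ℓ]) :
    μ {g | D.c g = a ∧ ((D.τ g) ^ orderOf a).trace = k} = 0 := by
  classical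
  let F0 : GK K → ℚ_[ℓ] := (1 - fun g => cd D g (Sum.inr a)) + (fun g => cd D g (Sum.inr a)) *
    ((fun g => ((D.τ g) ^ orderOf a).trace) - algebraMap ℚ_[ℓ] (GK K → ℚ_[ℓ]) k)
  have hF0 : F0 ∈ FB D := by
    refine (FB D).add_mem ((FB D).sub_mem (FB D).one_mem (coord_mem D _))
      ((FB D).mul_mem (coord_mem D _) ((FB D).sub_mem (tr_memB D _) ((FB D).algebraMap_mem k)))
  have hz : ∀ g, F0 g = 0 ↔ (D.c g = a ∧ ((D.τ g) ^ orderOf a).trace = k) := by
    intro g
    change (1 - (if D.c g = a then (1 : ℚ_[ℓ]) else 0)) + (if D.c g = a then (1 : ℚ_[ℓ]) else 0) *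
      (((D.τ g) ^ orderOf a).trace - k) = 0 ↔ _
    by_cases h : D.c g = a
    · rw [if_pos h, sub_self, zero_add, one_mul, sub_eq_zero]
      exact ⟨fun h1 => ⟨h, h1⟩, fun h1 => h1.2⟩
    · rw [if_neg h, zero_mul, add_zero, sub_zero]
      exact ⟨fun h1 => absurd h1 one_ne_zero, fun h1 => absurd h1.1 h⟩
  have hset : {g | D.c g = a ∧ ((D.τ g) ^ orderOf a).trace = k} = {g | F0 g = 0} := by
    ext g
    exact (hz g).symm
  rw [hset]
  by_contra h0
  haveI := noethB D
  obtain ⟨U, γ, hU, hUγ⟩ := coset_of_pos μ (FB D) (transB D) (contB D) F0 hF0 h0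
  have hc : D.c γ = a := by
    have h1 := (hz _).1 (hUγ 1 (one_mem _))
    rw [mul_one] at h1
    exact h1.1
  subst hc
  exact nonconst D γ ha U hU k fun u hu => ((hz _).1 (hUγ u hu)).2

lemma conj_comm (b : D.E ≃ₐ[ℚ] D.E) : b * D.conj = D.conj * b := by
  apply AlgEquiv.ext
  intro e
  obtain ⟨φ⟩ : Nonempty (D.E →+* ℂ) := inferInstance
  apply φ.injective
  change φ (b (D.conj e)) = φ (D.conj (b e))
  rw [D.complex]
  exact D.complex (φ.comp (b : D.E →+* D.E)) e

/-- the exceptional elements -/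
def exc (a : D.E ≃ₐ[ℚ] D.E) : Prop := D.n = 1 ∧ D.conj ∈ Subgroup.zpowers a

lemma mem_zpowers_conj {G : Type} [Group G] {a b z : G} (hz : b * z = z * b)
    (h : z ∈ Subgroup.zpowers a) : z ∈ Subgroup.zpowers (b * a * b⁻¹) := by
  obtain ⟨k, rfl⟩ := Subgroup.mem_zpowers_iff.1 h
  refine Subgroup.mem_zpowers_iff.2 ⟨k, ?_⟩
  rw [conj_zpow, hz, mul_inv_cancel_right]

lemma exc_conj (a b : D.E ≃ₐ[ℚ] D.E) : exc D (b * a * b⁻¹) ↔ exc D a := by
  constructor
  · rintro ⟨h1, h2⟩
    refine ⟨h1, ?_⟩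
    have h3 := mem_zpowers_conj (b := b⁻¹) (z := D.conj) (by
      rw [conj_comm]) h2
    have e : b⁻¹ * (b * a * b⁻¹) * b⁻¹⁻¹ = a := by group
    rwa [e] at h3
  · rintro ⟨h1, h2⟩
    exact ⟨h1, mem_zpowers_conj (conj_comm D b) h2⟩

lemma orderOf_conj' {G : Type} [Group G] (a b : G) : orderOf (b * a * b⁻¹) = orderOf a :=
  orderOf_injective (MulAut.conj b).toMonoidHom (MulAut.conj b).injective a

lemma generic_conj (a b : D.E ≃ₐ[ℚ] D.E) : D.generic (b * a * b⁻¹) = D.generic a := by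
  have h := exc_conj D a b
  unfold exc at h
  unfold Transcendental.generic
  by_cases h1 : D.n = 1 ∧ D.conj ∈ Subgroup.zpowers a
  · rw [if_pos h1, if_pos (h.2 h1)]
  · rw [if_neg h1, if_neg (fun h2 => h1 (h.1 h2)), orderOf_conj']

lemma trace_conj (σ τ : GK K) (f : ℕ) :
    ((D.τ (τ * σ * τ⁻¹)) ^ f).trace = ((D.τ σ) ^ f).trace := by
  rw [← map_pow, ← map_pow, conj_pow, map_mul, Matrix.trace_mul_comm, map_mul, ← mul_assoc,
    tau_inv_left, one_mul]

/-- the Frobenius elements with the traces in a finite set have density zero -/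
theorem dens_bad (F : Set ℚ_[ℓ]) (hF : F.Finite) :
    Tendsto (dens fun v : HeightOneSpectrum (𝓞 K) => ∃ σ : GK K,
      (¬ exc D (D.c σ) ∧ ((D.τ σ) ^ orderOf (D.c σ)).trace ∈ F) ∧ IsFrob v σ) atTop (𝓝 0) := by
  classical
  letI : MeasurableSpace (GK K) := borel (GK K)
  haveI : BorelSpace (GK K) := ⟨rfl⟩
  let μ : Measure (GK K) := Measure.haarMeasure ⊤
  haveI : IsProbabilityMeasure μ := ⟨by
    have := Measure.haarMeasure_self (K₀ := (⊤ : TopologicalSpace.PositiveCompacts (GK K)))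
    exact this⟩
  let Z : Set (GK K) := {σ | ¬ exc D (D.c σ) ∧ ((D.τ σ) ^ orderOf (D.c σ)).trace ∈ F}
  have e : Z = ⋃ a : {a : D.E ≃ₐ[ℚ] D.E // ¬ exc D a}, ⋃ k ∈ hF.toFinset,
      {g | D.c g = a ∧ ((D.τ g) ^ orderOf a.1).trace = k} := by
    ext g
    simp only [Set.mem_iUnion, Set.mem_setOf_eq, Set.Finite.mem_toFinset, Z]
    constructor
    · rintro ⟨h1, h2⟩
      exact ⟨⟨D.c g, h1⟩, _, h2, rfl, rfl⟩
    · rintro ⟨⟨a, ha⟩, k, hk, h1, h2⟩
      simp only at h1 h2
      subst h1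
      exact ⟨ha, by rw [h2]; exact hk⟩
  have hcl : IsClosed Z := by
    rw [e]
    refine isClosed_iUnion_of_finite fun a => ?_
    refine Set.Finite.isClosed_biUnion hF.toFinset.finite_toSet fun k _ => ?_
    have hc : IsClosed {g | D.c g = a.1} := by
      have : {g | D.c g = a.1}ᶜ = D.c ⁻¹' {a.1}ᶜ := rfl
      rw [← isOpen_compl_iff, this]
      exact (c_loc D) _
    exact hc.inter (isClosed_eq (contB D _ (tr_memB D _)) continuous_const)
  have hnull : μ Z = 0 := by
    rw [e]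
    refine measure_iUnion_null fun a => ?_
    refine (measure_biUnion_null_iff hF.toFinset.countable_toSet).2 fun k _ => ?_
    exact null_fiber D μ a.1 a.2 k
  have hconj : ∀ σ ∈ Z, ∀ τ : GK K, τ * σ * τ⁻¹ ∈ Z := by
    rintro σ ⟨h1, h2⟩ τ
    refine ⟨?_, ?_⟩
    · rw [map_mul, map_mul, map_inv, exc_conj]
      exact h1
    · rw [trace_conj, map_mul, map_mul, map_inv, orderOf_conj']
      exact h2
  exact dens_null μ Z hcl hconj hnull

/-- Chebotarev for the extension `K_E / K` -/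
theorem dens_class (S : Set (D.E ≃ₐ[ℚ] D.E)) (hS : ∀ a ∈ S, ∀ b, b * a * b⁻¹ ∈ S) :
    Tendsto (dens fun v : HeightOneSpectrum (𝓞 K) => ∃ σ : GK K, D.c σ ∈ S ∧ IsFrob v σ) atTop
      (𝓝 ((Nat.card {g : D.c.range // (g : D.E ≃ₐ[ℚ] D.E) ∈ S} : ℝ) / (Nat.card D.c.range : ℝ))) := by
  classical
  have h := chebK K D.c.ker (ker_open D) {σ | D.c σ ∈ S} ?_ ?_
  · have e1 : Nat.card (GK K ⧸ D.c.ker) = Nat.card D.c.range :=
      Nat.card_congr (QuotientGroup.quotientKerEquivRange D.c).toEquiv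
    have e2 : ((QuotientGroup.mk : GK K → GK K ⧸ D.c.ker) '' {σ | D.c σ ∈ S}).ncard =
        Nat.card {g : D.c.range // (g : D.E ≃ₐ[ℚ] D.E) ∈ S} := by
      rw [← Nat.card_coe_set_eq]
      refine Nat.card_congr ((QuotientGroup.quotientKerEquivRange D.c).toEquiv.subtypeEquiv ?_)
      intro q
      obtain ⟨g, rfl⟩ := QuotientGroup.mk_surjective q
      constructor
      · rintro ⟨x, hx, hxg⟩
        have h1 := congrArg (QuotientGroup.quotientKerEquivRange D.c) hxg
        have h2 : D.c x = D.c g := congrArg Subtype.val h1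
        change D.c g ∈ S
        rw [← h2]
        exact hx
      · intro hg
        exact ⟨g, hg, rfl⟩
    rw [e1, e2] at h
    exact h
  · intro σ hσ τ
    change D.c (τ * σ * τ⁻¹) ∈ S
    rw [map_mul, map_mul, map_inv]
    exact hS _ hσ _
  · intro σ hσ u hu
    change D.c (σ * u) ∈ S
    rw [map_mul, MonoidHom.mem_ker.1 hu, mul_one]
    exact hσ

end Pool.Agent.Zk8.KT
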