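import Pool.Agent.Zk8.KT.Newt

/-!
# Slopes of K3 type and divisibility of the coefficients
-/

set_option autoImplicit false

namespace Pool.Agent.Zk8.KT

open Module Polynomial

section padic

variable {C : Type} [Field C] (val : AddValuation C (WithTop ℚ)) {p : ℕ}

lemma nsmul_one_top (k : ℕ) : (k • (1 : WithTop ℚ)) = ((k : ℚ) : WithTop ℚ) := by
  induction k with
  | zero => simp
  | succ k ih =>
    rw [succ_nsmul, ih]
    push_cast
    rfl

lemma val_int_nonneg (n : ℤ) : 0 ≤ val (n : C) := by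
  induction n using Int.induction_on with
  | zero => simp
  | succ n ih =>
    push_cast at ih ⊢
    refine (le_min ih ?_).trans (val.map_add _ _)
    rw [val.map_one]
  | pred n ih =>
    push_cast at ih ⊢
    refine (le_min ih ?_).trans (val.map_sub _ _)
    rw [val.map_one]

variable {val}

lemma dvd_of_val_pos (hp : p.Prime) (hval : val (p : C) = 1) {z : ℤ} (h : 0 < val (z : C)) :
    (p : ℤ) ∣ z := by
  by_contra hnd
  have hc : IsCoprime (p : ℤ) z :=
    (Nat.prime_iff_prime_int.1 hp).irreducible.coprime_iff_not_dvd.2 hnd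
  obtain ⟨a, b, hab⟩ := hc
  have h5 : val (1 : C) = 0 := val.map_one
  have h6 : (1 : C) = (a : C) * (p : C) + (b : C) * (z : C) := by
    have := congrArg (fun z : ℤ => (z : C)) hab
    push_cast at this
    exact this.symm
  have h7 : 0 < val (1 : C) := by
    rw [h6]
    refine (lt_min ?_ ?_).trans_le (val.map_add _ _)
    · rw [val.map_mul, hval]
      exact lt_of_lt_of_le zero_lt_one (le_add_of_nonneg_left (val_int_nonneg val a))
    · rw [val.map_mul]
      exact lt_of_lt_of_le h (le_add_of_nonneg_left (val_int_nonneg val b))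
  rw [h5] at h7
  exact lt_irrefl _ h7

lemma pow_dvd_of_val (hp : p.Prime) (hval : val (p : C) = 1) (k : ℕ) {z : ℤ}
    (h : (((k : ℚ) - 1 : ℚ) : WithTop ℚ) < val (z : C)) : (p : ℤ) ^ k ∣ z := by
  induction k generalizing z with
  | zero => simp
  | succ k ih =>
    obtain ⟨y, rfl⟩ := ih (z := z) (lt_trans (by
      rw [WithTop.coe_lt_coe]; push_cast; linarith) h)
    have h1 : val (((p : ℤ) ^ k * y : ℤ) : C) = ((k : ℚ) : WithTop ℚ) + val (y : C) := by
      rw [Int.cast_mul, Int.cast_pow, Int.cast_natCast, val.map_mul, val.map_pow, hval]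
      rw [nsmul_one_top]
    rw [h1] at h
    have h2 : 0 < val (y : C) := by
      by_contra hcon
      push Not at hcon
      have h3 : ((k : ℚ) : WithTop ℚ) + val (y : C) ≤ ((k : ℚ) : WithTop ℚ) + 0 := by
        gcongr
      rw [add_zero] at h3
      have h4 := lt_of_lt_of_le h h3
      rw [WithTop.coe_lt_coe] at h4
      push_cast at h4
      linarith
    rw [pow_succ]
    exact mul_dvd_mul_left _ (dvd_of_val_pos hp hval h2)

lemma val_of_pow_dvd (hval : val (p : C) = 1) (k : ℕ) {z : ℤ} (h : (p : ℤ) ^ k ∣ z) :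
    (((k : ℚ) : ℚ) : WithTop ℚ) ≤ val (z : C) := by
  obtain ⟨y, rfl⟩ := h
  push_cast
  rw [val.map_mul, val.map_pow, hval, nsmul_one_top]
  exact le_add_of_nonneg_right (val_int_nonneg val y)

lemma val_prod {b : ℕ} {α : Fin b → C} {w : Fin b → ℚ} (hw : ∀ j, val (α j) = (w j : ℚ))
    (T : Finset (Fin b)) : val (∏ j ∈ T, α j) = ((∑ j ∈ T, w j : ℚ) : WithTop ℚ) := by
  classical
  induction T using Finset.induction_on with
  | empty => simp
  | insert a s ha ih =>
    rw [Finset.prod_insert ha, Finset.sum_insert ha, val.map_mul, ih, hw, WithTop.coe_add]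

variable {b : ℕ} {α : Fin b → C} {w : Fin b → ℚ} (hw : ∀ j, val (α j) = (w j : ℚ))

include hw in
/-- all slopes at least `1` -/
lemma val_es_of_ge (h : ∀ j, 1 ≤ w j) (k : ℕ) : ((k : ℚ) : WithTop ℚ) ≤ val (es α k) := by
  rw [es]
  apply val.map_le_sum
  intro T hT
  rw [val_prod hw, WithTop.coe_le_coe]
  rw [Finset.mem_powersetCard] at hT
  rw [← hT.2]
  calc ((T.card : ℕ) : ℚ) = ∑ j ∈ T, (1 : ℚ) := by simp
    _ ≤ ∑ j ∈ T, w j := Finset.sum_le_sum fun j _ => h j

/-- the indices with slope less than `1` -/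
def J (w : Fin b → ℚ) : Finset (Fin b) := Finset.univ.filter fun j => w j < 1

/-- a sum over a set which does not contain `J` -/
lemma sum_gt (T : Finset (Fin b))
    (hT : ¬ J w ⊆ T) : (∑ j ∈ J w, w j) - (J w).card + T.card < ∑ j ∈ T, w j := by
  classical
  have h1 : ∑ j ∈ T, w j = ∑ j ∈ J w ∩ T, w j + ∑ j ∈ T \ J w, w j := by
    rw [← Finset.sum_inter_add_sum_sdiff T (J w), Finset.inter_comm]
  have h2 : ∑ j ∈ J w, w j = ∑ j ∈ J w ∩ T, w j + ∑ j ∈ J w \ T, w j :=
    (Finset.sum_inter_add_sum_sdiff (J w) T _).symm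
  have h3 : ((T \ J w).card : ℚ) ≤ ∑ j ∈ T \ J w, w j := by
    calc (((T \ J w).card : ℕ) : ℚ) = ∑ j ∈ T \ J w, (1 : ℚ) := by simp
      _ ≤ _ := Finset.sum_le_sum fun j hj => by
        rw [Finset.mem_sdiff, J, Finset.mem_filter] at hj
        by_contra hc
        exact hj.2 ⟨Finset.mem_univ _, not_le.1 hc⟩
  have hne : (J w \ T).Nonempty := by
    rw [Finset.sdiff_nonempty]
    exact hT
  have h4 : ∑ j ∈ J w \ T, w j < ((J w \ T).card : ℚ) := by
    calc ∑ j ∈ J w \ T, w j < ∑ j ∈ J w \ T, (1 : ℚ) :=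
        Finset.sum_lt_sum_of_nonempty hne fun j hj => by
          rw [Finset.mem_sdiff, J, Finset.mem_filter] at hj
          exact hj.1.2
      _ = _ := by simp
  have h5 : (T.card : ℚ) = (J w ∩ T).card + (T \ J w).card := by
    have := Finset.card_inter_add_card_sdiff T (J w)
    rw [Finset.inter_comm] at this
    exact_mod_cast this.symm
  have h6 : ((J w).card : ℚ) = (J w ∩ T).card + (J w \ T).card := by
    have := Finset.card_inter_add_card_sdiff (J w) T
    exact_mod_cast this.symm
  linarith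

include hw in
lemma val_es_lt (hJ : ((J w).card : ℚ) - 1 ≤ ∑ j ∈ J w, w j) {k : ℕ} (hk : k < (J w).card) :
    (((k : ℚ) - 1 : ℚ) : WithTop ℚ) < val (es α k) := by
  rw [es]
  apply val.map_lt_sum
  · exact WithTop.coe_ne_top
  intro T hT
  rw [val_prod hw, WithTop.coe_lt_coe]
  rw [Finset.mem_powersetCard] at hT
  have h := sum_gt (w := w) T fun hsub => by
    have := Finset.card_le_card hsub
    omega
  rw [hT.2] at h
  linarith

include hw in
lemma val_es_eq :
    val (es α (J w).card) = ((∑ j ∈ J w, w j : ℚ) : WithTop ℚ) := by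
  classical
  have hmem : J w ∈ Finset.powersetCard (J w).card Finset.univ := by
    rw [Finset.mem_powersetCard]
    exact ⟨Finset.subset_univ _, rfl⟩
  rw [es, ← Finset.add_sum_erase _ _ hmem, val.map_add_eq_of_lt_left, val_prod hw]
  rw [val_prod hw]
  apply val.map_lt_sum
  · exact WithTop.coe_ne_top
  intro T hT
  rw [Finset.mem_erase, Finset.mem_powersetCard] at hT
  rw [val_prod hw, WithTop.coe_lt_coe]
  have h := sum_gt (w := w) T fun hsub => hT.1 (Finset.eq_of_subset_of_card_le hsub hT.2.2.le).symm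
  rw [hT.2.2] at h
  linarith

/-- **the height and the divisibility of the coefficients** -/
theorem height_dvd (hp : p.Prime) (hval : val (p : C) = 1)
    (hw : ∀ j, val (α j) = (w j : ℚ))
    (hJ : ((J w).card : ℚ) - 1 ≤ ∑ j ∈ J w, w j) (e : ℕ → ℤ)
    (he : ∀ k, ((e k : ℤ) : C) = (-1) ^ k * es α k) :
    ((J w).card = 0 → ∀ k, (p : ℤ) ^ k ∣ e k) ∧
    (∀ k, k < (J w).card → (p : ℤ) ^ k ∣ e k) ∧
    (0 < (J w).card → ¬ (p : ℤ) ^ (J w).card ∣ e (J w).card) := by
  have hv : ∀ k, val ((e k : ℤ) : C) = val (es α k) := by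
    intro k
    rw [he, val.map_mul, val.map_pow, val.map_neg, val.map_one, smul_zero, zero_add]
  refine ⟨?_, ?_, ?_⟩
  · intro h0 k
    apply pow_dvd_of_val hp hval
    rw [hv]
    refine lt_of_lt_of_le ?_ (val_es_of_ge hw ?_ k)
    · rw [WithTop.coe_lt_coe]; linarith
    · intro j
      by_contra hc
      rw [Finset.card_eq_zero] at h0
      have : j ∈ J w := by
        rw [J, Finset.mem_filter]
        exact ⟨Finset.mem_univ _, not_le.1 hc⟩
      rw [h0] at this
      simp at this
  · intro k hk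
    apply pow_dvd_of_val hp hval
    rw [hv]
    exact val_es_lt hw hJ hk
  · intro h0 hdvd
    have h1 := val_of_pow_dvd hval _ hdvd
    rw [hv, val_es_eq hw, WithTop.coe_le_coe] at h1
    have h2 : ∑ j ∈ J w, w j < ((J w).card : ℚ) := by
      calc ∑ j ∈ J w, w j < ∑ j ∈ J w, (1 : ℚ) :=
          Finset.sum_lt_sum_of_nonempty (Finset.card_pos.1 h0) fun j hj => by
            rw [J, Finset.mem_filter] at hj
            exact hj.2
        _ = _ := by simp
    linarith

end padic

end Pool.Agent.Zk8.KT
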