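import Pool.Agent.Zk8.KT.Defs
import Pool.Agent.Zk8.KT.Alg3
import Pool.Agent.Zk8.KT.Padic

/-!
# Galois side
-/

set_option autoImplicit false

namespace Pool.Agent.Zk8.KT

open Module NumberField IsDedekindDomain Matrix
open Pool.Agent.W401.Cheb Pool.Agent.N184.HK

variable {K : Type} [Field K] [NumberField K] {ℓ : ℕ} [Fact ℓ.Prime] {X : Hyperkaehler K ℓ}
  (D : Transcendental X)

/-- The algebraic closure. -/
abbrev Om (ℓ : ℕ) [Fact ℓ.Prime] : Type := AlgebraicClosure ℚ_[ℓ]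

instance : CharZero (Om ℓ) :=
  charZero_of_injective_algebraMap (algebraMap ℚ_[ℓ] (Om ℓ)).injective

lemma trace_map_om {m : ℕ} (M : Matrix (Fin m) (Fin m) ℚ_[ℓ]) :
    (M.map (algebraMap ℚ_[ℓ] (Om ℓ))).trace = algebraMap ℚ_[ℓ] (Om ℓ) M.trace := by
  simp [Matrix.trace]

/-- The action over the algebraic closure. -/
noncomputable def actOm : D.E →ₐ[ℚ] Matrix (Fin D.m) (Fin D.m) (Om ℓ) :=
  (((algebraMap ℚ_[ℓ] (Om ℓ)).mapMatrix).comp D.act.toRingHom).toRatAlgHom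

lemma actOm_apply (e : D.E) : actOm D e = (D.act e).map (algebraMap ℚ_[ℓ] (Om ℓ)) := rfl

/-- The semilinear isometry over the algebraic closure. -/
noncomputable def Transcendental.dat (σ : GK K) : Dat (Om ℓ) D.E D.m where
  act := actOm D
  n := D.n
  npos := D.npos
  tr_act := by
    intro e
    have h := D.tr_act e
    rw [actOm_apply, trace_map_om, h, map_mul, map_natCast]
    congr 1
  ψ := D.ψ.map (algebraMap ℚ_[ℓ] (Om ℓ))
  symm := by rw [← Matrix.transpose_map, D.symm]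
  nondeg := D.nondeg.map ((algebraMap ℚ_[ℓ] (Om ℓ)).mapMatrix)
  conj := D.conj
  adj := by
    intro e
    rw [actOm_apply, actOm_apply, ← Matrix.map_mul, D.adj, Matrix.map_mul, Matrix.transpose_map]
  A := (D.τ σ).map (algebraMap ℚ_[ℓ] (Om ℓ))
  a := D.c σ
  semil := by
    intro e
    rw [actOm_apply, actOm_apply, ← Matrix.map_mul, D.semil, Matrix.map_mul]
  iso := by
    rw [← Matrix.transpose_map, ← Matrix.map_mul, ← Matrix.map_mul, D.iso]

/-- The matrix of variables. -/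
noncomputable def varMat (m : ℕ) : Matrix (Fin m) (Fin m) (MvPolynomial (Fin m × Fin m) ℚ_[ℓ]) :=
  fun i j => MvPolynomial.X (i, j)

/-- the trace polynomial -/
noncomputable def trPoly {m : ℕ} (A : Matrix (Fin m) (Fin m) ℚ_[ℓ]) (f : ℕ) (k : ℚ_[ℓ]) :
    MvPolynomial (Fin m × Fin m) ℚ_[ℓ] :=
  ((A.map MvPolynomial.C * varMat m) ^ f).trace - MvPolynomial.C k

lemma aeval_trPoly {m : ℕ} {S : Type} [CommRing S] [Algebra ℚ_[ℓ] S]
    (A : Matrix (Fin m) (Fin m) ℚ_[ℓ]) (f : ℕ) (k : ℚ_[ℓ]) (M : Matrix (Fin m) (Fin m) S) :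
    MvPolynomial.aeval (fun x : Fin m × Fin m => M x.1 x.2) (trPoly A f k) =
      ((A.map (algebraMap ℚ_[ℓ] S) * M) ^ f).trace - algebraMap ℚ_[ℓ] S k := by
  set φ : MvPolynomial (Fin m × Fin m) ℚ_[ℓ] →ₐ[ℚ_[ℓ]] S :=
    MvPolynomial.aeval (fun x : Fin m × Fin m => M x.1 x.2) with hφ
  rw [trPoly, map_sub]
  have h1 : φ (MvPolynomial.C k) = algebraMap ℚ_[ℓ] S k := by
    rw [hφ, MvPolynomial.aeval_C]
  have h2 : φ (((A.map MvPolynomial.C * varMat m) ^ f).trace) =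
      ((φ.toRingHom.mapMatrix (A.map MvPolynomial.C * varMat m)) ^ f).trace := by
    rw [← map_pow]
    simp [Matrix.trace]
  have h3 : φ.toRingHom.mapMatrix (A.map MvPolynomial.C * varMat m) =
      A.map (algebraMap ℚ_[ℓ] S) * M := by
    rw [map_mul]
    congr 1
    · ext i j
      simp [hφ]
    · ext i j
      simp [hφ, varMat]
  rw [h1, h2, h3]

/-- The trace of the `f`-th power is not constant on a coset of an open subgroup. -/
theorem nonconst (γ : GK K) (hγ : ¬ (D.n = 1 ∧ D.conj ∈ Subgroup.zpowers (D.c γ)))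
    (U : Subgroup (GK K)) (hU : IsOpen (U : Set (GK K))) (k : ℚ_[ℓ]) :
    ¬ ∀ u ∈ U, ((D.τ (γ * u)) ^ orderOf (D.c γ)).trace = k := by
  intro hall
  have h1 : ∀ u ∈ U, MvPolynomial.eval (fun x => D.τ u x.1 x.2)
      (trPoly (D.τ γ) (orderOf (D.c γ)) k) = 0 := by
    intro u hu
    have h := aeval_trPoly (D.τ γ) (orderOf (D.c γ)) k (D.τ u)
    rw [MvPolynomial.aeval_eq_eval] at h
    rw [h]
    have h2 := hall u hu
    rw [map_mul] at h2
    have e : (D.τ γ).map (algebraMap ℚ_[ℓ] ℚ_[ℓ]) = D.τ γ := by ext i j; rfl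
    rw [e, h2]
    exact sub_self k
  have h2 := D.mt U hU _ h1
  have h3 : ∀ M : Matrix (Fin D.m) (Fin D.m) (Om ℓ),
      (∀ e, M * (D.dat γ).act e = (D.dat γ).act e * M) →
      Mᵀ * (D.dat γ).ψ * M = (D.dat γ).ψ →
      (((D.dat γ).A * (M * M)) ^ orderOf (D.dat γ).a).trace = algebraMap ℚ_[ℓ] (Om ℓ) k := by
    intro M hM1 hM2
    have h4 := h2 M hM1 hM2
    rw [aeval_trPoly] at h4
    exact sub_eq_zero.1 h4
  obtain ⟨M, hM1, hM2, hne⟩ := (D.dat γ).exists_ne D.real hγ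
  apply hne
  have h5 := h3 1 (fun e => by rw [one_mul, mul_one]) (by
    rw [transpose_one, one_mul, mul_one])
  rw [mul_one, mul_one] at h5
  rw [h3 M hM1 hM2, h5]

/-- the exceptional case -/
theorem pow_one_of (γ : GK K) (hn : D.n = 1) (h : D.conj ∈ Subgroup.zpowers (D.c γ)) :
    (D.τ γ) ^ orderOf (D.c γ) = 1 := by
  have hc : D.conj ≠ 1 := fun h1 => by
    have := D.real h1
    omega
  have h1 := (D.dat γ).pow_eq_one hn hc h
  have h2 : ((D.τ γ) ^ orderOf (D.c γ)).map (algebraMap ℚ_[ℓ] (Om ℓ)) =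
      (1 : Matrix (Fin D.m) (Fin D.m) ℚ_[ℓ]).map (algebraMap ℚ_[ℓ] (Om ℓ)) := by
    rw [Matrix.map_pow, Matrix.map_one _ (map_zero _) (map_one _)]
    exact h1
  exact Matrix.map_injective (algebraMap ℚ_[ℓ] (Om ℓ)).injective h2

lemma act_inj : Function.Injective D.act := by
  intro x y h
  apply (D.dat 1).act_inj
  change actOm D x = actOm D y
  rw [actOm_apply, actOm_apply, h]

/-- powers -/
lemma semil_pow (σ : GK K) (k : ℕ) (e : D.E) :
    (D.τ σ) ^ k * D.act e = D.act ((D.c σ ^ k) e) * (D.τ σ) ^ k := by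
  rw [← map_pow, D.semil, ← map_pow]

/-- the trace of a power which acts nontrivially on `E` is zero -/
theorem trace_zero (σ : GK K) (k : ℕ) (h : D.c σ ^ k ≠ 1) : ((D.τ σ) ^ k).trace = 0 := by
  obtain ⟨e, he⟩ : ∃ e, (D.c σ ^ k) e ≠ e := by
    by_contra hc
    push Not at hc
    exact h (AlgEquiv.ext hc)
  set A := (D.τ σ) ^ k
  set d := (D.c σ ^ k) e - e with hd
  have hd0 : d ≠ 0 := sub_ne_zero.2 he
  have h1 : A * D.act e - D.act e * A = D.act d * A := by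
    rw [hd, map_sub, sub_mul, semil_pow]
  have h2 : A = D.act d⁻¹ * (A * D.act e) - D.act d⁻¹ * (D.act e * A) := by
    rw [← mul_sub, h1, ← mul_assoc, ← map_mul, inv_mul_cancel₀ hd0, map_one, one_mul]
  rw [h2, Matrix.trace_sub, ← mul_assoc, Matrix.trace_mul_comm _ (D.act e), ← mul_assoc, ← map_mul,
    ← mul_assoc, ← map_mul, mul_comm e, sub_self]

end Pool.Agent.Zk8.KT
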