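import Pool.Agent.Zk8.KT.Lin

/-!
# The height at the places of degree one
-/

set_option autoImplicit false
set_option linter.all false

namespace Pool.Agent.Zk8.KT

open Module NumberField IsDedekindDomain Matrix Polynomial
open Pool.Agent.W401.Cheb Pool.Agent.N184.HK

section comb

variable {b : ℕ}

/-- the set of the small slopes is an initial segment -/
lemma J_eq {ns : Fin b → ℚ} (mono : Monotone ns) :
    J ns = Finset.univ.filter fun j : Fin b => (j : ℕ) < (J ns).card := by
  ext j
  rw [Finset.mem_filter]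
  constructor
  · intro hj
    refine ⟨Finset.mem_univ _, ?_⟩
    have hsub : Finset.Iic j ⊆ J ns := by
      intro i hi
      rw [J, Finset.mem_filter] at hj ⊢
      exact ⟨Finset.mem_univ _, lt_of_le_of_lt (mono (Finset.mem_Iic.1 hi)) hj.2⟩
    have h := Finset.card_le_card hsub
    rw [Fin.card_Iic] at h
    omega
  · rintro ⟨-, hj⟩
    by_contra hc
    have hsub : J ns ⊆ Finset.Iio j := by
      intro i hi
      rw [Finset.mem_Iio]
      by_contra h2
      rw [not_lt] at h2
      apply hc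
      rw [J, Finset.mem_filter] at hi ⊢
      exact ⟨Finset.mem_univ _, lt_of_le_of_lt (mono h2) hi.2⟩
    have h := Finset.card_le_card hsub
    rw [Fin.card_Iio] at h
    omega

/-- the Newton polygon lies above the Hodge polygon -/
lemma J_sum {ns hs : Fin b → ℚ} (mono : Monotone ns)
    (above : ∀ k : ℕ, ∑ j ∈ Finset.univ.filter (fun j : Fin b => (j : ℕ) < k), hs j ≤
      ∑ j ∈ Finset.univ.filter (fun j : Fin b => (j : ℕ) < k), ns j)
    (hodge : ∀ j : Fin b, hs j = if (j : ℕ) = 0 then 0 else if (j : ℕ) + 1 = b then 2 else 1) :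
    ((J ns).card : ℚ) - 1 ≤ ∑ j ∈ J ns, ns j := by
  have h1 := above (J ns).card
  rw [← J_eq mono] at h1
  refine le_trans ?_ h1
  have h2 : ∀ j ∈ J ns, (1 : ℚ) - (if (j : ℕ) = 0 then 1 else 0) ≤ hs j := by
    intro j _
    rw [hodge]
    split_ifs <;> norm_num
  refine le_trans ?_ (Finset.sum_le_sum h2)
  rw [Finset.sum_sub_distrib, Finset.sum_const, nsmul_eq_mul, mul_one]
  apply sub_le_sub_left
  rw [Finset.sum_ite, Finset.sum_const_zero, add_zero, Finset.sum_const, nsmul_eq_mul, mul_one]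
  have h3 : ((J ns).filter fun j : Fin b => (j : ℕ) = 0).card ≤ 1 := by
    rw [Finset.card_le_one]
    intro x hx y hy
    rw [Finset.mem_filter] at hx hy
    exact Fin.ext (hx.2.trans hy.2.symm)
  exact_mod_cast h3

lemma J_multiset {w ns : Fin b → ℚ} (h : Finset.univ.val.map w = Finset.univ.val.map ns) :
    (J w).card = (J ns).card ∧ ∑ j ∈ J w, w j = ∑ j ∈ J ns, ns j := by
  have h1 : ∀ u : Fin b → ℚ, (J u).val.map u = (Finset.univ.val.map u).filter (· < 1) := by
    intro u
    rw [J, Finset.filter_val, Multiset.filter_map]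
    rfl
  have h2 : (J w).val.map w = (J ns).val.map ns := by rw [h1, h1, h]
  constructor
  · have h3 := congrArg Multiset.card h2
    rw [Multiset.card_map, Multiset.card_map] at h3
    exact h3
  · exact congrArg Multiset.sum h2

end comb

variable {K : Type} [Field K] [NumberField K] {ℓ : ℕ} [Fact ℓ.Prime] {X : Hyperkaehler K ℓ}
  {v : HeightOneSpectrum (𝓞 K)} (hv : v ∉ X.bad)

lemma height_eq : height X v hv = (J ((X.place v hv).ns 2)).card := rfl

lemma norm_val : (X.place v hv).val ((Ideal.absNorm v.asIdeal : ℕ) : (X.place v hv).C) = 1 := by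
  rw [← X.norm_eq v hv]
  exact (X.place v hv).norm

/-- the roots in the field of the place -/
lemma exists_roots : ∃ (α : Fin (X.b 2) → (X.place v hv).C) (w : Fin (X.b 2) → ℚ),
    (X.poly v).map (Int.castRingHom (X.place v hv).C) = ∏ j, (Polynomial.X - C (α j)) ∧
    (∀ j, (X.place v hv).val (α j) = (w j : ℚ)) ∧
    Finset.univ.val.map w = Finset.univ.val.map ((X.place v hv).ns 2) := by
  have h1 := (X.place v hv).slopes 2 X.two_le
  have h2 := X.poly_p v hv
  rw [GoodPlace.cp] at h2
  obtain ⟨α, hα, hp⟩ := exists_enum (q := (X.poly v).map (Int.castRingHom (X.place v hv).C))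
    ((monic_poly X hv).map _) (b := X.b 2)
    (by rw [natDegree_map_eq_of_injective (RingHom.injective_int _), degree_poly hv])
  rw [h2, hα, Multiset.map_map] at h1
  have hne : ∀ j, α j ≠ 0 := by
    intro j hj
    have h3 : (X.place v hv).val (α j) ∈
        Finset.univ.val.map (fun j => (((X.place v hv).ns 2 j : ℚ) : WithTop ℚ)) := by
      rw [← h1]
      exact Multiset.mem_map_of_mem ((fun e => (X.place v hv).val e) ∘ α) (Finset.mem_univ j)
    obtain ⟨i, -, hi⟩ := Multiset.mem_map.1 h3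
    rw [hj, AddValuation.map_zero] at hi
    exact WithTop.coe_ne_top hi
  refine ⟨α, fun j => (X.place v hv).w (α j), hp, fun j => ((X.place v hv).coe_w (hne j)).symm, ?_⟩
  have h4 := congrArg (Multiset.map (fun x : WithTop ℚ => x.untopD 0)) h1
  rw [Multiset.map_map, Multiset.map_map] at h4
  exact h4

/-- the height and the divisibility of the coefficients -/
theorem height_spec (hp : (Ideal.absNorm v.asIdeal).Prime) :
    (height X v hv = 0 → ∀ k, (Ideal.absNorm v.asIdeal : ℤ) ^ k ∣ ev X v k) ∧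
    (∀ k, k < height X v hv → (Ideal.absNorm v.asIdeal : ℤ) ^ k ∣ ev X v k) ∧
    (0 < height X v hv →
      ¬ (Ideal.absNorm v.asIdeal : ℤ) ^ height X v hv ∣ ev X v (height X v hv)) := by
  obtain ⟨α, w, hα, hw, hm⟩ := exists_roots hv
  obtain ⟨h1, h2⟩ := J_multiset hm
  have hJ : ((J w).card : ℚ) - 1 ≤ ∑ j ∈ J w, w j := by
    rw [h1, h2]
    exact J_sum ((X.place v hv).mono 2) ((X.place v hv).above 2 X.two_le) X.hodge
  have h := height_dvd (p := Ideal.absNorm v.asIdeal) hp (norm_val hv) hw hJ (ev X v) (by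
    intro k
    rw [← reverse_prod, ← hα, reverse_map_coeff (RingHom.injective_int _)]
    rfl)
  rw [h1] at h
  exact h

/-- the height is zero if all roots have the valuation one -/
theorem height_zero_of (h : ∃ M : ℕ, 0 < M ∧
    ∀ z : (X.place v hv).C, ((X.poly v).map (Int.castRingHom (X.place v hv).C)).IsRoot z →
      z ^ M = ((Ideal.absNorm v.asIdeal : ℕ) : (X.place v hv).C) ^ M) : height X v hv = 0 := by
  obtain ⟨M, hM, h⟩ := h
  obtain ⟨α, w, hα, hw, hm⟩ := exists_roots hv
  rw [height_eq, ← (J_multiset hm).1, Finset.card_eq_zero]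
  rw [J, Finset.filter_eq_empty_iff]
  intro j _
  have h1 : (α j) ^ M = ((Ideal.absNorm v.asIdeal : ℕ) : (X.place v hv).C) ^ M := by
    apply h
    rw [hα, IsRoot, eval_prod]
    exact Finset.prod_eq_zero (Finset.mem_univ j) (by simp)
  have h2 := congrArg (X.place v hv).val h1
  rw [AddValuation.map_pow, AddValuation.map_pow, hw, norm_val hv, ← WithTop.coe_one,
    ← WithTop.coe_nsmul, ← WithTop.coe_nsmul, WithTop.coe_inj, nsmul_eq_mul, nsmul_eq_mul] at h2
  have hM' : (M : ℚ) ≠ 0 := by exact_mod_cast hM.ne'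
  rw [mul_left_cancel₀ hM' h2]
  exact lt_irrefl _

variable (D : Transcendental X)

include D in
/-- a power of the Frobenius which is a scalar -/
theorem height_zero_of_pow {σ : GK K} (hσ : IsFrob v σ) (h : ∃ M : ℕ, 0 < M ∧ (D.τ σ) ^ M = 1) :
    height X v hv = 0 := by
  obtain ⟨M, hM, h⟩ := h
  -- a power of `NS σ` is the identity
  obtain ⟨M', hM', h'⟩ : ∃ M' : ℕ, 0 < M' ∧ (D.NS σ) ^ M' = 1 := by
    have : ¬ Function.Injective (fun k : ℕ => (⟨D.NS (σ ^ k), σ ^ k, rfl⟩ : Set.range D.NS)) := by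
      intro hinj
      have : Finite (Set.range D.NS) := D.finite
      exact not_injective_infinite_finite _ hinj
    rw [Function.Injective] at this
    push Not at this
    obtain ⟨i, j, hij, hne⟩ := this
    have hij' : D.NS (σ ^ i) = D.NS (σ ^ j) := congrArg Subtype.val hij
    have key : ∀ i j : ℕ, i < j → D.NS (σ ^ i) = D.NS (σ ^ j) → (D.NS σ) ^ (j - i) = 1 := by
      intro i j hlt he
      have h1 : D.NS (σ ^ i)⁻¹ * D.NS (σ ^ i) = 1 := by
        rw [← map_mul, inv_mul_cancel, map_one]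
      rw [← map_pow]
      have h2 : σ ^ (j - i) = (σ ^ i)⁻¹ * σ ^ j := by
        rw [eq_inv_mul_iff_mul_eq, ← pow_add]
        congr 1
        omega
      rw [h2, map_mul, ← he, h1]
    rcases lt_or_gt_of_ne hne with h1 | h1
    · exact ⟨j - i, by omega, key i j h1 hij'⟩
    · exact ⟨i - j, by omega, key j i h1 hij'.symm⟩
  set p := Ideal.absNorm v.asIdeal with hpdef
  set Q : Matrix (Fin D.ρ ⊕ Fin D.m) (Fin D.ρ ⊕ Fin D.m) ℚ_[ℓ] :=
    (p : ℚ_[ℓ]) • Matrix.fromBlocks ((D.NS σ).map (Int.castRingHom ℚ_[ℓ])) 0 0 (D.τ σ) with hQ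
  have hblock : ∀ k : ℕ, (Matrix.fromBlocks ((D.NS σ).map (Int.castRingHom ℚ_[ℓ])) 0 0 (D.τ σ)) ^ k =
      Matrix.fromBlocks (((D.NS σ).map (Int.castRingHom ℚ_[ℓ])) ^ k) 0 0 ((D.τ σ) ^ k) := by
    intro k
    induction k with
    | zero => simp
    | succ k ih =>
      rw [pow_succ, ih, Matrix.fromBlocks_multiply]
      simp [pow_succ]
  have hQM : Q ^ (M * M') = ((p : ℚ_[ℓ]) ^ (M * M')) • 1 := by
    rw [hQ, _root_.smul_pow, hblock, pow_mul (D.τ σ), h, one_pow, mul_comm M M',
      pow_mul (_ : Matrix _ _ ℚ_[ℓ]), ← Matrix.map_pow, h',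
      Matrix.map_one _ (map_zero _) (map_one _), one_pow, Matrix.fromBlocks_one]
  have hpoly : Q.charpoly = (X.poly v).map (Int.castRingHom ℚ_[ℓ]) := by
    rw [hQ, ← cp_eq D]
    exact X.poly_l v hv σ hσ
  -- the roots over the algebraic closure of `ℚ_ℓ`
  have hroot : ∀ z : Om ℓ, aeval z ((X.poly v).map (Int.castRingHom ℚ)) = 0 →
      z ^ (M * M') = (p : Om ℓ) ^ (M * M') := by
    intro z hz
    have hz1 : (Q.map (algebraMap ℚ_[ℓ] (Om ℓ))).charpoly.IsRoot z := by
      rw [Matrix.charpoly_map, hpoly, Polynomial.map_map]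
      rw [IsRoot, eval_map]
      rw [aeval_def, eval₂_map] at hz
      rw [← hz]
      exact congrArg (fun φ => eval₂ φ z (X.poly v)) (RingHom.ext_int _ _)
    obtain ⟨x, hx0, hx⟩ : ∃ x ≠ 0, (Q.map (algebraMap ℚ_[ℓ] (Om ℓ))) *ᵥ x = z • x := by
      have h1 : Module.End.HasEigenvalue (Matrix.toLin' (Q.map (algebraMap ℚ_[ℓ] (Om ℓ)))) z := by
        rw [Module.End.hasEigenvalue_iff_isRoot_charpoly, Matrix.charpoly_toLin']
        exact hz1
      obtain ⟨x, hx⟩ := h1.exists_hasEigenvector
      refine ⟨x, hx.2, ?_⟩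
      have := hx.apply_eq_smul
      rwa [Matrix.toLin'_apply] at this
    have h2 : ∀ k : ℕ, ((Q.map (algebraMap ℚ_[ℓ] (Om ℓ))) ^ k) *ᵥ x = z ^ k • x := by
      intro k
      induction k with
      | zero => simp
      | succ k ih =>
        rw [pow_succ', ← Matrix.mulVec_mulVec, ih, Matrix.mulVec_smul, hx, smul_smul, pow_succ]
    have h3 := h2 (M * M')
    rw [← Matrix.map_pow, hQM] at h3
    have h4 : (((p : ℚ_[ℓ]) ^ (M * M')) •
        (1 : Matrix (Fin D.ρ ⊕ Fin D.m) (Fin D.ρ ⊕ Fin D.m) ℚ_[ℓ])).map (algebraMap ℚ_[ℓ] (Om ℓ)) =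
        ((p : Om ℓ) ^ (M * M')) • 1 := by
      ext i j
      rw [Matrix.map_apply, Matrix.smul_apply, Matrix.smul_apply, smul_eq_mul, smul_eq_mul,
        map_mul, map_pow, map_natCast, Matrix.one_apply, Matrix.one_apply]
      split_ifs <;> simp
    rw [h4, Matrix.smul_mulVec, Matrix.one_mulVec] at h3
    have h5 : ((p : Om ℓ) ^ (M * M') - z ^ (M * M')) • x = 0 := by
      rw [sub_smul, h3, sub_self]
    rcases smul_eq_zero.1 h5 with h6 | h6
    · exact (sub_eq_zero.1 h6).symm
    · exact absurd h6 hx0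
  apply height_zero_of hv
  refine ⟨M * M', Nat.mul_pos hM hM', fun z hz => ?_⟩
  letI : Algebra ℚ (X.place v hv).C := DivisionRing.toRatAlgebra
  have hz' : aeval z ((X.poly v).map (Int.castRingHom ℚ)) = 0 := by
    rw [aeval_def, eval₂_map]
    rw [IsRoot, eval_map] at hz
    rw [← hz]
    exact congrArg (fun φ => eval₂ φ z (X.poly v)) (RingHom.ext_int _ _)
  have hmon : ((X.poly v).map (Int.castRingHom ℚ)).Monic := (monic_poly X hv).map _
  have hint : IsIntegral ℚ z := ⟨_, hmon, hz'⟩
  set q := minpoly ℚ z with hq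
  have hdvd : q ∣ (X.poly v).map (Int.castRingHom ℚ) := minpoly.dvd ℚ z hz'
  obtain ⟨y, hy⟩ : ∃ y : Om ℓ, aeval y q = 0 := by
    have h1 : (q.map (algebraMap ℚ (Om ℓ))).degree ≠ 0 := by
      rw [degree_map]
      exact (minpoly.degree_pos hint).ne'
    obtain ⟨y, hy⟩ := IsAlgClosed.exists_root _ h1
    refine ⟨y, ?_⟩
    rw [IsRoot, eval_map] at hy
    exact hy
  have hy2 : aeval y ((X.poly v).map (Int.castRingHom ℚ)) = 0 := by
    obtain ⟨r, hr⟩ := hdvd
    rw [hr, map_mul, hy, zero_mul]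
  have hy3 := hroot y hy2
  have hqy : q = minpoly ℚ y :=
    minpoly.eq_of_irreducible_of_monic (minpoly.irreducible hint) hy (minpoly.monic hint)
  have hdvd2 : q ∣ Polynomial.X ^ (M * M') - C ((p : ℚ) ^ (M * M')) := by
    rw [hqy]
    apply minpoly.dvd
    rw [map_sub, map_pow, aeval_X, aeval_C, map_pow, map_natCast, hy3, sub_self]
  obtain ⟨r, hr⟩ := hdvd2
  have h7 := congrArg (aeval z) hr
  rw [map_mul, minpoly.aeval, zero_mul, map_sub, map_pow, aeval_X, aeval_C, map_pow, map_natCast] at h7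
  exact sub_eq_zero.1 h7

lemma generic_of_exc {a : D.E ≃ₐ[ℚ] D.E} (h : exc D a) : D.generic a = 0 := by
  unfold Transcendental.generic
  unfold exc at h
  rw [if_pos h]

lemma generic_of_not_exc {a : D.E ≃ₐ[ℚ] D.E} (h : ¬ exc D a) : D.generic a = orderOf a := by
  unfold Transcendental.generic
  unfold exc at h
  rw [if_neg h]

/-- **the height at the places of degree one** -/
theorem height_ge {σ : GK K} (hσ : IsFrob v σ) (hp : (Ideal.absNorm v.asIdeal).Prime) :
    height X v hv = 0 ∨ orderOf (D.c σ) ≤ height X v hv := by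
  obtain ⟨-, -, h3⟩ := height_spec hv hp
  by_contra hc
  push Not at hc
  exact h3 (Nat.pos_of_ne_zero hc.1) (dvd_below D hv hσ hc.2)

/-- the exceptional case -/
theorem height_exc {σ : GK K} (hσ : IsFrob v σ) (h : D.generic (D.c σ) = 0) :
    height X v hv = 0 := by
  classical
  apply height_zero_of_pow hv D hσ
  by_cases h1 : exc D (D.c σ)
  · exact ⟨orderOf (D.c σ), orderOf_pos _, pow_one_of D σ h1.1 h1.2⟩
  · rw [generic_of_not_exc D h1] at h
    exact absurd h (orderOf_pos _).ne'

/-- a place of degree one whose height is not the generic one -/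
theorem height_bad {σ : GK K} (hσ : IsFrob v σ) (hp : (Ideal.absNorm v.asIdeal).Prime)
    (h : height X v hv ≠ D.generic (D.c σ)) :
    ¬ exc D (D.c σ) ∧ ((D.τ σ) ^ orderOf (D.c σ)).trace ∈ badTr D := by
  classical
  have h1 : ¬ exc D (D.c σ) := by
    intro h1
    have h2 : D.generic (D.c σ) = 0 := generic_of_exc D h1
    rw [h2] at h
    exact h (height_exc hv D hσ h2)
  refine ⟨h1, mem_badTr D hv hσ hp ?_⟩
  have h2 : D.generic (D.c σ) = orderOf (D.c σ) := generic_of_not_exc D h1
  rw [h2] at h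
  obtain ⟨h3, h4, -⟩ := height_spec hv hp
  rcases height_ge hv D hσ hp with h5 | h5
  · exact h3 h5 _
  · exact h4 _ (lt_of_le_of_ne h5 (Ne.symm h))

/-- ordinary reduction means height one -/
theorem ordinary_iff_height (hp : (Ideal.absNorm v.asIdeal).Prime) :
    X.OrdinaryIn v hv 2 ↔ height X v hv = 1 := by
  have h3 := three_le X hv
  constructor
  · intro h
    have e : (X.place v hv).ns 2 = X.hs 2 := h
    rw [height_eq, e]
    have : J (X.hs 2) = {⟨0, by omega⟩} := by
      ext j
      rw [J, Finset.mem_filter, Finset.mem_singleton, Fin.ext_iff, X.hodge]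
      simp only [Finset.mem_univ, true_and]
      split_ifs with h1 h2
      · simp [h1]
      · simp only [h1, iff_false]; norm_num
      · simp only [h1, iff_false]; norm_num
    rw [this, Finset.card_singleton]
  · intro h
    by_contra hno
    have hpos := ordinary_of_zero (three_le X hv) ((X.place v hv).mono 2)
      ((X.place v hv).above 2 X.two_le) (X.dual v hv) X.hodge hno
    have h1 := dvd_t X hv hp hpos
    obtain ⟨-, -, h2⟩ := height_spec hv hp
    rw [h] at h2
    apply h2 one_pos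
    rw [pow_one]
    have e : ev X v 1 = - X.t v := by
      rw [ev, Hyperkaehler.t, neg_neg, Polynomial.coeff_reverse, Polynomial.nextCoeff,
        degree_poly hv, if_neg (by omega), Polynomial.revAt_le (by omega)]
    rw [e]
    exact (dvd_neg).2 h1

end Pool.Agent.Zk8.KT
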