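import Pool.Agent.Zk8.KT.Den

/-!
# The reversed characteristic polynomial of the Frobenius
-/

set_option autoImplicit false
set_option linter.all false

namespace Pool.Agent.Zk8.KT

open Module NumberField IsDedekindDomain Matrix Polynomial
open Pool.Agent.W401.Cheb Pool.Agent.N184.HK

section lin

variable {F : Type} [Field F]

lemma rev_smul {ι : Type} [Fintype ι] [DecidableEq ι] (M : Matrix ι ι F) (p : F) (k : ℕ) :
    (p • M).charpoly.reverse.coeff k = p ^ k * M.charpoly.reverse.coeff k := by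
  rw [Matrix.reverse_charpoly, Matrix.reverse_charpoly]
  have h : (p • M).charpolyRev = M.charpolyRev.comp (C p * X) := by
    rw [Matrix.charpolyRev, Matrix.charpolyRev, ← Polynomial.coe_compRingHom_apply,
      RingHom.map_det]
    congr 1
    ext1 i j
    simp only [RingHom.mapMatrix_apply, Matrix.map_apply, Matrix.sub_apply, Matrix.smul_apply,
      map_sub, smul_eq_mul, map_mul, Polynomial.coe_compRingHom_apply, X_comp, C_comp]
    rw [show (C p * X * C (M i j) : F[X]) = X * (C p * C (M i j)) by ring]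
    congr 1
    rw [Matrix.one_apply]
    split_ifs <;> simp
  rw [h, comp_C_mul_X_coeff, mul_comm]

lemma rev_blocks {ρ m : ℕ} (A : Matrix (Fin ρ) (Fin ρ) F) (B : Matrix (Fin m) (Fin m) F) :
    (Matrix.fromBlocks A 0 0 B).charpoly.reverse = A.charpoly.reverse * B.charpoly.reverse := by
  rw [Matrix.charpoly_fromBlocks_zero₁₂, Polynomial.reverse_mul_of_domain]

variable [CharZero F]

/-- the coefficients of the reversed characteristic polynomial of the sum -/
lemma rev_sum {ρ m : ℕ} (A : Matrix (Fin ρ) (Fin ρ) ℤ) (B : Matrix (Fin m) (Fin m) F) {f : ℕ}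
    (hf : 0 < f) (h : ∀ j, 0 < j → j < f → (B ^ j).trace = 0) :
    (∀ k, k < f → (Matrix.fromBlocks (A.map (Int.castRingHom F)) 0 0 B).charpoly.reverse.coeff k =
      ((A.charpoly.reverse.coeff k : ℤ) : F)) ∧
    (f : F) * (Matrix.fromBlocks (A.map (Int.castRingHom F)) 0 0 B).charpoly.reverse.coeff f =
      f * ((A.charpoly.reverse.coeff f : ℤ) : F) - (B ^ f).trace := by
  obtain ⟨h0, h1, h2⟩ := newton B hf h
  have hA : ∀ k, (A.map (Int.castRingHom F)).charpoly.reverse.coeff k =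
      ((A.charpoly.reverse.coeff k : ℤ) : F) := by
    intro k
    rw [Matrix.charpoly_map, reverse_map_coeff (RingHom.injective_int _)]
    rfl
  have hA0 : A.charpoly.reverse.coeff 0 = 1 := by
    rw [Polynomial.coeff_zero_reverse]
    exact Matrix.charpoly_monic A
  constructor
  · intro k hk
    rw [rev_blocks, Polynomial.coeff_mul, Finset.sum_eq_single (k, 0)]
    · rw [h0, mul_one, hA]
    · intro a ha hne
      rw [Finset.HasAntidiagonal.mem_antidiagonal] at ha
      have h3 : 0 < a.2 := by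
        rcases Nat.eq_zero_or_pos a.2 with h4 | h4
        · exact absurd (Prod.ext (by simp only; omega) h4) hne
        · exact h4
      rw [h1 a.2 h3 (by omega), mul_zero]
    · intro hne
      exact absurd (by rw [Finset.HasAntidiagonal.mem_antidiagonal]; simp) hne
  · rw [rev_blocks, Polynomial.coeff_mul]
    rw [Finset.sum_eq_add (f, 0) (0, f) (by simp [hf.ne'])]
    · rw [h0, mul_one, hA, hA, hA0, Int.cast_one, one_mul, mul_add, h2]
      ring
    · intro a ha hne
      rw [Finset.HasAntidiagonal.mem_antidiagonal] at ha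
      have h3 : 0 < a.2 := by
        rcases Nat.eq_zero_or_pos a.2 with h4 | h4
        · exact absurd (Prod.ext (by simp only; omega) h4) hne.1
        · exact h4
      have h5 : a.2 < f := by
        rcases Nat.eq_zero_or_pos a.1 with h4 | h4
        · exact absurd (Prod.ext h4 (by simp only; omega)) hne.2
        · omega
      rw [h1 a.2 h3 h5, mul_zero]
    · intro hne
      exact absurd (by rw [Finset.HasAntidiagonal.mem_antidiagonal]; simp) hne
    · intro hne
      exact absurd (by rw [Finset.HasAntidiagonal.mem_antidiagonal]; simp) hne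

end lin

section bound

/-- a bound for the coefficients of the reversed polynomial -/
lemma norm_rev_le {q : ℂ[X]} (hq : q.Monic) {b : ℕ} (hb : q.natDegree = b) {N : ℝ} (hN : 0 ≤ N)
    (h : ∀ z ∈ q.roots, ‖z‖ = N) (k : ℕ) : ‖q.reverse.coeff k‖ ≤ 2 ^ b * N ^ k := by
  obtain ⟨α, hα, hp⟩ := exists_enum hq hb
  have hn : ∀ j, ‖α j‖ = N := fun j => h _ (by
    rw [hα]
    exact Multiset.mem_map_of_mem α (Finset.mem_univ j))
  conv_lhs => rw [hp]
  rw [reverse_prod, norm_mul, norm_pow, norm_neg, norm_one, one_pow, one_mul, es]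
  calc ‖∑ T ∈ Finset.powersetCard k Finset.univ, ∏ j ∈ T, α j‖
      ≤ ∑ T ∈ Finset.powersetCard k (Finset.univ : Finset (Fin b)), ‖∏ j ∈ T, α j‖ :=
        norm_sum_le _ _
    _ = ∑ T ∈ Finset.powersetCard k (Finset.univ : Finset (Fin b)), N ^ k := by
        refine Finset.sum_congr rfl fun T hT => ?_
        rw [Finset.mem_powersetCard] at hT
        rw [norm_prod, Finset.prod_congr rfl fun j _ => hn j, Finset.prod_const, hT.2]
    _ = (b.choose k : ℝ) * N ^ k := by
        rw [Finset.sum_const, Finset.card_powersetCard, Finset.card_univ, Fintype.card_fin,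
          nsmul_eq_mul]
    _ ≤ 2 ^ b * N ^ k := by
        refine mul_le_mul_of_nonneg_right ?_ (pow_nonneg hN k)
        exact_mod_cast Nat.choose_le_two_pow b k

end bound

variable {K : Type} [Field K] [NumberField K] {ℓ : ℕ} [Fact ℓ.Prime] {X : Hyperkaehler K ℓ}
  (D : Transcendental X)

lemma cp_eq (N : ℕ) (σ : GK K) : X.R.cp N σ = ((N : ℚ_[ℓ]) •
    (Matrix.fromBlocks ((D.NS σ).map (Int.castRingHom ℚ_[ℓ])) 0 0 (D.τ σ))).charpoly := by
  rw [GalRep.cp, ← D.decomp σ, ← LinearMap.charpoly_toMatrix _ D.basis, map_smul]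

/-- the coefficients of the polynomial of the Frobenius -/
noncomputable def ev (X : Hyperkaehler K ℓ) (v : HeightOneSpectrum (𝓞 K)) (k : ℕ) : ℤ :=
  (X.poly v).reverse.coeff k

variable {v : HeightOneSpectrum (𝓞 K)} (hv : v ∉ X.bad)

include hv in
lemma ev_cast {σ : GK K} (hσ : IsFrob v σ) (k : ℕ) :
    ((ev X v k : ℤ) : ℚ_[ℓ]) = (Ideal.absNorm v.asIdeal : ℚ_[ℓ]) ^ k *
      (Matrix.fromBlocks ((D.NS σ).map (Int.castRingHom ℚ_[ℓ])) 0 0 (D.τ σ)).charpoly.reverse.coeff k := by
  have h := X.poly_l v hv σ hσ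
  rw [cp_eq D] at h
  have h2 := congrArg (fun q : ℚ_[ℓ][X] => q.reverse.coeff k) h
  change Polynomial.coeff _ k = Polynomial.coeff _ k at h2
  rw [rev_smul, reverse_map_coeff (RingHom.injective_int _)] at h2
  exact h2.symm

include hv in
lemma degree_poly : (X.poly v).natDegree = X.b 2 := by
  have h3 := LinearMap.charpoly_natDegree ((X.place v hv).F.φ 2).toLinearMap
  have h4 := X.poly_p v hv
  rw [GoodPlace.cp] at h4
  rw [h4, natDegree_map_eq_of_injective (RingHom.injective_int _),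
    card_roots (X.place v hv) X.two_le] at h3
  exact h3

include hv in
/-- the Weil bound -/
lemma ev_le (k : ℕ) : |ev X v k| ≤ 2 ^ (X.b 2) * (Ideal.absNorm v.asIdeal : ℤ) ^ k := by
  have h := norm_rev_le (q := (X.poly v).map (Int.castRingHom ℂ)) ((monic_poly X hv).map _)
    (b := X.b 2) (by rw [natDegree_map_eq_of_injective (RingHom.injective_int _), degree_poly hv])
    (N := (Ideal.absNorm v.asIdeal : ℝ)) (Nat.cast_nonneg _) (X.weil v hv) k
  rw [reverse_map_coeff (RingHom.injective_int _)] at h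
  have h2 : ‖((ev X v k : ℤ) : ℂ)‖ ≤ 2 ^ (X.b 2) * (Ideal.absNorm v.asIdeal : ℝ) ^ k := h
  rw [Complex.norm_intCast] at h2
  exact_mod_cast h2

/-- the finite set of the traces at the places whose height is not the generic one -/
def badTr : Set ℚ_[ℓ] :=
  ⋃ f ∈ Finset.range (Nat.card (D.E ≃ₐ[ℚ] D.E) + 1), ⋃ N ∈ Set.range D.NS,
    ⋃ z ∈ Finset.Icc (-(2 : ℤ) ^ (X.b 2)) (2 ^ (X.b 2)),
      {(f : ℚ_[ℓ]) * ((N.charpoly.reverse.coeff f : ℤ) : ℚ_[ℓ]) - f * (z : ℚ_[ℓ])}

lemma badTr_finite : (badTr D).Finite := by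
  refine Set.Finite.biUnion (Finset.finite_toSet _) fun f _ => ?_
  refine Set.Finite.biUnion D.finite fun N _ => ?_
  refine Set.Finite.biUnion (Finset.finite_toSet _) fun z _ => ?_
  exact Set.finite_singleton _

include hv in
/-- the coefficients below the order -/
lemma dvd_below {σ : GK K} (hσ : IsFrob v σ) {k : ℕ} (hk : k < orderOf (D.c σ)) :
    (Ideal.absNorm v.asIdeal : ℤ) ^ k ∣ ev X v k := by
  obtain ⟨h1, -⟩ := rev_sum (D.NS σ) (D.τ σ) (orderOf_pos (D.c σ)) fun j h0 hj =>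
    trace_zero D σ j (fun h => absurd (Nat.le_of_dvd h0 (orderOf_dvd_of_pow_eq_one h)) (by omega))
  refine ⟨(D.NS σ).charpoly.reverse.coeff k, ?_⟩
  have h := ev_cast D hv hσ k
  rw [h1 k hk] at h
  have h2 : ((ev X v k : ℤ) : ℚ_[ℓ]) = (((Ideal.absNorm v.asIdeal : ℤ) ^ k *
      (D.NS σ).charpoly.reverse.coeff k : ℤ) : ℚ_[ℓ]) := by
    rw [h]
    push_cast
    rfl
  exact_mod_cast h2

include hv in
/-- if the coefficient is divisible then the trace is in the finite set -/
lemma mem_badTr {σ : GK K} (hσ : IsFrob v σ) (hp : (Ideal.absNorm v.asIdeal).Prime)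
    (h : (Ideal.absNorm v.asIdeal : ℤ) ^ orderOf (D.c σ) ∣ ev X v (orderOf (D.c σ))) :
    ((D.τ σ) ^ orderOf (D.c σ)).trace ∈ badTr D := by
  obtain ⟨-, h2⟩ := rev_sum (D.NS σ) (D.τ σ) (orderOf_pos (D.c σ)) fun j h0 hj =>
    trace_zero D σ j (fun h => absurd (Nat.le_of_dvd h0 (orderOf_dvd_of_pow_eq_one h)) (by omega))
  set f := orderOf (D.c σ) with hf
  obtain ⟨z, hz⟩ := h
  have hN : (0 : ℤ) < (Ideal.absNorm v.asIdeal : ℤ) ^ f := pow_pos (by exact_mod_cast hp.pos) _
  have hb : |z| ≤ 2 ^ (X.b 2) := by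
    have h1 := ev_le hv f
    rw [hz, abs_mul, abs_of_pos hN, mul_comm] at h1
    exact le_of_mul_le_mul_right h1 hN
  have h3 := ev_cast D hv hσ f
  rw [hz] at h3
  push_cast at h3
  have hN' : (Ideal.absNorm v.asIdeal : ℚ_[ℓ]) ^ f ≠ 0 :=
    pow_ne_zero _ (by exact_mod_cast hp.ne_zero)
  have h4 := mul_left_cancel₀ hN' h3
  rw [← h4] at h2
  have h5 : ((D.τ σ) ^ f).trace = (f : ℚ_[ℓ]) *
      (((D.NS σ).charpoly.reverse.coeff f : ℤ) : ℚ_[ℓ]) - f * (z : ℚ_[ℓ]) := by
    rw [h2]; ring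
  simp only [badTr, Set.mem_iUnion]
  refine ⟨f, ?_, D.NS σ, ⟨σ, rfl⟩, z, ?_, h5⟩
  · rw [Finset.mem_range]
    exact Nat.lt_succ_of_le (Nat.le_of_dvd Nat.card_pos (orderOf_dvd_natCard _))
  · rw [Finset.mem_Icc]
    exact abs_le.1 hb

end Pool.Agent.Zk8.KT
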