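import Mathlib

/-!
# Traces of powers and coefficients of the characteristic polynomial
-/

set_option autoImplicit false

namespace Pool.Agent.Zk8.KT

open Module Polynomial

section lin

variable {Ω : Type} [Field Ω] {V : Type} [AddCommGroup V] [Module Ω V] [FiniteDimensional Ω V]

theorem trace_restrict_pow (f : End Ω V) (μ : Ω) (r : ℕ) :
    LinearMap.trace Ω (f.maxGenEigenspace μ)
      ((f ^ r).restrict (f.mapsTo_maxGenEigenspace_of_comm (Commute.self_pow f r) μ)) =
      μ ^ r * finrank Ω (f.maxGenEigenspace μ) := by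
  induction r with
  | zero =>
    have : (f ^ 0).restrict (f.mapsTo_maxGenEigenspace_of_comm (Commute.self_pow f 0) μ) =
      LinearMap.id := by
      ext x
      rfl
    rw [this, LinearMap.trace_id, pow_zero, one_mul]
  | succ r ih =>
    have hf := f.mapsTo_maxGenEigenspace_of_comm (Commute.refl f) μ
    have hg := f.mapsTo_maxGenEigenspace_of_comm (Commute.self_pow f r) μ
    have h1 : (f ^ (r + 1)).restrict
        (f.mapsTo_maxGenEigenspace_of_comm (Commute.self_pow f (r + 1)) μ) =
        (f ^ r).restrict hg ∘ₗ f.restrict hf := by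
      ext x
      rfl
    have h2 : Commute ((f ^ r).restrict hg) (f.restrict hf) :=
      LinearMap.restrict_commute (Commute.pow_self f r) _ _
    have := f.isNilpotent_restrict_maxGenEigenspace_sub_algebraMap μ
    rw [h1, LinearMap.trace_comp_eq_mul_of_commute_of_isNilpotent μ h2 this, ih, pow_succ]
    ring

variable [IsAlgClosed Ω]

/-- traces of powers -/
theorem trace_pow_roots (f : End Ω V) (r : ℕ) :
    LinearMap.trace Ω V (f ^ r) = (f.charpoly.roots.map fun z => z ^ r).sum := by
  classical
  have hds := DirectSum.isInternal_submodule_of_iSupIndep_of_iSup_eq_top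
    f.independent_maxGenEigenspace f.iSup_maxGenEigenspace_eq_top
  have h_fin : {μ | f.maxGenEigenspace μ ≠ ⊥}.Finite :=
    WellFoundedGT.finite_ne_bot_of_iSupIndep f.independent_maxGenEigenspace
  rw [LinearMap.trace_eq_sum_trace_restrict' hds h_fin
    (fun μ => f.mapsTo_maxGenEigenspace_of_comm (Commute.self_pow f r) μ)]
  rw [Finset.sum_congr rfl fun μ _ => trace_restrict_pow f μ r]
  have hS : h_fin.toFinset = f.charpoly.roots.toFinset := by
    ext μ
    rw [Set.Finite.mem_toFinset, Set.mem_ofPred_eq, Multiset.mem_toFinset,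
      Polynomial.mem_roots f.charpoly_monic.ne_zero,
      ← Polynomial.rootMultiplicity_pos f.charpoly_monic.ne_zero,
      ← LinearMap.finrank_maxGenEigenspace_eq, Module.finrank_pos_iff, ← not_subsingleton_iff_nontrivial,
      Submodule.subsingleton_iff_eq_bot]
  rw [hS, Finset.sum_multiset_map_count]
  refine Finset.sum_congr rfl fun μ _ => ?_
  rw [LinearMap.finrank_maxGenEigenspace_eq, Polynomial.count_roots, nsmul_eq_mul, mul_comm]

end lin

section esymm

variable {R : Type} [CommRing R]

/-- elementary symmetric function -/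
noncomputable def es {b : ℕ} (α : Fin b → R) (k : ℕ) : R :=
  ∑ T ∈ Finset.powersetCard k Finset.univ, ∏ j ∈ T, α j

lemma es_zero {b : ℕ} (α : Fin b → R) : es α 0 = 1 := by
  simp [es]

lemma es_aeval {b : ℕ} (α : Fin b → R) (k : ℕ) :
    MvPolynomial.aeval α (MvPolynomial.esymm (Fin b) ℤ k) = es α k := by
  rw [MvPolynomial.aeval_esymm_eq_multiset_esymm, Finset.esymm_map_val]
  rfl

lemma newton_rec {b : ℕ} (α : Fin b → R) (k : ℕ) :
    (k : R) * es α k = (-1) ^ (k + 1) *
      ∑ a ∈ (Finset.HasAntidiagonal.antidiagonal k).filter (fun a => a.1 < k),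
        (-1) ^ a.1 * es α a.1 * ∑ i, α i ^ a.2 := by
  have h := congrArg (MvPolynomial.aeval α) (MvPolynomial.mul_esymm_eq_sum (Fin b) ℤ k)
  simp only [map_mul, map_natCast, map_pow, map_neg, map_one, map_sum, es_aeval] at h
  rw [h]
  congr 1
  refine Finset.sum_congr rfl fun a _ => ?_
  congr 1
  simp [MvPolynomial.psum]

/-- if the power sums below `f` vanish -/
lemma es_of_psum [IsDomain R] [CharZero R] {b : ℕ} (α : Fin b → R) {f : ℕ} (hf : 0 < f)
    (h : ∀ j, 0 < j → j < f → ∑ i, α i ^ j = 0) :
    (∀ k, 0 < k → k < f → es α k = 0) ∧ (f : R) * es α f = (-1) ^ (f + 1) * ∑ i, α i ^ f := by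
  constructor
  · intro k h0 hk
    have h1 := newton_rec α k
    rw [Finset.sum_eq_zero, mul_zero] at h1
    · exact (mul_eq_zero.1 h1).resolve_left (by exact_mod_cast h0.ne')
    · intro a ha
      rw [Finset.mem_filter, Finset.HasAntidiagonal.mem_antidiagonal] at ha
      rw [h a.2 (by omega) (by omega), mul_zero]
  · rw [newton_rec, Finset.sum_eq_single (0, f)]
    · rw [pow_zero, es_zero, one_mul, one_mul]
    · intro a ha hne
      rw [Finset.mem_filter, Finset.HasAntidiagonal.mem_antidiagonal] at ha
      have h0 : 0 < a.1 := by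
        rcases Nat.eq_zero_or_pos a.1 with h1 | h1
        · exact absurd (Prod.ext h1 (by simp only; omega)) hne
        · exact h1
      rw [h a.2 (by omega) (by omega), mul_zero]
    · intro hne
      exact absurd (by rw [Finset.mem_filter, Finset.HasAntidiagonal.mem_antidiagonal]; exact ⟨by simp, hf⟩) hne

/-- the coefficients of the reversed polynomial -/
lemma reverse_prod [IsDomain R] {b : ℕ} (α : Fin b → R) (k : ℕ) :
    (∏ j, (X - C (α j))).reverse.coeff k = (-1) ^ k * es α k := by
  have hd : (∏ j, (X - C (α j))).natDegree = b := by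
    rw [Polynomial.natDegree_prod_of_monic _ _ fun j _ => monic_X_sub_C _]
    simp
  rw [Polynomial.coeff_reverse, hd]
  by_cases hk : k ≤ b
  · rw [Polynomial.revAt_le hk]
    have h := Multiset.prod_X_sub_C_coeff (Finset.univ.val.map α) (k := b - k) (by simp)
    rw [Multiset.map_map] at h
    have h2 : (Multiset.map ((fun t => X - C t) ∘ α) Finset.univ.val).prod =
        ∏ j, (X - C (α j)) := rfl
    rw [h2, Finset.esymm_map_val] at h
    rw [h]
    simp only [Multiset.card_map, Finset.card_val, Finset.card_univ, Fintype.card_fin]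
    rw [Nat.sub_sub_self hk]
    rfl
  · rw [Polynomial.revAt_eq_self_of_lt (by omega), Polynomial.coeff_eq_zero_of_natDegree_lt (by omega)]
    have : es α k = 0 := by
      rw [es, Finset.powersetCard_eq_empty.2 (by simpa using (by omega : b < k)), Finset.sum_empty]
    rw [this, mul_zero]

end esymm

lemma reverse_map_coeff {A B : Type} [Semiring A] [Semiring B] {φ : A →+* B}
    (hφ : Function.Injective φ) (q : A[X]) (k : ℕ) :
    (q.map φ).reverse.coeff k = φ (q.reverse.coeff k) := by
  rw [Polynomial.coeff_reverse, Polynomial.coeff_reverse,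
    Polynomial.natDegree_map_eq_of_injective hφ, Polynomial.coeff_map]

section main

variable {F : Type} [Field F] [CharZero F]

/-- enumeration of the roots -/
lemma exists_enum {Ω : Type} [Field Ω] [IsAlgClosed Ω] {q : Polynomial Ω} (hq : q.Monic) {b : ℕ}
    (hb : q.natDegree = b) : ∃ α : Fin b → Ω, q.roots = Finset.univ.val.map α ∧
      q = ∏ j, (X - C (α j)) := by
  have hc : Multiset.card q.roots = b := by
    rw [← (IsAlgClosed.splits q).natDegree_eq_card_roots, hb]
  have hl : q.roots.toList.length = b := by rw [Multiset.length_toList, hc]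
  subst hl
  refine ⟨fun j => q.roots.toList.get j, ?_, ?_⟩
  · rw [← Multiset.coe_toList q.roots]
    conv_lhs => rw [← List.ofFn_get q.roots.toList]
    rw [Multiset.coe_toList]
    rw [← Fin.univ_val_map]
  · have h1 := (IsAlgClosed.splits q).eq_prod_roots_of_monic hq
    conv_lhs => rw [h1]
    rw [← Multiset.coe_toList q.roots]
    conv_lhs => rw [← List.ofFn_get q.roots.toList]
    rw [Multiset.coe_toList, Multiset.map_coe, List.map_ofFn, Multiset.prod_coe, List.prod_ofFn]
    rfl

theorem newton {m : ℕ} (M : Matrix (Fin m) (Fin m) F) {f : ℕ} (hf : 0 < f)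
    (h : ∀ j, 0 < j → j < f → (M ^ j).trace = 0) :
    M.charpoly.reverse.coeff 0 = 1 ∧ (∀ k, 0 < k → k < f → M.charpoly.reverse.coeff k = 0) ∧
      (f : F) * M.charpoly.reverse.coeff f = - (M ^ f).trace := by
  let Ω := AlgebraicClosure F
  let ι := algebraMap F Ω
  have : CharZero Ω := charZero_of_injective_algebraMap ι.injective
  set M' : Matrix (Fin m) (Fin m) Ω := M.map ι with hM'
  have hcp : M'.charpoly = M.charpoly.map ι := by rw [hM', Matrix.charpoly_map]
  obtain ⟨α, hα, hp⟩ := exists_enum (q := M'.charpoly) (Matrix.charpoly_monic _) (b := m) (by simp)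
  have htr : ∀ j, ι (M ^ j).trace = ∑ i, α i ^ j := by
    intro j
    have h1 := trace_pow_roots (Matrix.toLin' M') j
    rw [Matrix.charpoly_toLin', hα, Multiset.map_map, ← Matrix.toLin'_pow,
      Matrix.trace_toLin'_eq] at h1
    have h2 : (M' ^ j).trace = ι (M ^ j).trace := by
      rw [hM', ← Matrix.map_pow]
      simp [Matrix.trace]
    rw [← h2, h1]
    rfl
  have hco : ∀ k, ι (M.charpoly.reverse.coeff k) = (-1) ^ k * es α k := by
    intro k
    rw [← reverse_prod, ← hp, hcp, reverse_map_coeff ι.injective]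
  obtain ⟨h1, h2⟩ := es_of_psum α hf fun j h0 hj => by rw [← htr, h j h0 hj, map_zero]
  refine ⟨?_, ?_, ?_⟩
  · apply ι.injective
    rw [hco, es_zero, pow_zero, one_mul, map_one]
  · intro k h0 hk
    apply ι.injective
    rw [hco, h1 k h0 hk, mul_zero, map_zero]
  · apply ι.injective
    rw [map_mul, map_natCast, hco, map_neg, htr, mul_left_comm, h2, ← mul_assoc, ← pow_add,
      show f + (f + 1) = 2 * f + 1 by ring, pow_succ, pow_mul, neg_one_sq,
      one_pow, one_mul, neg_one_mul]

end main

end Pool.Agent.Zk8.KT
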