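import Pool.Agent.N184.HK.Num

/-!
# The transcendental part of the second cohomology of a hyperkähler variety: the statement

`X` is a projective hyperkähler variety over a number field `K`, for example a K3 surface.
-/

set_option autoImplicit false

namespace Pool.Agent.Zk8.KT

open Module NumberField IsDedekindDomain
open Pool.Agent.W401.Cheb Pool.Agent.N184.HK

/-- The height of the reduction `X_v`: the number of the slopes of `H²` which are smaller than `1`,
`0` if there are none (infinite height, supersingular reduction). For a K3 surface this is the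
height of the formal Brauer group. -/
def ht {K : Type} [Field K] [NumberField K] {ℓ : ℕ} [Fact ℓ.Prime] (X : Hyperkaehler K ℓ)
    (v : HeightOneSpectrum (𝓞 K)) (h : v ∉ X.bad) : ℕ :=
  (Finset.univ.filter fun j => (X.place v h).ns 2 j < 1).card

/-- The matrix of `σ` for a basis of the representation. -/
noncomputable def mat {K : Type} [Field K] [NumberField K] {ℓ : ℕ} [Fact ℓ.Prime] (R : GalRep K ℓ)
    {ρ m : ℕ} (b : Basis (Fin ρ ⊕ Fin m) ℚ_[ℓ] R.V) (σ : GK K) :
    Matrix (Fin ρ ⊕ Fin m) (Fin ρ ⊕ Fin m) ℚ_[ℓ] :=
  LinearMap.toMatrix b b (R.r σ)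

/-- The endomorphism field `E` of the transcendental Hodge structure `T` of a hyperkähler variety,
where `m = dim T` and `n = dim_E T`, the Beauville-Bogomolov form `ψ` on `T_ℓ = T ⊗ ℚ_ℓ`, and the
action `act` of `E` on `T_ℓ`. `E` is a totally real field or a CM field, `conj` is the complex
conjugation, and also the adjunction with respect to `ψ`; `n ≥ 3` if `E` is totally real (Zarhin). -/
structure EndField (ℓ : ℕ) [Fact ℓ.Prime] (m : ℕ) where
  E : Type
  [field : Field E]
  [nf : NumberField E]
  n : ℕ
  npos : 0 < n
  act : E → Matrix (Fin m) (Fin m) ℚ_[ℓ]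
  act_one : act 1 = 1
  act_add : ∀ x y, act (x + y) = act x + act y
  act_mul : ∀ x y, act (x * y) = act x * act y
  tr_act : ∀ e, (act e).trace = (n * Algebra.trace ℚ E e : ℚ)
  conj : E ≃+* E
  complex : ∀ (φ : E →+* ℂ) (e : E), φ (conj e) = starRingEnd ℂ (φ e)
  real : (∀ e, conj e = e) → 3 ≤ n
  ψ : Matrix (Fin m) (Fin m) ℚ_[ℓ]
  symm : ψ.transpose = ψ
  nondeg : IsUnit ψ
  adj : ∀ e, ψ * act e = (act (conj e)).transpose * ψ

attribute [instance] EndField.field EndField.nf

section

variable {ℓ : ℕ} [Fact ℓ.Prime] {m : ℕ}

/-- The automorphism group of the field `E`. -/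
def EndField.Aut (F : EndField ℓ m) : Type := F.E ≃+* F.E

instance (F : EndField ℓ m) : Group F.Aut := inferInstanceAs (Group (RingAut F.E))

/-- The image of `e` under the automorphism `g`. -/
def EndField.ap (F : EndField ℓ m) (g : F.Aut) (e : F.E) : F.E :=
  RingEquiv.toEquiv (show F.E ≃+* F.E from g) e

/-- The complex conjugation. -/
def EndField.cc (F : EndField ℓ m) : F.Aut := F.conj

/-- A matrix with entries in the algebraic closure of `ℚ_ℓ`. -/
noncomputable def bar (A : Matrix (Fin m) (Fin m) ℚ_[ℓ]) :
    Matrix (Fin m) (Fin m) (AlgebraicClosure ℚ_[ℓ]) :=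
  A.map (algebraMap ℚ_[ℓ] (AlgebraicClosure ℚ_[ℓ]))

/-- The monodromy of the representation `τ` is large: the Zariski closure of the image of an open
subgroup contains the squares of all `E`-linear isometries, that is, every polynomial `P` in the matrix
entries which vanishes on the image of an open subgroup vanishes at all these squares. -/
def Large {K : Type} [Field K] [NumberField K] (τ : GK K → Matrix (Fin m) (Fin m) ℚ_[ℓ])
    (F : EndField ℓ m) : Prop :=
  ∀ U : Subgroup (GK K), IsOpen (U : Set (GK K)) → ∀ P : MvPolynomial (Fin m × Fin m) ℚ_[ℓ],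
    (∀ u ∈ U, MvPolynomial.aeval (fun x => τ u x.1 x.2) P = 0) →
    ∀ M : Matrix (Fin m) (Fin m) (AlgebraicClosure ℚ_[ℓ]),
      (∀ e, M * bar (F.act e) = bar (F.act e) * M) → M.transpose * bar F.ψ * M = bar F.ψ →
      MvPolynomial.aeval (fun x => (M * M) x.1 x.2) P = 0

end

/-- The structure of `H²(X)(1)`. In a suitable basis it is the direct sum of `NS(X_K̄) ⊗ ℚ_ℓ`, on which
the Galois group acts through a finite group of integral matrices `NS σ`, and of the transcendental part
`T_ℓ` (the matrices `τ σ`), a space with an action of the endomorphism field (`F`). The endomorphisms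
are defined over `K̄`, and `c` is the action of the Galois group on `E`. The representation is continuous
and preserves the form. `mt` is the Mumford-Tate conjecture for `H²(X)` (Tankeev, André), together with
Zarhin's computation of the Hodge group as the unitary or special orthogonal group of `T` over `E`. -/
structure Transc {K : Type} [Field K] [NumberField K] {ℓ : ℕ} [Fact ℓ.Prime]
    (X : Hyperkaehler K ℓ) where
  ρ : ℕ
  m : ℕ
  basis : Basis (Fin ρ ⊕ Fin m) ℚ_[ℓ] X.R.V
  NS : GK K → Matrix (Fin ρ) (Fin ρ) ℤ
  finite : (Set.range NS).Finite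
  τ : GK K → Matrix (Fin m) (Fin m) ℚ_[ℓ]
  cont : ∀ i j, Continuous fun σ => τ σ i j
  decomp : ∀ σ, mat X.R basis σ = Matrix.fromBlocks ((NS σ).map Int.cast) 0 0 (τ σ)
  F : EndField ℓ m
  iso : ∀ σ, (τ σ).transpose * F.ψ * τ σ = F.ψ
  c : GK K → F.Aut
  semil : ∀ σ e, τ σ * F.act e = F.act (F.ap (c σ) e) * τ σ
  mt : Large τ F

section

variable {K : Type} [Field K] [NumberField K] {ℓ : ℕ} [Fact ℓ.Prime] {X : Hyperkaehler K ℓ}

/-- The generic height for an automorphism `g` of `E`: the order of `g`, with the exception that it is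
`0` (supersingular) if `dim_E T = 1` (complex multiplication) and the complex conjugation is a power of
`g`. -/
noncomputable def Transc.generic (D : Transc X) (g : D.F.Aut) : ℕ :=
  open scoped Classical in
  if D.F.n = 1 ∧ D.F.cc ∈ Subgroup.zpowers g then 0 else orderOf g

end

section

variable {K : Type} [Field K] [NumberField K] {ι : Type} {ℓ : ι → ℕ} [∀ i, Fact (ℓ i).Prime]
  {X : ∀ i, Hyperkaehler K (ℓ i)}

/-- The image of the Galois group of `K` in the product of the automorphism groups of the endomorphism
fields: the Galois group of `L / K`, where `L` is the field of definition of the endomorphisms. -/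
def image (D : ∀ i, Transc (X i)) : Set (∀ i, (D i).F.Aut) :=
  Set.range fun (σ : GK K) i => (D i).c σ

/-- The elements of `Gal(L / K)` for which the generic heights are `h i`. -/
def withHeights (D : ∀ i, Transc (X i)) (h : ι → ℕ) : Set (∀ i, (D i).F.Aut) :=
  {g ∈ image D | ∀ i, (D i).generic (g i) = h i}

end

end Pool.Agent.Zk8.KT
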