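import Pool.Agent.Zk8.KT.Conv
import Pool.Agent.N397.HO.Summ

/-!
# Summands of the cohomology of varieties built from given hyperkähler varieties
-/

set_option autoImplicit false
set_option linter.all false

namespace Pool.Agent.Zk8.KT

open Module NumberField IsDedekindDomain Topology Filter
open Pool.Agent.W401.Cheb Pool.Agent.N184.HK Pool.Agent.W528.Ord Pool.Agent.N397.HO

section defs

variable {F : Type} [Field F] [NumberField F]

/-- `V` are the numerical data (Hodge and Newton slopes in all degrees) of the hyperkähler variety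
`X`, at the places of good reduction. -/
def IsData {ℓ : ℕ} [Fact ℓ.Prime] (X : Hyperkaehler F ℓ) (V : Fam (𝓞 F)) : Prop :=
  (∀ k, V.hodge k = if k ≤ X.d then Finset.univ.val.map (X.hs k) else 0) ∧
  ∀ (v : HeightOneSpectrum (𝓞 F)) (hv : v ∉ X.bad) (k : ℕ), V.newton (pt v) k =
    if k ≤ X.d then Finset.univ.val.map ((X.place v hv).ns k) else 0

/-- The places at which `V` is not ordinary have natural density zero. -/
def OrdinaryAlmost (V : Fam (𝓞 F)) : Prop :=
  Tendsto (ratio fun v : HeightOneSpectrum (𝓞 F) => ¬ V.Ord (pt v)) atTop (𝓝 0)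

/-- The varieties (given by their numerical data) which are built from the given hyperkähler varieties
`X i` and from varieties which are ordinary outside of a set of places of density zero, by products,
direct sums, Tate twists and direct summands (projective bundles, blow-ups, images under surjective
morphisms). -/
inductive BuiltFrom {ι : Type} {ℓ : ι → ℕ} [∀ i, Fact (ℓ i).Prime]
    (X : ∀ i, Hyperkaehler F (ℓ i)) : Fam (𝓞 F) → Prop
  | hk (i : ι) (V : Fam (𝓞 F)) : IsData (X i) V → BuiltFrom X V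
  | almost (V : Fam (𝓞 F)) : OrdinaryAlmost V → BuiltFrom X V
  | prod (V W : Fam (𝓞 F)) : BuiltFrom X V → BuiltFrom X W → BuiltFrom X (V.prod W)
  | sum (V W : Fam (𝓞 F)) : BuiltFrom X V → BuiltFrom X W → BuiltFrom X (V.sum W)
  | twist (V : Fam (𝓞 F)) (k : ℕ) : BuiltFrom X V → BuiltFrom X (V.twist k)
  | summand (V C : Fam (𝓞 F)) : V.Above → C.Above → BuiltFrom X (V.sum C) → BuiltFrom X V

/-- The place `v` is ordinary for the summand `R`: it is not one of the finitely many exceptional places,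
and for all pairs `t = (ℓ, τ)` the Newton polygon of `R_ℓ` with respect to `τ` is the Hodge-Tate
polygon. -/
def SummandOrd {V : Fam (𝓞 F)} {n : ℕ} (R : Summand V n) (v : HeightOneSpectrum (𝓞 F)) : Prop :=
  v ∉ R.bad ∧ ∀ t, R.ok v t → R.newton v t = R.hodge

/-- For all pairs `t = (ℓ, τ)` the Newton polygon of `R_ℓ` with respect to `τ` has exactly `h` slopes
which are smaller than `1`. -/
def SummandHeight {V : Fam (𝓞 F)} {n : ℕ} (R : Summand V n) (v : HeightOneSpectrum (𝓞 F))
    (h : ℕ) : Prop :=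
  v ∉ R.bad ∧ ∀ t, R.ok v t → ((R.newton v t).filter (· < 1)).card = h

end defs

section lemmas

variable {F : Type} [Field F] [NumberField F]

lemma dens_of_ratio (P : HeightOneSpectrum (𝓞 F) → Prop) (c : ℝ)
    (h : Tendsto (ratio P) atTop (𝓝 c)) : Tendsto (dens P) atTop (𝓝 c) := by
  have h1 := h.mul (dens_true' (K := F))
  rw [mul_one] at h1
  refine h1.congr' ?_
  filter_upwards [ratio_eq P, (dens_true' (K := F)).eventually (lt_mem_nhds
    (show (1/2:ℝ) < 1 by norm_num))] with N h2 h3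
  rw [h2, div_mul_cancel₀]
  have : (0:ℝ) < (Nat.card {v : HeightOneSpectrum (𝓞 F) // Ideal.absNorm v.asIdeal ≤ N} : ℝ) /
    (Nat.primeCounting N : ℝ) := by linarith
  exact this.ne'

lemma dens_empty {P : HeightOneSpectrum (𝓞 F) → Prop} (h : ∀ v, ¬ P v) :
    Tendsto (dens P) atTop (𝓝 0) := by
  have e : dens P = fun _ => 0 := by
    funext N
    unfold dens
    have : Nat.card {v : HeightOneSpectrum (𝓞 F) // Ideal.absNorm v.asIdeal ≤ N ∧ P v} = 0 := by
      rw [Nat.card_eq_zero]
      left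
      exact ⟨fun v => h v.1 v.2.2⟩
    rw [this]
    simp
  rw [e]
  exact tendsto_const_nhds

lemma dens_zero_mono {P Q : HeightOneSpectrum (𝓞 F) → Prop} (h : ∀ v, P v → Q v)
    (hQ : Tendsto (dens Q) atTop (𝓝 0)) : Tendsto (dens P) atTop (𝓝 0) :=
  squeeze_zero (fun N => dens_nonneg _ _) (fun N => dens_mono h N) hQ

variable {ι : Type} {ℓ : ι → ℕ} [∀ i, Fact (ℓ i).Prime] {X : ∀ i, Hyperkaehler F (ℓ i)}

/-- all `X i` are ordinary at `v` -/
def AllOrd (X : ∀ i, Hyperkaehler F (ℓ i)) (v : HeightOneSpectrum (𝓞 F)) : Prop :=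
  ∀ i, ∃ hv : v ∉ (X i).bad, ∀ k ≤ (X i).d, (X i).OrdinaryIn v hv k

lemma built_dens {V : Fam (𝓞 F)} (hV : BuiltFrom X V) :
    Tendsto (dens fun v : HeightOneSpectrum (𝓞 F) => AllOrd X v ∧ ¬ V.Ord (pt v)) atTop (𝓝 0) := by
  induction hV with
  | hk i V hV =>
    refine dens_empty ?_
    rintro v ⟨h1, h2⟩
    apply h2
    obtain ⟨hv, h3⟩ := h1 i
    intro k
    rw [hV.1, hV.2 v hv]
    by_cases hk : k ≤ (X i).d
    · rw [if_pos hk, if_pos hk]
      have h4 := h3 k hk
      rw [Hyperkaehler.OrdinaryIn] at h4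
      rw [h4]
    · rw [if_neg hk, if_neg hk]
  | almost V hV => exact dens_zero_mono (fun v h => h.2) (dens_of_ratio _ _ hV)
  | prod V W _ _ ih1 ih2 =>
    refine dens_zero_mono ?_ (dens_zero_or ih1 ih2)
    rintro v ⟨h1, h2⟩
    by_contra hc
    push Not at hc
    have e1 : V.newton (pt v) = V.hodge := funext (hc.1 h1)
    have e2 : W.newton (pt v) = W.hodge := funext (hc.2 h1)
    apply h2
    intro i
    change kun (V.newton (pt v)) (W.newton (pt v)) i = kun V.hodge W.hodge i
    rw [e1, e2]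
  | sum V W _ _ ih1 ih2 =>
    refine dens_zero_mono ?_ (dens_zero_or ih1 ih2)
    rintro v ⟨h1, h2⟩
    by_contra hc
    push Not at hc
    have e1 := hc.1 h1
    have e2 := hc.2 h1
    apply h2
    intro i
    change V.newton (pt v) i + W.newton (pt v) i = V.hodge i + W.hodge i
    rw [e1 i, e2 i]
  | twist V k _ ih =>
    refine dens_zero_mono ?_ ih
    rintro v ⟨h1, h2⟩
    refine ⟨h1, fun h3 => h2 fun i => ?_⟩
    change (if 2 * k ≤ i then (V.newton (pt v) (i - 2 * k)).map (fun x => x + (k : ℚ)) else 0) =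
      (if 2 * k ≤ i then (V.hodge (i - 2 * k)).map (fun x => x + (k : ℚ)) else 0)
    rw [h3 (i - 2 * k)]
  | summand V C hV hC _ ih =>
    refine dens_zero_mono ?_ ih
    rintro v ⟨h1, h2⟩
    refine ⟨h1, fun h3 => h2 fun i => ?_⟩
    have hs : (pt v).asIdeal.IsMaximal := v.isMaximal
    have e1 : V.newton (pt v) i + C.newton (pt v) i = V.hodge i + C.hodge i := h3 i
    have e2 := congrArg (fun m : Multiset ℚ => (m.map (fun x => x ^ 2)).sum) e1
    simp only [Multiset.map_add, Multiset.sum_add] at e2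
    have m1 := maj_multiset (hV (pt v) hs i)
    have m2 := maj_multiset (hC (pt v) hs i)
    exact m1.2 (by linarith [m2.1])

lemma summand_ord {V : Fam (𝓞 F)} {n : ℕ} (R : Summand V n) {v : HeightOneSpectrum (𝓞 F)}
    (hv : v ∉ R.bad) (h : V.Ord (pt v)) : SummandOrd R v := ⟨hv, R.ord hv (h n)⟩

lemma dens_badset {κ : Type} [Finite κ] (bad : κ → Set (HeightOneSpectrum (𝓞 F)))
    (h : ∀ k, (bad k).Finite) :
    Tendsto (dens fun v : HeightOneSpectrum (𝓞 F) => ∃ k, v ∈ bad k) atTop (𝓝 0) := by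
  refine dens_finite (fun v => ∃ k, v ∈ bad k) ?_
  have : {v : HeightOneSpectrum (𝓞 F) | ∃ k, v ∈ bad k} = ⋃ k, bad k := by
    ext v; simp
  rw [this]
  exact Set.finite_iUnion h

/-- a set which contains a set of density `c`, up to density zero -/
lemma le_lowerDensity {P Q E : HeightOneSpectrum (𝓞 F) → Prop} {c : ℝ}
    (hQ : Tendsto (dens Q) atTop (𝓝 c)) (hE : Tendsto (dens E) atTop (𝓝 0))
    (h : ∀ v, Q v → P v ∨ E v) : c ≤ lowerDensity P := by
  have hQ' := ratio_tendsto _ _ hQ
  have hE' := ratio_tendsto _ _ hE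
  have hle : ∀ N, ratio Q N ≤ ratio P N + ratio E N := by
    intro N
    have h1 := (dens_mono h N).trans (dens_or P E N)
    unfold dens at h1
    unfold ratio
    rw [← add_div]
    apply div_le_div_of_nonneg_right _ (Nat.cast_nonneg _)
    have h2 := Set.ncard_union_le {v : HeightOneSpectrum (𝓞 F) | Ideal.absNorm v.asIdeal ≤ N ∧ P v}
      {v : HeightOneSpectrum (𝓞 F) | Ideal.absNorm v.asIdeal ≤ N ∧ E v}
    have h3 : {v : HeightOneSpectrum (𝓞 F) | Ideal.absNorm v.asIdeal ≤ N ∧ Q v}.ncard ≤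
      ({v : HeightOneSpectrum (𝓞 F) | Ideal.absNorm v.asIdeal ≤ N ∧ P v} ∪
        {v : HeightOneSpectrum (𝓞 F) | Ideal.absNorm v.asIdeal ≤ N ∧ E v}).ncard := by
      apply Set.ncard_le_ncard
      · rintro v ⟨h4, h5⟩
        rcases h v h5 with h6 | h6
        · exact Or.inl ⟨h4, h6⟩
        · exact Or.inr ⟨h4, h6⟩
      · exact (Pool.Agent.W352.ChAbs.finite_le (K := F) N).subset (by
          rintro v (hv | hv) <;> exact hv.1)
    exact_mod_cast h3.trans h2
  unfold lowerDensity
  refine le_of_forall_sub_le fun ε hε => ?_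
  have hlim : Tendsto (fun N => ratio Q N - ratio E N) atTop (𝓝 c) := by
    simpa using hQ'.sub hE'
  have h2 : ∀ᶠ N : ℕ in atTop, c - ε ≤ ratio P N := by
    filter_upwards [hlim.eventually (lt_mem_nhds (show c - ε < c by linarith))] with N h3
    have := hle N
    linarith
  apply le_liminf_of_le _ h2
  refine IsBoundedUnder.isCoboundedUnder_ge ?_
  exact ⟨1, by
    rw [eventually_map]
    exact Eventually.of_forall fun N => ratio_le_one P N⟩

variable [Finite ι] (D : ∀ i, Transc (X i))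

lemma dens_allOrd : Tendsto (dens fun v : HeightOneSpectrum (𝓞 F) => AllOrd X v) atTop
    (𝓝 (1 / ((image D).ncard : ℝ))) := by
  rw [ncard_image]
  exact dens_ordinary (fun i => (D i).old)

/-- the lower bound for everything -/
theorem lower_all {V : Fam (𝓞 F)} (hV : BuiltFrom X V) {κ : Type} [Finite κ] (m : κ → ℕ)
    (R : ∀ k, Summand V (m k)) :
    1 / ((image D).ncard : ℝ) ≤ lowerDensity fun v : HeightOneSpectrum (𝓞 F) =>
      ∀ k, SummandOrd (R k) v := by
  refine le_lowerDensity (dens_allOrd D)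
    (dens_zero_or (built_dens hV) (dens_badset (fun k => (R k).bad) fun k => (R k).finite)) ?_
  intro v hv
  by_cases hb : ∃ k, v ∈ (R k).bad
  · exact Or.inr (Or.inr hb)
  · push Not at hb
    by_cases ho : V.Ord (pt v)
    · exact Or.inl fun k => summand_ord (R k) (hb k) ho
    · exact Or.inr (Or.inl ⟨hv, ho⟩)

end lemmas

section one

variable {F : Type} [Field F] [NumberField F] {ℓ : ℕ} [Fact ℓ.Prime] {X : Hyperkaehler F ℓ}
  {V : Fam (𝓞 F)} (hV : IsData X V) (R : Summand V 2)

include hV in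
lemma newton_two {v : HeightOneSpectrum (𝓞 F)} (hv : v ∉ X.bad) (hb : v ∉ R.bad) {t : R.I}
    (ht : R.ok v t) :
    R.newton v t + R.newton' v t = Finset.univ.val.map ((X.place v hv).ns 2) := by
  rw [R.newton_add v hb t ht, hV.2 v hv, if_pos X.two_le]

include hV in
lemma hodge_two : R.hodge + R.hodge' = Finset.univ.val.map (X.hs 2) := by
  rw [R.hodge_add, hV.1, if_pos X.two_le]

include hV in
/-- an ordinary place for a summand with `h^{0,2} ≠ 0` is an ordinary place of `X` -/
lemma ord_of_summand (h0 : (0 : ℚ) ∈ R.hodge) {v : HeightOneSpectrum (𝓞 F)} (hv : v ∉ X.bad)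
    (ht : ∃ t, R.ok v t) (h : SummandOrd R v) : ∀ k ≤ X.d, X.OrdinaryIn v hv k := by
  rw [← ordinary_iff X hv]
  obtain ⟨t, ht⟩ := ht
  by_contra hno
  have hpos := ordinary_of_zero (three_le X hv) ((X.place v hv).mono 2)
    ((X.place v hv).above 2 X.two_le) (X.dual v hv) X.hodge hno
  have h1 : (0 : ℚ) ∈ Finset.univ.val.map ((X.place v hv).ns 2) := by
    rw [← newton_two hV R hv h.1 ht, h.2 t ht]
    exact Multiset.mem_add.2 (Or.inl h0)
  obtain ⟨j, -, hj⟩ := Multiset.mem_map.1 h1
  exact absurd hj (hpos j).ne'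

include hV in
/-- the complement has the Hodge slope one only -/
lemma hodge_compl (h0 : (0 : ℚ) ∈ R.hodge) (h2 : (2 : ℚ) ∈ R.hodge) : ∀ x ∈ R.hodge', x = 1 := by
  have hd : R.hodge + R.hodge' = Finset.univ.val.map (X.hs 2) := hodge_two hV R
  have hcount : ∀ a : ℚ, (∃ i : ℕ, ∀ j : Fin (X.b 2), X.hs 2 j = a → (j : ℕ) = i) → a ∈ R.hodge →
      a ∉ R.hodge' := by
    rintro a ⟨i, hi⟩ ha ha'
    have h3 : 2 ≤ (Finset.univ.val.map (X.hs 2)).count a := by
      rw [← hd, Multiset.count_add]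
      have := Multiset.count_pos.2 ha
      have := Multiset.count_pos.2 ha'
      omega
    rw [Multiset.count_map] at h3
    have h4 : (Finset.univ.filter fun j : Fin (X.b 2) => a = X.hs 2 j).card ≤ 1 := by
      rw [Finset.card_le_one]
      intro x hx y hy
      rw [Finset.mem_filter] at hx hy
      exact Fin.ext ((hi x hx.2.symm).trans (hi y hy.2.symm).symm)
    have h5 : (Multiset.filter (fun j => a = X.hs 2 j) Finset.univ.val).card =
      (Finset.univ.filter fun j : Fin (X.b 2) => a = X.hs 2 j).card := rfl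
    omega
  intro x hx
  have h3 : x ∈ Finset.univ.val.map (X.hs 2) := by
    rw [← hd]
    exact Multiset.mem_add.2 (Or.inr hx)
  obtain ⟨j, -, hj⟩ := Multiset.mem_map.1 h3
  rw [X.hodge] at hj
  by_cases j0 : (j : ℕ) = 0
  · rw [if_pos j0] at hj
    subst hj
    refine absurd hx (hcount 0 ⟨0, fun i hi => ?_⟩ h0)
    rw [X.hodge] at hi
    by_contra hne
    rw [if_neg hne] at hi
    split_ifs at hi <;> norm_num at hi
  · rw [if_neg j0] at hj
    by_cases j2 : (j : ℕ) + 1 = X.b 2
    · rw [if_pos j2] at hj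
      subst hj
      refine absurd hx (hcount 2 ⟨X.b 2 - 1, fun i hi => ?_⟩ h2)
      rw [X.hodge] at hi
      split_ifs at hi with h4 h5
      · norm_num at hi
      · omega
      · norm_num at hi
    · rw [if_neg j2] at hj
      exact hj.symm

/-- the slopes of the complement are at least one -/
lemma newton_compl (h1 : ∀ x ∈ R.hodge', x = 1) {v : HeightOneSpectrum (𝓞 F)} (hb : v ∉ R.bad)
    {t : R.I} (ht : R.ok v t) : ∀ x ∈ R.newton' v t, 1 ≤ x := by
  obtain ⟨hc, -, ha⟩ := R.above' v hb t ht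
  have h3 := ha 1
  intro x hx
  set ln := (R.newton' v t).sort (· ≤ ·) with hln
  set lh := R.hodge'.sort (· ≤ ·) with hlh
  have hx' : x ∈ ln := by rw [hln, Multiset.mem_sort]; exact hx
  have hlen : lh.length = ln.length := by
    rw [hln, hlh, Multiset.length_sort, Multiset.length_sort, hc]
  have hsorted : ln.Pairwise (· ≤ ·) := Multiset.pairwise_sort _ _
  have hall : ∀ y ∈ lh, y = 1 := fun y hy => h1 y (by rw [hlh, Multiset.mem_sort] at hy; exact hy)
  clear_value ln lh
  cases ln with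
  | nil => simp at hx'
  | cons a l =>
    cases lh with
    | nil => simp at hlen
    | cons c l' =>
      simp only [List.take_succ_cons, List.take_zero, List.sum_cons, List.sum_nil, add_zero] at h3
      have hc1 : c = 1 := hall c (by simp)
      rw [hc1] at h3
      rcases List.mem_cons.1 hx' with rfl | hx2
      · exact h3
      · exact h3.trans ((List.pairwise_cons.1 hsorted).1 x hx2)

include hV in
/-- the number of slopes of the summand below one is the height -/
lemma summandHeight_iff (h0 : (0 : ℚ) ∈ R.hodge) (h2 : (2 : ℚ) ∈ R.hodge)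
    {v : HeightOneSpectrum (𝓞 F)} (hv : v ∉ X.bad) (hb : v ∉ R.bad) (hT : ∃ t, R.ok v t) (h : ℕ) :
    SummandHeight R v h ↔ ht X v hv = h := by
  have key : ∀ t, R.ok v t → ((R.newton v t).filter (· < 1)).card = ht X v hv := by
    intro t hT
    have h3 := congrArg (fun m : Multiset ℚ => (m.filter (· < 1)).card) (newton_two hV R hv hb hT)
    simp only [Multiset.filter_add, Multiset.card_add] at h3
    have h4 : ((R.newton' v t).filter (· < 1)) = 0 := by
      rw [Multiset.filter_eq_nil]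
      intro x hx
      exact not_lt.2 (newton_compl R (hodge_compl hV R h0 h2) hb hT x hx)
    rw [h4, Multiset.card_zero, add_zero, Multiset.filter_map, Multiset.card_map] at h3
    exact h3
  constructor
  · rintro ⟨-, h3⟩
    obtain ⟨t, hT⟩ := hT
    rw [← key t hT]
    exact h3 t hT
  · intro h3
    exact ⟨hb, fun t hT => (key t hT).trans h3⟩

end one

section family

variable {F : Type} [Field F] [NumberField F] {ι : Type} [Finite ι] {ℓ : ι → ℕ}
  [∀ i, Fact (ℓ i).Prime] {X : ∀ i, Hyperkaehler F (ℓ i)} (D : ∀ i, Transc (X i))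

/-- the exact density -/
theorem exact_density (V : ι → Fam (𝓞 F)) (hV : ∀ i, IsData (X i) (V i))
    (R : ∀ i, Summand (V i) 2) (hR : ∀ i, (0 : ℚ) ∈ (R i).hodge ∧ (2 : ℚ) ∈ (R i).hodge ∧
      ∀ v, ∃ t, (R i).ok v t)
    {W : Fam (𝓞 F)} (hW : BuiltFrom X W) {κ : Type} [Finite κ] (m : κ → ℕ)
    (S : ∀ k, Summand W (m k)) :
    Tendsto (ratio fun v : HeightOneSpectrum (𝓞 F) =>
      (∀ i, SummandOrd (R i) v) ∧ ∀ k, SummandOrd (S k) v) atTop (𝓝 (1 / ((image D).ncard : ℝ))) := by
  refine ratio_tendsto _ _ (dens_sandwich (dens_allOrd D)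
    (dens_zero_or (built_dens hW) (dens_zero_or (dens_badset (fun k => (S k).bad) fun k => (S k).finite)
      (dens_zero_or (dens_badset (fun i => (R i).bad) fun i => (R i).finite)
        (dens_badset (fun i => (X i).bad) fun i => (X i).finite)))) ?_ ?_)
  · rintro v ⟨h1, h2⟩
    by_cases hb : ∃ i, v ∈ (X i).bad
    · exact Or.inr (Or.inr (Or.inr (Or.inr hb)))
    · push Not at hb
      exact Or.inl fun i => ⟨hb i, ord_of_summand (hV i) (R i) (hR i).1 (hb i) ((hR i).2.2 v) (h1 i)⟩
  · intro v hv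
    by_cases hb1 : ∃ k, v ∈ (S k).bad
    · exact Or.inr (Or.inr (Or.inl hb1))
    by_cases hb2 : ∃ i, v ∈ (R i).bad
    · exact Or.inr (Or.inr (Or.inr (Or.inl hb2)))
    by_cases ho : W.Ord (pt v)
    · push Not at hb1 hb2
      refine Or.inl ⟨fun i => ⟨hb2 i, ?_⟩, fun k => summand_ord (S k) (hb1 k) ho⟩
      refine (R i).ord (hb2 i) ?_
      obtain ⟨hvi, h3⟩ := hv i
      rw [(hV i).1, (hV i).2 v hvi, if_pos (X i).two_le, if_pos (X i).two_le]
      have h4 := h3 2 (X i).two_le
      rw [Hyperkaehler.OrdinaryIn] at h4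
      rw [h4]
    · exact Or.inr (Or.inl ⟨hv, ho⟩)

/-- the distribution of the heights -/
theorem exact_heights (V : ι → Fam (𝓞 F)) (hV : ∀ i, IsData (X i) (V i))
    (R : ∀ i, Summand (V i) 2) (hR : ∀ i, (0 : ℚ) ∈ (R i).hodge ∧ (2 : ℚ) ∈ (R i).hodge ∧
      ∀ v, ∃ t, (R i).ok v t) (h : ι → ℕ) :
    Tendsto (ratio fun v : HeightOneSpectrum (𝓞 F) => ∀ i, SummandHeight (R i) v (h i)) atTop
      (𝓝 (((withHeights D h).ncard : ℝ) / ((image D).ncard : ℝ))) := by
  have h1 := dens_of_ratio _ _ (main_height D h)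
  refine ratio_tendsto _ _ (dens_sandwich h1
      (dens_zero_or (dens_badset (fun i => (R i).bad) fun i => (R i).finite)
        (dens_badset (fun i => (X i).bad) fun i => (X i).finite)) ?_ ?_)
  · intro v h2
    by_cases hb : ∃ i, v ∈ (X i).bad
    · exact Or.inr (Or.inr hb)
    · push Not at hb
      exact Or.inl fun i => ⟨hb i, (summandHeight_iff (hV i) (R i) (hR i).1 (hR i).2.1 (hb i)
        (h2 i).1 ((hR i).2.2 v) (h i)).1 (h2 i)⟩
  · intro v h2
    by_cases hb : ∃ i, v ∈ (R i).bad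
    · exact Or.inr (Or.inl hb)
    · push Not at hb
      refine Or.inl fun i => ?_
      obtain ⟨hv, h3⟩ := h2 i
      exact (summandHeight_iff (hV i) (R i) (hR i).1 (hR i).2.1 hv (hb i) ((hR i).2.2 v) (h i)).2 h3

end family

end Pool.Agent.Zk8.KT
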